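import Pool.Agent.Lib.MP_ca0971_gt.OT.Net.Ord

/-! # Project OT, part A: Dia.Z_bound -/

set_option autoImplicit false

namespace Pool.Agent.Lib.MP_ca0971_gt.OT

open Finset

theorem abs_Tw_le (N : ℕ) {e b : ℝ} (he : e = 1 ∨ e = -1) (hb : b ≤ 0) (o u o' u' : Fin N) :
    |Tw N e b o u o' u'| ≤ 2 := by
  unfold Tw
  split_ifs with h1 h2 h3
  · rw [abs_of_pos (Real.rpow_pos_of_pos (by norm_num) _)]
    rcases he with rfl | rfl
    · norm_num
    · calc (2 : ℝ) ^ (-1 : ℝ) ≤ 2 ^ (1 : ℝ) :=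
            Real.rpow_le_rpow_of_exponent_le (by norm_num) (by norm_num)
        _ = 2 := by norm_num
  · norm_num
  · have h0 : (0 : ℝ) < (2 : ℝ) ^ (2 * (((u : ℕ) : ℝ) - ((o : ℕ) : ℝ)) * b) :=
      Real.rpow_pos_of_pos (by norm_num) _
    have h : (2 : ℝ) ^ (2 * (((u : ℕ) : ℝ) - ((o : ℕ) : ℝ)) * b) ≤ 1 := by
      refine Real.rpow_le_one_of_one_le_of_nonpos (by norm_num) ?_
      have : ((o : ℕ) : ℝ) < ((u : ℕ) : ℝ) := by exact_mod_cast h3.2.2
      exact mul_nonpos_of_nonneg_of_nonpos (by linarith) hb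
    have he1 : |e| = 1 := by
      rcases he with rfl | rfl <;> norm_num
    rw [abs_mul, abs_mul, abs_of_pos h0, he1]
    norm_num
    linarith
  · norm_num

theorem abs_kap_le {N : ℕ} (c : Fin N) : |kap N c| ≤ (N : ℝ) - 1 := by
  unfold kap
  have h1 : ((c : ℕ) : ℝ) ≤ (N : ℝ) - 1 := by
    have : (c : ℕ) + 1 ≤ N := c.isLt
    have h2 : ((c : ℕ) : ℝ) + 1 ≤ (N : ℝ) := by exact_mod_cast this
    linarith
  have h0 : (0 : ℝ) ≤ ((c : ℕ) : ℝ) := Nat.cast_nonneg _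
  rw [abs_le]
  constructor <;> linarith

theorem abs_netZ_le {J X : Type} [Fintype J] [DecidableEq J] (N : ℕ) (nx : J → J) (g : J → ℝ)
    (C : Finset X) (ov un : X → J) (ep b : X → ℝ) (he : ∀ x ∈ C, ep x = 1 ∨ ep x = -1)
    (hb : ∀ x ∈ C, b x ≤ 0) :
    |netZ N nx g C ov un ep b| ≤
      (N : ℝ) ^ Fintype.card J * ((2 : ℝ) ^ (((N : ℝ) - 1) * ∑ j, |g j|) * 2 ^ C.card) := by
  unfold netZ
  have key : ∀ s : J → Fin N,
      |(∏ j, (2 : ℝ) ^ (kap N (s j) * g j)) *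
        (∏ j, if (∀ x ∈ C, ov x ≠ j ∧ un x ≠ j) ∧ s (nx j) ≠ s j then (0 : ℝ) else 1) *
        ∏ x ∈ C, Tw N (ep x) (b x) (s (ov x)) (s (un x)) (s (nx (ov x))) (s (nx (un x)))| ≤
      (2 : ℝ) ^ (((N : ℝ) - 1) * ∑ j, |g j|) * 2 ^ C.card := by
    intro s
    have h1 : |∏ j, (2 : ℝ) ^ (kap N (s j) * g j)| ≤ (2 : ℝ) ^ (((N : ℝ) - 1) * ∑ j, |g j|) := by
      rw [Finset.abs_prod, Finset.mul_sum, Real.rpow_sum_of_pos (by norm_num)]
      refine Finset.prod_le_prod (fun _ _ => abs_nonneg _) fun j _ => ?_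
      rw [abs_of_pos (Real.rpow_pos_of_pos (by norm_num) _)]
      refine Real.rpow_le_rpow_of_exponent_le (by norm_num) ?_
      calc kap N (s j) * g j ≤ |kap N (s j) * g j| := le_abs_self _
        _ = |kap N (s j)| * |g j| := abs_mul _ _
        _ ≤ ((N : ℝ) - 1) * |g j| := mul_le_mul_of_nonneg_right (abs_kap_le _) (abs_nonneg _)
    have h2 : |∏ j, if (∀ x ∈ C, ov x ≠ j ∧ un x ≠ j) ∧ s (nx j) ≠ s j then (0 : ℝ) else 1| ≤
        1 := by
      rw [Finset.abs_prod]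
      refine Finset.prod_le_one (fun _ _ => abs_nonneg _) fun j _ => ?_
      split_ifs <;> norm_num
    have h3 : |∏ x ∈ C, Tw N (ep x) (b x) (s (ov x)) (s (un x)) (s (nx (ov x)))
        (s (nx (un x)))| ≤ 2 ^ C.card := by
      rw [Finset.abs_prod, ← Finset.prod_const]
      exact Finset.prod_le_prod (fun _ _ => abs_nonneg _)
        fun x hx => abs_Tw_le N (he x hx) (hb x hx) _ _ _ _
    rw [abs_mul, abs_mul]
    have h4 : (0 : ℝ) < (2 : ℝ) ^ (((N : ℝ) - 1) * ∑ j, |g j|) :=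
      Real.rpow_pos_of_pos (by norm_num) _
    calc _ ≤ (2 : ℝ) ^ (((N : ℝ) - 1) * ∑ j, |g j|) * 1 * 2 ^ C.card :=
          mul_le_mul (mul_le_mul h1 h2 (abs_nonneg _) h4.le) h3 (abs_nonneg _) (by positivity)
      _ = _ := by rw [mul_one]
  calc _ ≤ ∑ s : J → Fin N, _ := Finset.abs_sum_le_sum_abs _ _
    _ ≤ ∑ _s : J → Fin N, (2 : ℝ) ^ (((N : ℝ) - 1) * ∑ j, |g j|) * 2 ^ C.card :=
        Finset.sum_le_sum fun s _ => key s
    _ = _ := by
        rw [Finset.sum_const, Finset.card_univ, Fintype.card_fun, Fintype.card_fin, nsmul_eq_mul]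
        push_cast
        rfl

variable {I : Type} [Fintype I] [DecidableEq I]

/-- Bound of the state sum: after a gauge transformation `h` all crossing angles are `≤ 0` and the
total turning is at most `c`. -/
theorem Dia.Z_bound (σ : Equiv.Perm I) (D : Dia I) (hD : D.Ok) (h : I → ℝ) (c : ℝ)
    (hb : ∀ i j, (i, j) ∈ D.C → D.b i j + h j - h i ≤ 0)
    (hth : ∑ i, |D.th i + h (σ i) - h i| ≤ c) :
    ∃ K : ℕ, ∀ N : ℕ, 1 ≤ N → |D.Z σ N| ≤ 2 ^ K * (N : ℝ) ^ K * (2 : ℝ) ^ (((N : ℝ) - 1) * c) := by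
  let D' : Dia I := { C := D.C, pos := D.pos, th := fun i => D.th i + h (σ i) - h i, ep := D.ep,
                      b := fun i j => D.b i j + h j - h i }
  refine ⟨D.C.card + Fintype.card (I × Fin (Fintype.card I + 1)), fun N hN => ?_⟩
  have hN1 : (1 : ℝ) ≤ (N : ℝ) := by exact_mod_cast hN
  have hg : D'.Z σ N = D.Z σ N :=
    Dia.Z_gauge σ N D D' hD h rfl rfl (fun _ => rfl) (fun _ _ _ => rfl) fun _ _ _ => rfl
  rw [← hg]
  have h1 := abs_netZ_le N (gnx σ (Fintype.card I))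
    (fun j => if j.2 = 0 then D'.th (σ.symm j.1) else 0) D'.C
    (fun x => (x.1, Fin.ofNat (Fintype.card I + 1) (D'.rk x.1 x.2)))
    (fun x => (x.2, Fin.ofNat (Fintype.card I + 1) (D'.rk x.2 x.1)))
    (fun x => D'.ep x.1 x.2) (fun x => D'.b x.1 x.2) (fun x hx => hD.sgn x.1 x.2 hx)
    (fun x hx => hb x.1 x.2 hx)
  have h2 : ∑ j : I × Fin (Fintype.card I + 1), |if j.2 = 0 then D'.th (σ.symm j.1) else 0| ≤
      c := by
    refine le_trans (le_of_eq ?_) hth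
    rw [Fintype.sum_prod_type]
    have : ∀ i : I, ∑ k : Fin (Fintype.card I + 1),
        |if k = 0 then D'.th (σ.symm i) else 0| = |D'.th (σ.symm i)| := by
      intro i
      rw [Finset.sum_eq_single (0 : Fin (Fintype.card I + 1))]
      · rw [if_pos rfl]
      · intro k _ hk
        rw [if_neg hk, abs_zero]
      · intro hk
        exact absurd (Finset.mem_univ _) hk
    simp only [this]
    exact Equiv.sum_comp σ.symm fun i => |D'.th i|
  have h3 : (2 : ℝ) ^ (((N : ℝ) - 1) *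
      ∑ j : I × Fin (Fintype.card I + 1), |if j.2 = 0 then D'.th (σ.symm j.1) else 0|) ≤
      (2 : ℝ) ^ (((N : ℝ) - 1) * c) :=
    Real.rpow_le_rpow_of_exponent_le (by norm_num)
      (mul_le_mul_of_nonneg_left h2 (by linarith))
  have h4 : (0 : ℝ) < (2 : ℝ) ^ (((N : ℝ) - 1) * c) := Real.rpow_pos_of_pos (by norm_num) _
  refine le_trans h1 ?_
  have h5 : (N : ℝ) ^ Fintype.card (I × Fin (Fintype.card I + 1)) ≤
      (N : ℝ) ^ (D.C.card + Fintype.card (I × Fin (Fintype.card I + 1))) :=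
    pow_le_pow_right₀ hN1 (Nat.le_add_left _ _)
  have h6 : (2 : ℝ) ^ D'.C.card ≤
      2 ^ (D.C.card + Fintype.card (I × Fin (Fintype.card I + 1))) :=
    pow_le_pow_right₀ (by norm_num) (Nat.le_add_right _ _)
  calc _ ≤ (N : ℝ) ^ (D.C.card + Fintype.card (I × Fin (Fintype.card I + 1))) *
        ((2 : ℝ) ^ (((N : ℝ) - 1) * c) *
          2 ^ (D.C.card + Fintype.card (I × Fin (Fintype.card I + 1)))) := by
        refine mul_le_mul h5 (mul_le_mul h3 h6 (by positivity) h4.le) ?_ (by positivity)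
        exact mul_nonneg (Real.rpow_nonneg (by norm_num) _) (by positivity)
    _ = _ := by ring

end Pool.Agent.Lib.MP_ca0971_gt.OT
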