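import Pool.Agent.Lib.MP_ca0971_gt.OT.Net.NetM

/-! # Project OT, part A: removal of empty pieces, renaming of the crossings (helper25) -/

set_option autoImplicit false

namespace Pool.Agent.Lib.MP_ca0971_gt.OT

open Finset

/-- the crossings are the images of the crossings of another index set -/
theorem clps_image {J X X' : Type} [Fintype J] [DecidableEq J] [DecidableEq X'] (N : ℕ) (nx : J → J)
    (g : J → ℝ) (C : Finset X) (f : X → X') (hf : ∀ x ∈ C, ∀ y ∈ C, f x = f y → x = y)
    (ov un : X' → J) (ep b : X' → ℝ) :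
    netZ N nx g (C.image f) ov un ep b
      = netZ N nx g C (fun x => ov (f x)) (fun x => un (f x)) (fun x => ep (f x)) (fun x => b (f x)) := by
  unfold netZ
  refine Finset.sum_congr rfl fun s _ => ?_
  congr 1
  · congr 1
    refine Finset.prod_congr rfl fun j _ => ?_
    refine if_congr ?_ rfl rfl
    rw [Finset.forall_mem_image]
  · rw [Finset.prod_image (by
      intro x hx y hy hxy
      exact hf x hx y hy hxy)]

/-- Removal of empty pieces with turning zero: `i` = inclusion of the kept pieces, `r` = the first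
kept piece at or after a piece. -/
theorem clps_net {J J' X : Type} [Fintype J] [DecidableEq J] [Fintype J'] [DecidableEq J'] (N : ℕ)
    (nx : J → J) (nx' : J' → J') (i : J' → J) (r : J → J') (m : J → ℕ) (hr : ∀ j', r (i j') = j')
    (hm : ∀ j, (∀ j', i j' ≠ j) → m (nx j) < m j ∧ r j = r (nx j))
    (hnx : ∀ j', nx' j' = r (nx (i j')))
    (g : J → ℝ) (g' : J' → ℝ) (hg : ∀ j', g' j' = g (i j')) (hg0 : ∀ j, (∀ j', i j' ≠ j) → g j = 0)
    (C : Finset X) (ov un : X → J) (ov' un' : X → J') (ep b : X → ℝ)
    (hov : ∀ x ∈ C, i (ov' x) = ov x) (hun : ∀ x ∈ C, i (un' x) = un x) :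
    netZ N nx g C ov un ep b = netZ N nx' g' C ov' un' ep b := by
  classical
  have hinj : Function.Injective i := fun a c h => by rw [← hr a, h, hr c]
  have hphi : Function.Injective (fun s' : J' → Fin N => fun j => s' (r j)) := by
    intro s t hst
    funext j'
    have h1 := congrFun hst (i j')
    simp only [hr] at h1
    exact h1
  -- an admissible state is constant along the removed pieces
  have hadm : ∀ s : J → Fin N, (∀ j, (∀ j', i j' ≠ j) → s (nx j) = s j) →
      ∀ n : ℕ, ∀ j, m j ≤ n → s j = s (i (r j)) := by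
    intro s hs n
    induction n with
    | zero =>
      intro j hj
      by_cases h1 : ∃ j', i j' = j
      · obtain ⟨j', rfl⟩ := h1
        rw [hr]
      · push Not at h1
        have h2 := (hm j h1).1
        omega
    | succ n ih =>
      intro j hj
      by_cases h1 : ∃ j', i j' = j
      · obtain ⟨j', rfl⟩ := h1
        rw [hr]
      · push Not at h1
        obtain ⟨h2, h3⟩ := hm j h1
        rw [← hs j h1, ih (nx j) (by omega), h3]
  unfold netZ
  symm
  -- the weight
  set W : (J → Fin N) → ℝ := fun s => (∏ j, (2 : ℝ) ^ (kap N (s j) * g j)) *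
    (∏ j, if (∀ x ∈ C, ov x ≠ j ∧ un x ≠ j) ∧ s (nx j) ≠ s j then (0 : ℝ) else 1) *
    ∏ x ∈ C, Tw N (ep x) (b x) (s (ov x)) (s (un x)) (s (nx (ov x))) (s (nx (un x))) with hW
  have e1 : ∀ s' : J' → Fin N, (∏ j, (2 : ℝ) ^ (kap N (s' j) * g' j)) *
      (∏ j, if (∀ x ∈ C, ov' x ≠ j ∧ un' x ≠ j) ∧ s' (nx' j) ≠ s' j then (0 : ℝ) else 1) *
      (∏ x ∈ C, Tw N (ep x) (b x) (s' (ov' x)) (s' (un' x)) (s' (nx' (ov' x))) (s' (nx' (un' x))))
      = W (fun j => s' (r j)) := by
    intro s'
    simp only [hW]
    congr 1
    · congr 1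
      · rw [← Finset.prod_subset (Finset.subset_univ (univ.image i)) (by
          intro j _ hj
          have h1 : ∀ j', i j' ≠ j := by
            intro j' h2
            exact hj (Finset.mem_image.mpr ⟨j', Finset.mem_univ _, h2⟩)
          rw [hg0 j h1, mul_zero, Real.rpow_zero]), Finset.prod_image (by
          intro x _ y _ hxy
          exact hinj hxy)]
        refine Finset.prod_congr rfl fun j' _ => ?_
        rw [hr, hg]
      · rw [← Finset.prod_subset (Finset.subset_univ (univ.image i)) (by
          intro j _ hj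
          have h1 : ∀ j', i j' ≠ j := by
            intro j' h2
            exact hj (Finset.mem_image.mpr ⟨j', Finset.mem_univ _, h2⟩)
          rw [if_neg]
          rintro ⟨_, h2⟩
          exact h2 (by rw [(hm j h1).2])), Finset.prod_image (by
          intro x _ y _ hxy
          exact hinj hxy)]
        refine Finset.prod_congr rfl fun j' _ => ?_
        refine if_congr ?_ rfl rfl
        refine and_congr ?_ ?_
        · refine forall₂_congr fun x hx => ?_
          rw [← hov x hx, ← hun x hx, hinj.ne_iff, hinj.ne_iff]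
        · simp only [hr, ← hnx]
    · refine Finset.prod_congr rfl fun x hx => ?_
      rw [← hov x hx, ← hun x hx, hr, hr, ← hnx, ← hnx]
  rw [Finset.sum_congr rfl fun s' _ => e1 s']
  rw [← Finset.sum_image (f := W) (g := fun s' : J' → Fin N => fun j => s' (r j)) (s := univ) (by
    intro x _ y _ hxy
    exact hphi hxy)]
  refine Finset.sum_subset (Finset.subset_univ _) ?_
  intro s _ hs
  by_contra hne
  refine hs ?_
  rw [Finset.mem_image]
  have h1 : ∀ j, (∀ j', i j' ≠ j) → s (nx j) = s j := by
    intro j hj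
    by_contra h2
    refine hne ?_
    simp only [hW]
    have h3 : (∏ j, if (∀ x ∈ C, ov x ≠ j ∧ un x ≠ j) ∧ s (nx j) ≠ s j then (0 : ℝ) else 1) = 0 := by
      refine Finset.prod_eq_zero (Finset.mem_univ j) ?_
      rw [if_pos]
      refine ⟨fun x hx => ⟨?_, ?_⟩, h2⟩
      · rw [← hov x hx]
        exact hj _
      · rw [← hun x hx]
        exact hj _
    rw [h3]
    simp
  refine ⟨fun j' => s (i j'), Finset.mem_univ _, ?_⟩
  funext j
  exact (hadm s h1 (m j) j le_rfl).symm

end Pool.Agent.Lib.MP_ca0971_gt.OT
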