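import Pool.Agent.Lib.MP_ca0971_gt.OT.Net.NetM

/-! # Project OT, part A: Dia.Z_ord, Dia.Z_gauge, Dia.Z_free -/

set_option autoImplicit false

namespace Pool.Agent.Lib.MP_ca0971_gt.OT

open Finset

/-- congruence of the state sum in the data of the crossings -/
theorem ord_congr_data {J X : Type} [Fintype J] [DecidableEq J] (N : ℕ) (nx : J → J) (g g' : J → ℝ)
    (C : Finset X) (ov un ov' un' : X → J) (ep b ep' b' : X → ℝ) (hg : g' = g)
    (hov : ∀ x ∈ C, ov' x = ov x) (hun : ∀ x ∈ C, un' x = un x) (hep : ∀ x ∈ C, ep' x = ep x)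
    (hb : ∀ x ∈ C, b' x = b x) :
    netZ N nx g' C ov' un' ep' b' = netZ N nx g C ov un ep b := by
  unfold netZ
  subst hg
  refine Finset.sum_congr rfl fun s _ => ?_
  have h1 : ∀ j : J, (if (∀ x ∈ C, ov' x ≠ j ∧ un' x ≠ j) ∧ s (nx j) ≠ s j then (0 : ℝ) else 1)
      = if (∀ x ∈ C, ov x ≠ j ∧ un x ≠ j) ∧ s (nx j) ≠ s j then (0 : ℝ) else 1 := by
    intro j
    refine if_congr ?_ rfl rfl
    refine and_congr ?_ Iff.rfl
    refine forall₂_congr fun x hx => ?_
    rw [hov x hx, hun x hx]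
  have h2 : (∏ x ∈ C, Tw N (ep' x) (b' x) (s (ov' x)) (s (un' x)) (s (nx (ov' x))) (s (nx (un' x))))
      = ∏ x ∈ C, Tw N (ep x) (b x) (s (ov x)) (s (un x)) (s (nx (ov x))) (s (nx (un x))) := by
    refine Finset.prod_congr rfl fun x hx => ?_
    rw [hov x hx, hun x hx, hep x hx, hb x hx]
  rw [Finset.prod_congr rfl fun j _ => h1 j, h2]

/-- change of the turnings which does not change the weight of the admissible states -/
theorem ord_congr_state {J X : Type} [Fintype J] [DecidableEq J] (N : ℕ) (nx : J → J) (g g' : J → ℝ)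
    (C : Finset X) (ov un : X → J) (ep b b' : X → ℝ)
    (h : ∀ s : J → Fin N, (∀ j, (∀ x ∈ C, ov x ≠ j ∧ un x ≠ j) → s (nx j) = s j) →
      (∏ j, (2 : ℝ) ^ (kap N (s j) * g' j)) *
        (∏ x ∈ C, Tw N (ep x) (b' x) (s (ov x)) (s (un x)) (s (nx (ov x))) (s (nx (un x))))
      = (∏ j, (2 : ℝ) ^ (kap N (s j) * g j)) *
        (∏ x ∈ C, Tw N (ep x) (b x) (s (ov x)) (s (un x)) (s (nx (ov x))) (s (nx (un x))))) :
    netZ N nx g' C ov un ep b' = netZ N nx g C ov un ep b := by
  unfold netZ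
  refine Finset.sum_congr rfl fun s _ => ?_
  by_cases hs : ∀ j, (∀ x ∈ C, ov x ≠ j ∧ un x ≠ j) → s (nx j) = s j
  · have h1 : ∀ j : J, (if (∀ x ∈ C, ov x ≠ j ∧ un x ≠ j) ∧ s (nx j) ≠ s j then (0 : ℝ) else 1) = 1 := by
      intro j
      rw [if_neg]
      rintro ⟨h2, h3⟩
      exact h3 (hs j h2)
    have h4 := h s hs
    rw [Finset.prod_congr rfl fun j _ => h1 j, Finset.prod_const_one, mul_one, mul_one]
    exact h4
  · push Not at hs
    obtain ⟨j, hj1, hj2⟩ := hs
    have h0 : (∏ j, if (∀ x ∈ C, ov x ≠ j ∧ un x ≠ j) ∧ s (nx j) ≠ s j then (0 : ℝ) else 1) = 0 := by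
      refine Finset.prod_eq_zero (Finset.mem_univ j) ?_
      rw [if_pos ⟨hj1, hj2⟩]
    rw [h0]
    simp

theorem ord_kap_sub (N : ℕ) (a c : Fin N) : kap N a - kap N c = 2 * (((c : ℕ) : ℝ) - ((a : ℕ) : ℝ)) := by
  unfold kap
  ring

/-- gauge transformation of one crossing -/
theorem ord_Tw_gauge (N : ℕ) (e b x y : ℝ) (o u o' u' : Fin N) :
    ((2 : ℝ) ^ ((kap N o - kap N o') * x) * (2 : ℝ) ^ ((kap N u - kap N u') * y)) *
      Tw N e (b + y - x) o u o' u' = Tw N e b o u o' u' := by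
  unfold Tw
  by_cases h1 : o' = o ∧ u' = u
  · obtain ⟨rfl, rfl⟩ := h1
    simp
  · rw [if_neg h1, if_neg h1]
    by_cases h2 : o' = u ∧ u' = o ∧ o < u
    · rw [if_pos h2, if_pos h2]
      obtain ⟨rfl, rfl, h3⟩ := h2
      rw [ord_kap_sub, ord_kap_sub]
      have h2p : (0 : ℝ) < 2 := by norm_num
      have h5 : ∀ a c d : ℝ, (2 : ℝ) ^ a * (2 : ℝ) ^ c * (e * (3 / 2) * (2 : ℝ) ^ d)
          = e * (3 / 2) * (2 : ℝ) ^ (a + c + d) := by
        intro a c d
        rw [Real.rpow_add h2p, Real.rpow_add h2p]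
        ring
      rw [h5]
      congr 2
      ring
    · rw [if_neg h2, if_neg h2, mul_zero]

/-- Gauge transformation of a net. -/
theorem ord_gauge {J X : Type} [Fintype J] [DecidableEq J] (N : ℕ) (nx : J → J)
    (hnx : Function.Injective nx) (g g' η : J → ℝ)
    (hg : ∀ j, g' (nx j) = g (nx j) + η (nx j) - η j)
    (C : Finset X) (ov un : X → J) (ep b b' : X → ℝ)
    (hb : ∀ x ∈ C, b' x = b x + η (un x) - η (ov x))
    (hov : ∀ x ∈ C, ∀ y ∈ C, ov x = ov y → x = y) (hun : ∀ x ∈ C, ∀ y ∈ C, un x = un y → x = y)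
    (hou : ∀ x ∈ C, ∀ y ∈ C, ov x ≠ un y) :
    netZ N nx g' C ov un ep b' = netZ N nx g C ov un ep b := by
  classical
  refine ord_congr_state N nx g g' C ov un ep b b' ?_
  intro s hs
  have h2p : (0 : ℝ) < 2 := by norm_num
  have hbij : Function.Bijective nx := Finite.injective_iff_bijective.mp hnx
  set F : J → ℝ := fun j => (2 : ℝ) ^ ((kap N (s j) - kap N (s (nx j))) * η j) with hF
  -- the turning factors
  have e1 : (∏ j, (2 : ℝ) ^ (kap N (s j) * g' j)) = (∏ j, (2 : ℝ) ^ (kap N (s j) * g j)) * ∏ j, F j := by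
    have e2 : (∏ j, (2 : ℝ) ^ (kap N (s j) * g' j))
        = ∏ j, ((2 : ℝ) ^ (kap N (s (nx j)) * g (nx j)) * (2 : ℝ) ^ (kap N (s (nx j)) * η (nx j)) *
          (2 : ℝ) ^ (-(kap N (s (nx j)) * η j))) := by
      rw [← Function.Bijective.prod_comp hbij fun j => (2 : ℝ) ^ (kap N (s j) * g' j)]
      refine Finset.prod_congr rfl fun j _ => ?_
      rw [hg j, ← Real.rpow_add h2p, ← Real.rpow_add h2p]
      congr 1
      ring
    rw [e2, Finset.prod_mul_distrib, Finset.prod_mul_distrib,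
      Function.Bijective.prod_comp hbij fun j => (2 : ℝ) ^ (kap N (s j) * g j),
      Function.Bijective.prod_comp hbij fun j => (2 : ℝ) ^ (kap N (s j) * η j), mul_assoc,
      ← Finset.prod_mul_distrib]
    congr 1
    refine Finset.prod_congr rfl fun j _ => ?_
    rw [← Real.rpow_add h2p]
    congr 1
    ring
  -- only the pieces with a crossing count
  have e3 : (∏ j, F j) = (∏ x ∈ C, F (ov x)) * ∏ x ∈ C, F (un x) := by
    rw [← Finset.prod_image (f := F) (g := ov) (s := C) (by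
        intro x hx y hy hxy
        exact hov x hx y hy hxy),
      ← Finset.prod_image (f := F) (g := un) (s := C) (by
        intro x hx y hy hxy
        exact hun x hx y hy hxy),
      ← Finset.prod_union (by
        rw [Finset.disjoint_left]
        intro j hj1 hj2
        rw [Finset.mem_image] at hj1 hj2
        obtain ⟨x, hx, rfl⟩ := hj1
        obtain ⟨y, hy, hxy⟩ := hj2
        exact hou x hx y hy hxy.symm)]
    symm
    refine Finset.prod_subset (Finset.subset_univ _) ?_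
    intro j _ hj
    rw [Finset.mem_union, not_or, Finset.mem_image, Finset.mem_image] at hj
    have h3 : s (nx j) = s j := by
      refine hs j fun x hx => ⟨fun h => hj.1 ⟨x, hx, h⟩, fun h => hj.2 ⟨x, hx, h⟩⟩
    simp only [hF]
    rw [h3]
    simp
  rw [e1, e3, mul_assoc]
  congr 1
  rw [← Finset.prod_mul_distrib, ← Finset.prod_mul_distrib]
  refine Finset.prod_congr rfl fun x hx => ?_
  rw [hb x hx]
  exact ord_Tw_gauge N (ep x) (b x) (η (ov x)) (η (un x)) _ _ _ _

variable {I : Type} [Fintype I] [DecidableEq I]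

omit [DecidableEq I] in
theorem Dia.ord_rk_le (D : Dia I) (i j : I) : D.rk i j ≤ Fintype.card I := by
  unfold Dia.rk
  exact Finset.card_le_univ _

omit [DecidableEq I] in
theorem Dia.ord_rk_lt (D : Dia I) (i j k : I) (hj : D.Pas i j) (h : D.pos i j < D.pos i k) :
    D.rk i j < D.rk i k := by
  classical
  unfold Dia.rk
  refine Finset.card_lt_card ?_
  rw [Finset.ssubset_iff_of_subset]
  · refine ⟨j, ?_, ?_⟩
    · rw [Finset.mem_filter]
      exact ⟨Finset.mem_univ _, hj, h⟩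
    · rw [Finset.mem_filter]
      rintro ⟨_, _, h2⟩
      exact lt_irrefl _ h2
  · intro l hl
    rw [Finset.mem_filter] at hl ⊢
    exact ⟨hl.1, hl.2.1, lt_trans hl.2.2 h⟩

theorem Dia.ord_rk_inj (D : Dia I) (hD : D.Ok) (i j k : I) (hj : D.Pas i j) (hk : D.Pas i k)
    (h : D.rk i j = D.rk i k) : j = k := by
  refine hD.inj i j k hj hk ?_
  rcases lt_trichotomy (D.pos i j) (D.pos i k) with h1 | h1 | h1
  · exact absurd h (D.ord_rk_lt i j k hj h1).ne
  · exact h1
  · exact absurd h.symm (D.ord_rk_lt i k j hk h1).ne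

theorem Dia.ord_rk_ofNat (D : Dia I) (i j k : I) (l : I)
    (h : Fin.ofNat (Fintype.card I + 1) (D.rk i j) = Fin.ofNat (Fintype.card I + 1) (D.rk k l)) :
    D.rk i j = D.rk k l := by
  have h1 := congrArg Fin.val h
  have h2 : D.rk i j < Fintype.card I + 1 := Nat.lt_succ_of_le (D.ord_rk_le i j)
  have h3 : D.rk k l < Fintype.card I + 1 := Nat.lt_succ_of_le (D.ord_rk_le k l)
  simp only [Fin.ofNat, Nat.mod_eq_of_lt h2, Nat.mod_eq_of_lt h3] at h1
  exact h1

/-- Only the order of the positions counts. -/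
theorem Dia.Z_ord (σ : Equiv.Perm I) (N : ℕ) (D D' : Dia I) (hC : D'.C = D.C) (hth : D'.th = D.th)
    (hep : ∀ i j, (i, j) ∈ D.C → D'.ep i j = D.ep i j) (hb : ∀ i j, (i, j) ∈ D.C → D'.b i j = D.b i j)
    (hpos : ∀ i j k, D.Pas i j → D.Pas i k → (D.pos i j < D.pos i k ↔ D'.pos i j < D'.pos i k)) :
    D'.Z σ N = D.Z σ N := by
  classical
  have hPas : ∀ i j, D'.Pas i j ↔ D.Pas i j := by
    intro i j
    unfold Dia.Pas
    rw [hC]
  have hrk : ∀ i j, D.Pas i j → D'.rk i j = D.rk i j := by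
    intro i j hij
    unfold Dia.rk
    congr 1
    refine Finset.filter_congr fun k _ => ?_
    rw [hPas]
    constructor
    · rintro ⟨h1, h2⟩
      exact ⟨h1, (hpos i k j h1 hij).mpr h2⟩
    · rintro ⟨h1, h2⟩
      exact ⟨h1, (hpos i k j h1 hij).mp h2⟩
  unfold Dia.Z Dia.ZM
  rw [hC]
  refine ord_congr_data N _ _ _ D.C _ _ _ _ _ _ _ _ ?_ ?_ ?_ ?_ ?_
  · rw [hth]
  · intro x hx
    rw [hrk x.1 x.2 (Or.inl hx)]
  · intro x hx
    rw [hrk x.2 x.1 (Or.inr hx)]
  · intro x hx
    exact hep x.1 x.2 hx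
  · intro x hx
    exact hb x.1 x.2 hx

/-- Gauge transformation: rotate the edge `i` by `h i`. -/
theorem Dia.Z_gauge (σ : Equiv.Perm I) (N : ℕ) (D D' : Dia I) (hD : D.Ok) (h : I → ℝ) (hC : D'.C = D.C)
    (hp : D'.pos = D.pos) (hth : ∀ i, D'.th i = D.th i + h (σ i) - h i)
    (hep : ∀ i j, (i, j) ∈ D.C → D'.ep i j = D.ep i j)
    (hb : ∀ i j, (i, j) ∈ D.C → D'.b i j = D.b i j + h j - h i) : D'.Z σ N = D.Z σ N := by
  classical
  have hPas : ∀ i j, D'.Pas i j ↔ D.Pas i j := by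
    intro i j
    unfold Dia.Pas
    rw [hC]
  have hrk : D'.rk = D.rk := by
    funext i j
    unfold Dia.rk
    congr 1
    refine Finset.filter_congr fun k _ => ?_
    rw [hPas, hp]
  unfold Dia.Z Dia.ZM
  rw [hC, hrk]
  set M := Fintype.card I with hM
  have e1 : netZ N (gnx σ M) (fun j => if j.2 = 0 then D'.th (σ.symm j.1) else 0) D.C
      (fun x => (x.1, Fin.ofNat (M + 1) (D.rk x.1 x.2))) (fun x => (x.2, Fin.ofNat (M + 1) (D.rk x.2 x.1)))
      (fun x => D'.ep x.1 x.2) (fun x => D'.b x.1 x.2)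
    = netZ N (gnx σ M) (fun j => if j.2 = 0 then D'.th (σ.symm j.1) else 0) D.C
      (fun x => (x.1, Fin.ofNat (M + 1) (D.rk x.1 x.2))) (fun x => (x.2, Fin.ofNat (M + 1) (D.rk x.2 x.1)))
      (fun x => D.ep x.1 x.2) (fun x => D'.b x.1 x.2) :=
    ord_congr_data N _ _ _ D.C _ _ _ _ _ _ _ _ rfl (fun _ _ => rfl) (fun _ _ => rfl)
      (fun x hx => hep x.1 x.2 hx) (fun _ _ => rfl)
  rw [e1]
  refine ord_gauge N (gnx σ M) (gnx_injective σ M) _ _ (fun j => h j.1) ?_ D.C _ _ _ _ _ ?_ ?_ ?_ ?_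
  · rintro ⟨i, a⟩
    unfold gnx
    by_cases ha : a.val + 1 < M + 1
    · rw [dif_pos ha]
      have h0 : (⟨a.val + 1, ha⟩ : Fin (M + 1)) ≠ 0 := by
        intro h1
        have h2 := congrArg Fin.val h1
        simp at h2
      simp only [if_neg h0]
      ring
    · rw [dif_neg ha]
      simp only [if_true]
      rw [hth (σ.symm (σ i)), Equiv.symm_apply_apply]
  · intro x hx
    exact hb x.1 x.2 hx
  · intro x hx y hy hxy
    have h1 := congrArg Prod.fst hxy
    have h2 := congrArg Prod.snd hxy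
    simp only at h1 h2
    have h3 := D.ord_rk_ofNat _ _ _ _ h2
    rw [← h1] at h3
    have h4 := D.ord_rk_inj hD x.1 x.2 y.2 (Or.inl hx) (Or.inl (by rw [h1]; exact hy)) h3
    exact Prod.ext h1 h4
  · intro x hx y hy hxy
    have h1 := congrArg Prod.fst hxy
    have h2 := congrArg Prod.snd hxy
    simp only at h1 h2
    have h3 := D.ord_rk_ofNat _ _ _ _ h2
    rw [← h1] at h3
    have h4 := D.ord_rk_inj hD x.2 x.1 y.1 (Or.inr hx) (Or.inr (by rw [h1]; exact hy)) h3
    exact Prod.ext h4 h1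
  · intro x hx y hy hxy
    have h1 := congrArg Prod.fst hxy
    have h2 := congrArg Prod.snd hxy
    simp only at h1 h2
    have h3 := D.ord_rk_ofNat _ _ _ _ h2
    rw [← h1] at h3
    have h4 := D.ord_rk_inj hD x.1 x.2 y.1 (Or.inl hx) (Or.inr (by rw [h1]; exact hy)) h3
    refine hD.asym x.1 x.2 hx ?_
    rw [h4, h1]
    exact hy

/-- The turning can be moved over an edge without crossings. -/
theorem Dia.Z_free (σ : Equiv.Perm I) (N : ℕ) (D D' : Dia I) (hD : D.Ok) (i : I) (hi : σ i ≠ i)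
    (hfree : ∀ l, ¬ D.Pas (σ i) l) (hC : D'.C = D.C) (hp : D'.pos = D.pos) (hep : D'.ep = D.ep)
    (hb : D'.b = D.b) (hth : ∀ a, a ≠ i → a ≠ σ i → D'.th a = D.th a)
    (hsum : D'.th i + D'.th (σ i) = D.th i + D.th (σ i)) : D'.Z σ N = D.Z σ N := by
  classical
  have hPas : ∀ i j, D'.Pas i j ↔ D.Pas i j := by
    intro i j
    unfold Dia.Pas
    rw [hC]
  have hrk : D'.rk = D.rk := by
    funext i j
    unfold Dia.rk
    congr 1
    refine Finset.filter_congr fun k _ => ?_
    rw [hPas, hp]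
  unfold Dia.Z Dia.ZM
  rw [hC, hrk, hep, hb]
  set M := Fintype.card I with hM
  refine ord_congr_state N (gnx σ M) _ _ D.C _ _ _ _ _ ?_
  intro s hs
  congr 1
  have h2p : (0 : ℝ) < 2 := by norm_num
  -- the label is constant along the edge
  have hemp : ∀ a : Fin (M + 1), s (gnx σ M (σ i, a)) = s (σ i, a) := by
    intro a
    refine hs (σ i, a) fun x hx => ⟨fun h => ?_, fun h => ?_⟩
    · have h1 := congrArg Prod.fst h
      simp only at h1
      exact hfree x.2 (Or.inl (by rw [← h1]; exact hx))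
    · have h1 := congrArg Prod.fst h
      simp only at h1
      exact hfree x.1 (Or.inr (by rw [← h1]; exact hx))
  have hconst : ∀ a : ℕ, ∀ ha : a < M + 1, s (σ i, ⟨a, ha⟩) = s (σ i, 0) := by
    intro a
    induction a with
    | zero => intro ha; rfl
    | succ a ih =>
      intro ha
      have h1 := hemp ⟨a, by omega⟩
      unfold gnx at h1
      rw [dif_pos (by simpa using ha)] at h1
      rw [ih (by omega)] at h1
      exact h1
  have hend : s (σ (σ i), 0) = s (σ i, 0) := by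
    have h1 := hemp ⟨M, by omega⟩
    unfold gnx at h1
    rw [dif_neg (by simp)] at h1
    rw [hconst M (by omega)] at h1
    exact h1
  -- two factors
  have hne : ((σ i, 0) : I × Fin (M + 1)) ≠ (σ (σ i), 0) := by
    intro h
    have h1 := congrArg Prod.fst h
    simp only at h1
    exact hi (σ.injective h1).symm
  have key : ∀ g : I × Fin (M + 1) → ℝ, (∏ j, (2 : ℝ) ^ (kap N (s j) * g j))
      = (2 : ℝ) ^ (kap N (s (σ i, 0)) * (g (σ i, 0) + g (σ (σ i), 0))) *
        ∏ j ∈ (univ.erase (σ i, 0)).erase (σ (σ i), 0), (2 : ℝ) ^ (kap N (s j) * g j) := by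
    intro g
    rw [← Finset.mul_prod_erase univ _ (Finset.mem_univ ((σ i, 0) : I × Fin (M + 1))),
      ← Finset.mul_prod_erase (univ.erase ((σ i, 0) : I × Fin (M + 1))) _
        (a := (σ (σ i), 0)) (by
          rw [Finset.mem_erase]
          exact ⟨hne.symm, Finset.mem_univ _⟩), ← mul_assoc, ← Real.rpow_add h2p, hend]
    congr 2
    ring
  rw [key, key]
  congr 1
  · congr 1
    congr 1
    simp only [if_true, Equiv.symm_apply_apply]
    exact hsum
  · refine Finset.prod_congr rfl fun j hj => ?_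
    rw [Finset.mem_erase, Finset.mem_erase] at hj
    obtain ⟨hj1, hj2, _⟩ := hj
    congr 2
    by_cases h0 : j.2 = 0
    · rw [if_pos h0, if_pos h0]
      refine hth _ ?_ ?_
      · intro h1
        refine hj2 (Prod.ext ?_ h0)
        simp only
        rw [← h1, Equiv.apply_symm_apply]
      · intro h1
        refine hj1 (Prod.ext ?_ h0)
        simp only
        rw [← h1, Equiv.apply_symm_apply]
    · rw [if_neg h0, if_neg h0]

end Pool.Agent.Lib.MP_ca0971_gt.OT
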