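import Pool.Agent.Lib.MP_ca0971_gt.OT.Net.Word
import Pool.Agent.Lib.MP_ca0971_gt.OT.Net.Ord
import Pool.Agent.Lib.MP_ca0971_gt.OT.Net.Clps

/-! # Project OT, part A: hlf, Dia.Z_ins -/

set_option autoImplicit false

namespace Pool.Agent.Lib.MP_ca0971_gt.OT

open Finset

variable {I : Type} [Fintype I] [DecidableEq I]

/-- Passages of the edge `x` of `Option I` (the edge `i0` is cut at the position `τ`). -/
def hlf (D : Dia I) (i0 : I) (τ : ℝ) (x : Option I) (l : I) : Prop :=
  (x = some i0 → D.pos i0 l < τ) ∧ (x = none → τ < D.pos i0 l)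

open Classical in
/-- the copy of the edge `c` which meets the edge `a` -/
private noncomputable def cpy (D : Dia I) (i0 : I) (τ : ℝ) (a c : I) : Option I :=
  if c = i0 then (if D.pos i0 a < τ then some i0 else none) else some c

omit [Fintype I] in
private theorem cpy_getD (D : Dia I) (i0 : I) (τ : ℝ) (a c : I) : (cpy D i0 τ a c).getD i0 = c := by
  unfold cpy
  split_ifs with h1 h2
  · rw [h1]; rfl
  · rw [h1]; rfl
  · rfl

omit [Fintype I] in
private theorem cpy_ne (D : Dia I) (i0 : I) (τ : ℝ) (a c : I) (h : c ≠ i0) :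
    cpy D i0 τ a c = some c := by
  unfold cpy
  rw [if_neg h]

omit [Fintype I] in
private theorem cpy_lt (D : Dia I) (i0 : I) (τ : ℝ) (a : I) (h : D.pos i0 a < τ) :
    cpy D i0 τ a i0 = some i0 := by
  unfold cpy
  rw [if_pos rfl, if_pos h]

omit [Fintype I] in
private theorem cpy_ge (D : Dia I) (i0 : I) (τ : ℝ) (a : I) (h : ¬ D.pos i0 a < τ) :
    cpy D i0 τ a i0 = none := by
  unfold cpy
  rw [if_pos rfl, if_neg h]

omit [Fintype I] in
private theorem cpy_hlf (D : Dia I) (i0 : I) (τ : ℝ) (a c : I) (hac : D.Pas c a)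
    (hcut : ∀ l, D.Pas i0 l → D.pos i0 l ≠ τ) : hlf D i0 τ (cpy D i0 τ a c) a := by
  classical
  by_cases h1 : c = i0
  · subst h1
    by_cases h2 : D.pos c a < τ
    · rw [cpy_lt D c τ a h2]
      exact ⟨fun _ => h2, fun h => absurd h (by simp)⟩
    · rw [cpy_ge D c τ a h2]
      exact ⟨fun h => absurd h (by simp), fun _ => lt_of_le_of_ne (not_lt.mp h2) (hcut a hac).symm⟩
  · rw [cpy_ne D i0 τ a c h1]
    exact ⟨fun h => absurd (Option.some.inj h) h1, fun h => absurd h (by simp)⟩

omit [Fintype I] in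
private theorem cpy_uniq (D : Dia I) (i0 : I) (τ : ℝ) (a : I) (x : Option I)
    (hx : hlf D i0 τ x a) : x = cpy D i0 τ a (x.getD i0) := by
  classical
  cases x with
  | none =>
    have h1 : τ < D.pos i0 a := hx.2 rfl
    change none = cpy D i0 τ a i0
    rw [cpy_ge D i0 τ a (not_lt.mpr h1.le)]
  | some c =>
    change some c = cpy D i0 τ a c
    by_cases h1 : c = i0
    · subst h1
      rw [cpy_lt D c τ a (hx.1 rfl)]
    · rw [cpy_ne D i0 τ a c h1]

omit [Fintype I] in
private theorem insS_i0 (σ : Equiv.Perm I) (i0 : I) : insS σ i0 (some i0) = none := by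
  simp [insS, Equiv.optionCongr_apply]

omit [Fintype I] in
private theorem insS_none (σ : Equiv.Perm I) (i0 : I) : insS σ i0 none = some (σ i0) := by
  simp [insS, Equiv.optionCongr_apply]

omit [Fintype I] in
private theorem insS_some (σ : Equiv.Perm I) (i0 i : I) (h : i ≠ i0) :
    insS σ i0 (some i) = some (σ i) := by
  simp only [insS, Equiv.Perm.mul_apply, Equiv.optionCongr_apply, Option.map_some]
  rw [Equiv.swap_apply_of_ne_of_ne]
  · simp
  · intro h1
    exact h (σ.injective (Option.some.inj h1))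

/-- Insertion of a straight vertex on the edge `i0`. -/
theorem Dia.Z_ins (σ : Equiv.Perm I) (N : ℕ) (D : Dia I) (D' : Dia (Option I)) (hD : D.Ok) (i0 : I)
    (τ : ℝ) (hC : ∀ x y : Option I, (x, y) ∈ D'.C ↔ (x.getD i0, y.getD i0) ∈ D.C ∧
      hlf D i0 τ x (y.getD i0) ∧ hlf D i0 τ y (x.getD i0))
    (hcut : ∀ l, D.Pas i0 l → D.pos i0 l ≠ τ)
    (hp : ∀ x y z : Option I, D'.Pas x y → D'.Pas x z →
      (D'.pos x y < D'.pos x z ↔ D.pos (x.getD i0) (y.getD i0) < D.pos (x.getD i0) (z.getD i0)))
    (hep : ∀ x y : Option I, (x, y) ∈ D'.C → D'.ep x y = D.ep (x.getD i0) (y.getD i0))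
    (hb : ∀ x y : Option I, (x, y) ∈ D'.C → D'.b x y = D.b (x.getD i0) (y.getD i0))
    (hth1 : D'.th (some i0) = 0) (hth2 : D'.th none = D.th i0)
    (hth3 : ∀ a, a ≠ i0 → D'.th (some a) = D.th a) :
    D'.Z (insS σ i0) N = D.Z σ N ∧ D'.w = D.w := by
  classical
  -- the crossings of the new diagram
  set φ : I × I → Option I × Option I := fun x => (cpy D i0 τ x.2 x.1, cpy D i0 τ x.1 x.2) with hφ
  have hφC : ∀ i j, (i, j) ∈ D.C → (cpy D i0 τ j i, cpy D i0 τ i j) ∈ D'.C := by
    intro i j hij
    rw [hC, cpy_getD, cpy_getD]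
    exact ⟨hij, cpy_hlf D i0 τ j i (Or.inl hij) hcut, cpy_hlf D i0 τ i j (Or.inr hij) hcut⟩
  have hφi : ∀ x ∈ D.C, ∀ y ∈ D.C, φ x = φ y → x = y := by
    rintro ⟨i, j⟩ _ ⟨k, l⟩ _ h
    have h1 := congrArg (fun z => Option.getD z.1 i0) h
    have h2 := congrArg (fun z => Option.getD z.2 i0) h
    simp only [hφ, cpy_getD] at h1 h2
    exact Prod.ext h1 h2
  have himg : D'.C = D.C.image φ := by
    ext ⟨x, y⟩
    rw [Finset.mem_image]
    constructor
    · intro h
      have h1 := (hC x y).mp h
      refine ⟨(x.getD i0, y.getD i0), h1.1, ?_⟩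
      simp only [hφ]
      rw [← cpy_uniq D i0 τ (y.getD i0) x h1.2.1, ← cpy_uniq D i0 τ (x.getD i0) y h1.2.2]
    · rintro ⟨⟨i, j⟩, h1, h2⟩
      rw [← h2]
      exact hφC i j h1
  have hPas : ∀ i j, D.Pas i j → D'.Pas (cpy D i0 τ j i) (cpy D i0 τ i j) := by
    intro i j h
    rcases h with h | h
    · exact Or.inl (hφC i j h)
    · exact Or.inr (hφC j i h)
  -- the pieces
  set M' := Fintype.card (Option I) with hM'
  set of' : Option I → ℕ := fun x => x.elim (M' + 1) (fun _ => 0) with hof
  have hof_some : ∀ a : I, of' (some a) = 0 := fun a => rfl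
  have hof_none : of' none = M' + 1 := rfl
  set k : I → I → ℕ := fun i j => of' (cpy D i0 τ j i) + D'.rk (cpy D i0 τ j i) (cpy D i0 τ i j) with hk
  have hofle : ∀ x, of' x ≤ M' + 1 := by
    intro x
    cases x with
    | none => exact le_rfl
    | some a => exact Nat.zero_le _
  have hkv : D.Val (2 * M' + 1) k := by
    refine ⟨?_, ?_⟩
    · intro i j _
      have h1 := D'.ord_rk_le (cpy D i0 τ j i) (cpy D i0 τ i j)
      have h2 := hofle (cpy D i0 τ j i)
      simp only [hk]
      omega
    · intro i j l hij hil hlt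
      have key : cpy D i0 τ j i = cpy D i0 τ l i → k i j < k i l := by
        intro he
        simp only [hk]
        rw [← he]
        have h1 := hPas i j hij
        have h2 := hPas i l hil
        rw [← he] at h2
        have h3 : D'.pos (cpy D i0 τ j i) (cpy D i0 τ i j) < D'.pos (cpy D i0 τ j i) (cpy D i0 τ i l) := by
          rw [hp _ _ _ h1 h2, cpy_getD, cpy_getD, cpy_getD]
          exact hlt
        have h4 := D'.ord_rk_lt _ _ _ h1 h3
        omega
      by_cases h1 : i = i0
      · subst h1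
        by_cases h2 : D.pos i j < τ
        · by_cases h3 : D.pos i l < τ
          · refine key ?_
            rw [cpy_lt D i τ j h2, cpy_lt D i τ l h3]
          · simp only [hk]
            rw [cpy_lt D i τ j h2, cpy_ge D i τ l h3, hof_some, hof_none]
            have h4 := D'.ord_rk_le (some i) (cpy D i τ i j)
            omega
        · have h3 : ¬ D.pos i l < τ := by
            intro h4
            exact h2 (lt_trans hlt h4)
          refine key ?_
          rw [cpy_ge D i τ j h2, cpy_ge D i τ l h3]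
      · refine key ?_
        rw [cpy_ne D i0 τ j i h1, cpy_ne D i0 τ l i h1]
  refine ⟨?_, ?_⟩
  · rw [← Dia.ZM_eq σ N (2 * M' + 1) D hD k hkv]
    unfold Dia.Z Dia.ZM
    rw [himg, clps_image N _ _ D.C φ hφi]
    symm
    have hlast : ∀ i : I, ∀ a : Fin (2 * M' + 1 + 1), M' < a.val → ¬ a.val - (M' + 1) ≥ M' + 1 := by
      intro i a ha
      have := a.isLt
      omega
    -- inclusion and retraction
    set ι : Option I × Fin (M' + 1) → I × Fin (2 * M' + 1 + 1) := fun x =>
      (x.1.getD i0, ⟨of' x.1 + x.2.val, by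
        have h1 := hofle x.1
        have h2 := x.2.isLt
        omega⟩) with hι
    set r : I × Fin (2 * M' + 1 + 1) → Option I × Fin (M' + 1) := fun x =>
      if h : x.2.val < M' + 1 then (some x.1, ⟨x.2.val, h⟩)
      else if x.1 = i0 then (none, ⟨x.2.val - (M' + 1), by have := x.2.isLt; omega⟩)
      else (some (σ x.1), 0) with hr
    set m : I × Fin (2 * M' + 1 + 1) → ℕ := fun x =>
      if x.2.val < M' + 1 then 0 else 2 * M' + 2 - x.2.val with hm
    have hr_lt : ∀ (i : I) (a : ℕ) (ha : a < 2 * M' + 1 + 1) (h : a < M' + 1),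
        r (i, ⟨a, ha⟩) = (some i, ⟨a, h⟩) := by
      intro i a ha h
      simp only [hr]
      rw [dif_pos h]
    have hr_i0 : ∀ (a : ℕ) (ha : a < 2 * M' + 1 + 1) (h : ¬ a < M' + 1),
        r (i0, ⟨a, ha⟩) = (none, ⟨a - (M' + 1), by omega⟩) := by
      intro a ha h
      simp only [hr]
      rw [dif_neg h, if_pos trivial]
    have hr_ne : ∀ (i : I) (a : ℕ) (ha : a < 2 * M' + 1 + 1) (h : ¬ a < M' + 1), i ≠ i0 →
        r (i, ⟨a, ha⟩) = (some (σ i), 0) := by
      intro i a ha h hi
      simp only [hr]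
      rw [dif_neg h, if_neg hi]
    have hrem : ∀ (i : I) (a : ℕ) (ha : a < 2 * M' + 1 + 1), (∀ j', ι j' ≠ (i, ⟨a, ha⟩)) →
        ¬ a < M' + 1 ∧ i ≠ i0 := by
      intro i a ha h
      refine ⟨fun h1 => h (some i, ⟨a, h1⟩) ?_, fun h1 => ?_⟩
      · simp only [hι, Option.getD_some, hof_some]
        congr 2
        omega
      · by_cases h2 : a < M' + 1
        · refine h (some i, ⟨a, h2⟩) ?_
          simp only [hι, Option.getD_some, hof_some]
          congr 2
          omega
        · refine h (none, ⟨a - (M' + 1), by omega⟩) ?_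
          simp only [hι, Option.getD_none, hof_none]
          rw [h1]
          congr 2
          omega
    have gnx_lt : ∀ (i : I) (a : ℕ) (ha : a < 2 * M' + 1 + 1) (h : a + 1 < 2 * M' + 1 + 1),
        gnx σ (2 * M' + 1) (i, ⟨a, ha⟩) = (i, ⟨a + 1, h⟩) := by
      intro i a ha h
      unfold gnx
      rw [dif_pos h]
    have gnx_ge : ∀ (i : I) (a : ℕ) (ha : a < 2 * M' + 1 + 1) (h : ¬ a + 1 < 2 * M' + 1 + 1),
        gnx σ (2 * M' + 1) (i, ⟨a, ha⟩) = (σ i, 0) := by
      intro i a ha h
      unfold gnx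
      rw [dif_neg h]
    have gnx'_lt : ∀ (x : Option I) (a : ℕ) (ha : a < M' + 1) (h : a + 1 < M' + 1),
        gnx (insS σ i0) M' (x, ⟨a, ha⟩) = (x, ⟨a + 1, h⟩) := by
      intro i a ha h
      unfold gnx
      rw [dif_pos h]
    have gnx'_ge : ∀ (x : Option I) (a : ℕ) (ha : a < M' + 1) (h : ¬ a + 1 < M' + 1),
        gnx (insS σ i0) M' (x, ⟨a, ha⟩) = (insS σ i0 x, 0) := by
      intro i a ha h
      unfold gnx
      rw [dif_neg h]
    have hofNat : ∀ (x y : Option I), Fin.ofNat (M' + 1) (D'.rk x y)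
        = ⟨D'.rk x y, Nat.lt_succ_of_le (D'.ord_rk_le x y)⟩ := by
      intro x y
      refine Fin.ext ?_
      exact Nat.mod_eq_of_lt (Nat.lt_succ_of_le (D'.ord_rk_le x y))
    have hpass : ∀ i j : I, ι (cpy D i0 τ j i, Fin.ofNat (M' + 1) (D'.rk (cpy D i0 τ j i) (cpy D i0 τ i j)))
        = (i, Fin.ofNat (2 * M' + 1 + 1) (k i j)) := by
      intro i j
      rw [hofNat]
      simp only [hι, cpy_getD]
      congr 1
      refine Fin.ext ?_
      change _ = k i j % (2 * M' + 1 + 1)
      have h1 := D'.ord_rk_le (cpy D i0 τ j i) (cpy D i0 τ i j)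
      have h2 := hofle (cpy D i0 τ j i)
      rw [Nat.mod_eq_of_lt (by simp only [hk]; omega)]
    refine (clps_net N (gnx σ (2 * M' + 1)) (gnx (insS σ i0) M') ι r m ?_ ?_ ?_ _
      (fun j => if j.2 = 0 then D'.th ((insS σ i0).symm j.1) else 0) ?_ ?_ D.C _ _
      (fun x => ((φ x).1, Fin.ofNat (M' + 1) (D'.rk (φ x).1 (φ x).2)))
      (fun x => ((φ x).2, Fin.ofNat (M' + 1) (D'.rk (φ x).2 (φ x).1))) _ _ ?_ ?_).trans ?_
    · -- r ∘ ι
      rintro ⟨x, a, ha⟩
      cases x with
      | none =>
        simp only [hι, Option.getD_none, hof_none]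
        rw [hr_i0 _ _ (by omega)]
        congr 2
        omega
      | some i =>
        simp only [hι, Option.getD_some, hof_some]
        rw [hr_lt _ _ _ (by omega)]
        congr 2
        omega
    · rintro ⟨i, a, ha⟩ hj
      obtain ⟨h1, h2⟩ := hrem i a ha hj
      by_cases h3 : a + 1 < 2 * M' + 1 + 1
      · rw [gnx_lt i a ha h3, hr_ne i a ha h1 h2, hr_ne i (a + 1) h3 (by omega) h2]
        refine ⟨?_, rfl⟩
        simp only [hm]
        rw [if_neg (by omega), if_neg h1]
        omega
      · rw [gnx_ge i a ha h3, hr_ne i a ha h1 h2]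
        refine ⟨?_, ?_⟩
        · simp only [hm]
          rw [if_pos (by simp), if_neg h1]
          omega
        · have h4 := hr_lt (σ i) 0 (by omega) (by omega)
          exact h4.symm
    · rintro ⟨x, a, ha⟩
      cases x with
      | none =>
        simp only [hι, Option.getD_none, hof_none]
        by_cases h1 : a + 1 < M' + 1
        · rw [gnx'_lt _ a ha h1, gnx_lt _ _ _ (by omega), hr_i0 _ _ (by omega)]
          congr 2
          omega
        · rw [gnx'_ge _ a ha h1, gnx_ge _ _ _ (by omega), insS_none]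
          exact (hr_lt (σ i0) 0 (by omega) (by omega)).symm
      | some i =>
        simp only [hι, Option.getD_some, hof_some]
        rw [gnx_lt _ _ _ (by omega)]
        by_cases h1 : a + 1 < M' + 1
        · rw [gnx'_lt _ a ha h1, hr_lt _ _ _ (by omega)]
          congr 2
          omega
        · rw [gnx'_ge _ a ha h1]
          by_cases h2 : i = i0
          · subst h2
            rw [insS_i0, hr_i0 _ _ (by omega)]
            congr 1
            refine Fin.ext ?_
            change 0 = _ - _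
            omega
          · rw [insS_some σ i0 i h2, hr_ne _ _ _ (by omega) h2]
    · -- turnings
      rintro ⟨x, a, ha⟩
      change (if (⟨a, ha⟩ : Fin (M' + 1)) = 0 then D'.th ((insS σ i0).symm x) else 0) = _
      cases x with
      | none =>
        have h1 : (insS σ i0).symm none = some i0 := by
          rw [Equiv.symm_apply_eq, insS_i0]
        rw [h1, hth1, ite_self]
        simp only [hι, hof_none]
        rw [if_neg]
        intro h2
        have h3 := congrArg Fin.val h2
        simp at h3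
      | some i =>
        have h1 : D'.th ((insS σ i0).symm (some i)) = D.th (σ.symm i) := by
          by_cases h2 : σ.symm i = i0
          · have h3 : (insS σ i0).symm (some i) = none := by
              rw [Equiv.symm_apply_eq, insS_none, ← h2, Equiv.apply_symm_apply]
            rw [h3, hth2, h2]
          · have h3 : (insS σ i0).symm (some i) = some (σ.symm i) := by
              rw [Equiv.symm_apply_eq, insS_some σ i0 _ h2, Equiv.apply_symm_apply]
            rw [h3, hth3 _ h2]
        rw [h1]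
        simp only [hι, Option.getD_some, hof_some]
        refine if_congr ?_ rfl rfl
        rw [Fin.ext_iff, Fin.ext_iff]
        simp
    · rintro ⟨i, a, ha⟩ hj
      obtain ⟨h1, h2⟩ := hrem i a ha hj
      change (if (⟨a, ha⟩ : Fin (2 * M' + 1 + 1)) = 0 then D.th (σ.symm i) else 0) = 0
      rw [if_neg]
      intro h3
      have h4 := congrArg Fin.val h3
      simp at h4
      omega
    · rintro ⟨i, j⟩ _
      exact hpass i j
    · rintro ⟨i, j⟩ _
      exact hpass j i
    · refine ord_congr_data N _ _ _ D.C _ _ _ _ _ _ _ _ rfl ?_ ?_ ?_ ?_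
      · intro x hx
        rfl
      · intro x hx
        rfl
      · rintro ⟨i, j⟩ hx
        simp only [hφ]
        rw [hep _ _ (hφC i j hx), cpy_getD, cpy_getD]
      · rintro ⟨i, j⟩ hx
        simp only [hφ]
        rw [hb _ _ (hφC i j hx), cpy_getD, cpy_getD]
  · unfold Dia.w
    rw [himg, Finset.sum_image (by
      intro x hx y hy hxy
      exact hφi x hx y hy hxy)]
    refine Finset.sum_congr rfl fun x hx => ?_
    obtain ⟨i, j⟩ := x
    simp only [hφ]
    rw [hep _ _ (hφC i j hx), cpy_getD, cpy_getD]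

end Pool.Agent.Lib.MP_ca0971_gt.OT
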