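import Pool.Agent.Lib.MP_ca0971_gt.OT.Net.Loc3c

/-!
# Project OT, part A: local identity of R3, all cases (helper67)
-/

set_option autoImplicit false

namespace Pool.Agent.Lib.MP_ca0971_gt.OT

open Finset

variable {N : ℕ}

/-- the local sum of an R3 configuration, in the orders given by `tt mm bb` -/
noncomputable def T3 (tt mm bb : Bool) (e12 a12 e13 a13 e23 a23 : ℝ) (a b c a' b' c' : Fin N) : ℝ :=
  ∑ x, ∑ y, ∑ z,
    Tw N e12 a12 (cond tt a x) (cond mm b y) (cond tt x a') (cond mm y b')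
    * Tw N e13 a13 (cond tt x a) (cond bb c z) (cond tt a' x) (cond bb z c')
    * Tw N e23 a23 (cond mm y b) (cond bb z c) (cond mm b' y) (cond bb c' z)

theorem T3_gauge (tt mm bb : Bool) (e12 a12 e13 a13 e23 a23 : ℝ) (a b c a' b' c' : Fin N) :
    T3 tt mm bb e12 a12 e13 a13 e23 a23 a b c a' b' c'
      = (2 : ℝ) ^ ((kap N b' - kap N b) * a12 + (kap N c' - kap N c) * (a12 + a23))
        * T3 tt mm bb e12 0 e13 (a13 - a12 - a23) e23 0 a b c a' b' c' := by
  unfold T3
  simp only [Finset.mul_sum]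
  refine Finset.sum_congr rfl fun x _ => Finset.sum_congr rfl fun y _ =>
    Finset.sum_congr rfl fun z _ => ?_
  have g12 : ∀ o u o' u' : Fin N, Tw N e12 a12 o u o' u'
      = (2 : ℝ) ^ ((kap N u' - kap N u) * a12) * Tw N e12 0 o u o' u' := by
    intro o u o' u'
    have := Tw_under e12 0 a12 o u o' u'
    rwa [zero_add] at this
  have g13 : ∀ o u o' u' : Fin N, Tw N e13 a13 o u o' u'
      = (2 : ℝ) ^ ((kap N u' - kap N u) * (a12 + a23)) * Tw N e13 (a13 - a12 - a23) o u o' u' := by
    intro o u o' u'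
    have := Tw_under e13 (a13 - a12 - a23) (a12 + a23) o u o' u'
    rwa [show a13 - a12 - a23 + (a12 + a23) = a13 by ring] at this
  have g23 : ∀ o u o' u' : Fin N, Tw N e23 a23 o u o' u'
      = (2 : ℝ) ^ ((kap N o' - kap N o) * a12 + (kap N u' - kap N u) * (a12 + a23))
        * Tw N e23 0 o u o' u' := by
    intro o u o' u'
    have h1 := Tw_under e23 0 (a12 + a23) o u o' u'
    have h2 := Tw_over e23 (0 + (a12 + a23)) (-a12) o u o' u'
    rw [show 0 + (a12 + a23) + -a12 = a23 by ring, h1, ← mul_assoc, ← two_rpow_add] at h2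
    rw [h2]; congr 2; ring
  rw [g12, g13, g23]
  have key : (2 : ℝ) ^ ((kap N (cond mm y b') - kap N (cond mm b y)) * a12)
      * (2 : ℝ) ^ ((kap N (cond bb z c') - kap N (cond bb c z)) * (a12 + a23))
      * (2 : ℝ) ^ ((kap N (cond mm b' y) - kap N (cond mm y b)) * a12
          + (kap N (cond bb c' z) - kap N (cond bb z c)) * (a12 + a23))
      = (2 : ℝ) ^ ((kap N b' - kap N b) * a12 + (kap N c' - kap N c) * (a12 + a23)) := by
    rw [← two_rpow_add, ← two_rpow_add]
    congr 1
    cases mm <;> cases bb <;> simp only [cond_true, cond_false] <;> ring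
  rw [← key]; ring

theorem sum_yzx (F : Fin N → Fin N → Fin N → ℝ) :
    ∑ y, ∑ z, ∑ x, F x y z = ∑ x, ∑ y, ∑ z, F x y z := by
  symm
  rw [Finset.sum_comm]
  refine Finset.sum_congr rfl fun y _ => ?_
  rw [Finset.sum_comm]

theorem sum_xzy (F : Fin N → Fin N → Fin N → ℝ) :
    ∑ x, ∑ z, ∑ y, F x y z = ∑ x, ∑ y, ∑ z, F x y z := by
  refine Finset.sum_congr rfl fun y _ => ?_
  rw [Finset.sum_comm]

theorem T3_ttt (e : ℝ) (hs : e = 1 ∨ e = -1) (a b c a' b' c' : Fin N) :
    T3 true true true e 0 e 0 e 0 a b c a' b' c'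
      = T3 false false false e 0 e 0 e 0 a b c a' b' c' := by
  have h := yb_ttt e hs a b c a' b' c'
  simp only [Finset.mul_sum] at h
  rw [sum_yzx (fun x y z => Tw N e 0 b c y z * (Tw N e 0 a z x c' * Tw N e 0 x y a' b'))] at h
  unfold T3
  simp only [cond_true, cond_false]
  rw [Finset.sum_congr rfl fun x _ => Finset.sum_congr rfl fun y _ =>
    Finset.sum_congr rfl fun z _ => mul_assoc _ _ _, h]
  refine Finset.sum_congr rfl fun x _ => Finset.sum_congr rfl fun y _ =>
    Finset.sum_congr rfl fun z _ => by ring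

theorem T3_tff (e : ℝ) (hs : e = 1 ∨ e = -1) (a b c a' b' c' : Fin N) :
    T3 true false false e 0 e 0 (-e) 0 a b c a' b' c'
      = T3 false true true e 0 e 0 (-e) 0 a b c a' b' c' := by
  have h := yb_tff e hs a b c a' b' c'
  simp only [Finset.mul_sum] at h
  rw [sum_yzx (fun x y z => Tw N (-e) 0 b c y z * (Tw N e 0 a y x b' * Tw N e 0 x z a' c')),
    sum_xzy (fun x y z => Tw N e 0 a c x z * (Tw N e 0 x b a' y * Tw N (-e) 0 y z b' c'))] at h
  unfold T3
  simp only [cond_true, cond_false]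
  rw [Finset.sum_congr rfl fun x _ => Finset.sum_congr rfl fun y _ =>
    Finset.sum_congr rfl fun z _ => mul_comm _ _, h]
  refine Finset.sum_congr rfl fun x _ => Finset.sum_congr rfl fun y _ =>
    Finset.sum_congr rfl fun z _ => by ring

theorem T3_fft (e : ℝ) (hs : e = 1 ∨ e = -1) (a b c a' b' c' : Fin N) :
    T3 false false true (-e) 0 e 0 e 0 a b c a' b' c'
      = T3 true true false (-e) 0 e 0 e 0 a b c a' b' c' := by
  have h := yb_fft e hs a b c a' b' c'
  simp only [Finset.mul_sum] at h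
  rw [sum_xzy (fun x y z => Tw N e 0 a c x z * (Tw N e 0 b z y c' * Tw N (-e) 0 x y a' b'))] at h
  unfold T3
  simp only [cond_true, cond_false]
  have h1 : ∀ x y z, Tw N (-e) 0 x y a' b' * Tw N e 0 a c x z * Tw N e 0 b z y c'
      = Tw N e 0 a c x z * (Tw N e 0 b z y c' * Tw N (-e) 0 x y a' b') := fun _ _ _ => by ring
  simp only [h1]
  rw [h]
  refine Finset.sum_congr rfl fun x _ => Finset.sum_congr rfl fun y _ =>
    Finset.sum_congr rfl fun z _ => by ring

theorem T3_cyc (e : ℝ) (hs : e = 1 ∨ e = -1) (a b c a' b' c' : Fin N) :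
    T3 false true false e 0 (-e) (-e) e 0 a b c a' b' c'
      = T3 true false true e 0 (-e) (-e) e 0 a b c a' b' c' := by
  have h := yb_cyc e hs a b c a' b' c'
  unfold T3
  simp only [cond_true, cond_false]
  rw [← h]
  refine Finset.sum_congr rfl fun x _ => Finset.sum_congr rfl fun y _ =>
    Finset.sum_congr rfl fun z _ => by ring

/-- all cases with `s = -1` -/
theorem T3_base (e12 e13 e23 : ℝ) (h12 : e12 = 1 ∨ e12 = -1) (h13 : e13 = 1 ∨ e13 = -1)
    (h23 : e23 = 1 ∨ e23 = -1) (tt mm bb : Bool) (htt : tt = true ↔ 0 < e12 * e13)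
    (hmm : mm = true ↔ 0 < e12 * e23) (hbb : bb = true ↔ 0 < e13 * e23) (δ : ℝ)
    (hδ : δ = (if e12 = 1 ∧ e23 = 1 ∧ e13 = -1 then -1
      else if e12 = -1 ∧ e23 = -1 ∧ e13 = 1 then 1 else 0)) (a b c a' b' c' : Fin N) :
    T3 tt mm bb e12 0 e13 δ e23 0 a b c a' b' c'
      = T3 (!tt) (!mm) (!bb) e12 0 e13 δ e23 0 a b c a' b' c' := by
  rcases h12 with rfl | rfl <;> rcases h13 with rfl | rfl <;> rcases h23 with rfl | rfl
  · have t1 : tt = true := htt.mpr (by norm_num)
    have t2 : mm = true := hmm.mpr (by norm_num)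
    have t3 : bb = true := hbb.mpr (by norm_num)
    have t4 : δ = 0 := by rw [hδ]; norm_num
    subst t1 t2 t3 t4
    exact T3_ttt 1 (Or.inl rfl) a b c a' b' c'
  · have t1 : tt = true := htt.mpr (by norm_num)
    have t2 : mm = false := by
      rw [← Bool.not_eq_true]; intro h; have := hmm.mp h; norm_num at this
    have t3 : bb = false := by
      rw [← Bool.not_eq_true]; intro h; have := hbb.mp h; norm_num at this
    have t4 : δ = 0 := by rw [hδ]; norm_num
    subst t1 t2 t3 t4
    exact T3_tff 1 (Or.inl rfl) a b c a' b' c'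
  · have t1 : tt = false := by
      rw [← Bool.not_eq_true]; intro h; have := htt.mp h; norm_num at this
    have t2 : mm = true := hmm.mpr (by norm_num)
    have t3 : bb = false := by
      rw [← Bool.not_eq_true]; intro h; have := hbb.mp h; norm_num at this
    have t4 : δ = -1 := by rw [hδ]; norm_num
    subst t1 t2 t3 t4
    exact T3_cyc 1 (Or.inl rfl) a b c a' b' c'
  · have t1 : tt = false := by
      rw [← Bool.not_eq_true]; intro h; have := htt.mp h; norm_num at this
    have t2 : mm = false := by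
      rw [← Bool.not_eq_true]; intro h; have := hmm.mp h; norm_num at this
    have t3 : bb = true := hbb.mpr (by norm_num)
    have t4 : δ = 0 := by rw [hδ]; norm_num
    subst t1 t2 t3 t4
    have := T3_fft (-1) (Or.inr rfl) a b c a' b' c'
    rwa [neg_neg] at this
  · have t1 : tt = false := by
      rw [← Bool.not_eq_true]; intro h; have := htt.mp h; norm_num at this
    have t2 : mm = false := by
      rw [← Bool.not_eq_true]; intro h; have := hmm.mp h; norm_num at this
    have t3 : bb = true := hbb.mpr (by norm_num)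
    have t4 : δ = 0 := by rw [hδ]; norm_num
    subst t1 t2 t3 t4
    exact T3_fft 1 (Or.inl rfl) a b c a' b' c'
  · have t1 : tt = false := by
      rw [← Bool.not_eq_true]; intro h; have := htt.mp h; norm_num at this
    have t2 : mm = true := hmm.mpr (by norm_num)
    have t3 : bb = false := by
      rw [← Bool.not_eq_true]; intro h; have := hbb.mp h; norm_num at this
    have t4 : δ = 1 := by rw [hδ]; norm_num
    subst t1 t2 t3 t4
    have := T3_cyc (-1) (Or.inr rfl) a b c a' b' c'
    rwa [neg_neg] at this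
  · have t1 : tt = true := htt.mpr (by norm_num)
    have t2 : mm = false := by
      rw [← Bool.not_eq_true]; intro h; have := hmm.mp h; norm_num at this
    have t3 : bb = false := by
      rw [← Bool.not_eq_true]; intro h; have := hbb.mp h; norm_num at this
    have t4 : δ = 0 := by rw [hδ]; norm_num
    subst t1 t2 t3 t4
    have := T3_tff (-1) (Or.inr rfl) a b c a' b' c'
    rwa [neg_neg] at this
  · have t1 : tt = true := htt.mpr (by norm_num)
    have t2 : mm = true := hmm.mpr (by norm_num)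
    have t3 : bb = true := hbb.mpr (by norm_num)
    have t4 : δ = 0 := by rw [hδ]; norm_num
    subst t1 t2 t3 t4
    exact T3_ttt (-1) (Or.inr rfl) a b c a' b' c'

/-- the local identity of R3 -/
theorem loc_R3 (e12 a12 e13 a13 e23 a23 s : ℝ) (hs : s = 1 ∨ s = -1)
    (h12 : e12 = 1 ∨ e12 = -1) (h13 : e13 = 1 ∨ e13 = -1) (h23 : e23 = 1 ∨ e23 = -1)
    (tt mm bb : Bool) (htt : tt = true ↔ s * e12 * e13 < 0) (hmm : mm = true ↔ s * e12 * e23 < 0)
    (hbb : bb = true ↔ s * e13 * e23 < 0)
    (hang : a13 = a12 + a23 + (if e12 = 1 ∧ e23 = 1 ∧ e13 = -1 then -1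
      else if e12 = -1 ∧ e23 = -1 ∧ e13 = 1 then 1 else 0)) (a b c a' b' c' : Fin N) :
    T3 tt mm bb e12 a12 e13 a13 e23 a23 a b c a' b' c'
      = T3 (!tt) (!mm) (!bb) e12 a12 e13 a13 e23 a23 a b c a' b' c' := by
  rw [T3_gauge, T3_gauge (!tt)]
  congr 1
  have hδ : a13 - a12 - a23 = (if e12 = 1 ∧ e23 = 1 ∧ e13 = -1 then -1
      else if e12 = -1 ∧ e23 = -1 ∧ e13 = 1 then 1 else 0) := by rw [hang]; ring
  have cv : ∀ p q : ℝ, (p = 1 ∨ p = -1) → (q = 1 ∨ q = -1) → (¬ (p * q < 0) ↔ 0 < p * q) := by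
    intro p q hp hq
    rcases hp with rfl | rfl <;> rcases hq with rfl | rfl <;> norm_num
  rcases hs with rfl | rfl
  · -- use the flipped booleans
    have f : ∀ (w : Bool) (p q : ℝ), (p = 1 ∨ p = -1) → (q = 1 ∨ q = -1) →
        (w = true ↔ 1 * p * q < 0) → ((!w) = true ↔ 0 < p * q) := by
      intro w p q hp hq h
      rw [one_mul] at h
      rw [← cv p q hp hq, ← h]
      cases w <;> simp
    have := T3_base e12 e13 e23 h12 h13 h23 (!tt) (!mm) (!bb) (f tt _ _ h12 h13 htt)
      (f mm _ _ h12 h23 hmm) (f bb _ _ h13 h23 hbb) _ hδ a b c a' b' c'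
    rw [Bool.not_not, Bool.not_not, Bool.not_not] at this
    exact this.symm
  · have f : ∀ (w : Bool) (p q : ℝ), (w = true ↔ -1 * p * q < 0) → (w = true ↔ 0 < p * q) := by
      intro w p q h
      rw [h]
      constructor <;> intro h' <;> linarith
    exact T3_base e12 e13 e23 h12 h13 h23 tt mm bb (f tt _ _ htt)
      (f mm _ _ hmm) (f bb _ _ hbb) _ hδ a b c a' b' c'

end Pool.Agent.Lib.MP_ca0971_gt.OT
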