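import Pool.Agent.Lib.MP_ca0971_gt.OT.Net.MovesA
import Pool.Agent.Lib.MP_ca0971_gt.OT.Net.Loc3T

/-!
# Project OT, part A: R3 for nets

Three strands `t1, t2 = nx t1` (over all), `m1, m2 = nx m1`, `b1, b2 = nx b1` (under all).
`tt = true`: the strand t meets m first, then b. `mm = true`: the strand m meets t first, then b.
`bb = true`: the strand b meets t first, then m.
-/

set_option autoImplicit false

namespace Pool.Agent.Lib.MP_ca0971_gt.OT

open Finset

variable {J : Type} [Fintype J] [DecidableEq J]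

/-- the three crossings of an R3 configuration -/
def triCr (t1 t2 m1 m2 b1 b2 : J) (tt mm bb : Bool) (e12 a12 e13 a13 e23 a23 : ℝ) :
    Multiset (Cr J) :=
  {⟨cond tt t1 t2, cond mm m1 m2, e12, a12⟩, ⟨cond tt t2 t1, cond bb b1 b2, e13, a13⟩,
    ⟨cond mm m2 m1, cond bb b2 b1, e23, a23⟩}

theorem apply_cond' {A B : Type} (f : A → B) (w : Bool) (p q : A) :
    f (cond w p q) = cond w (f p) (f q) := by cases w <;> rfl

omit [Fintype J] [DecidableEq J] in
theorem emp_triCr (t1 t2 m1 m2 b1 b2 : J) (tt mm bb : Bool) (e12 a12 e13 a13 e23 a23 : ℝ) (j : J) :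
    Emp (triCr t1 t2 m1 m2 b1 b2 tt mm bb e12 a12 e13 a13 e23 a23) j
      ↔ (j ≠ t1 ∧ j ≠ t2 ∧ j ≠ m1 ∧ j ≠ m2 ∧ j ≠ b1 ∧ j ≠ b2) := by
  unfold Emp triCr
  simp only [Multiset.insert_eq_cons, Multiset.mem_cons, Multiset.mem_singleton, forall_eq_or_imp,
    forall_eq]
  cases tt <;> cases mm <;> cases bb <;> simp only [cond_true, cond_false, ne_eq] <;>
    constructor <;> intro h <;> simp only [eq_comm (a := j)] at * <;> tauto

omit [Fintype J] in
/-- the local weight of an R3 window -/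
theorem avg_triCr (N : ℕ) (nx : J → J) (hnx : Function.Injective nx) (g : J → ℝ)
    (t1 t2 m1 m2 b1 b2 : J) (ht : nx t1 = t2) (hm : nx m1 = m2)
    (hb : nx b1 = b2) (hnd : [t1, t2, m1, m2, b1, b2].Nodup) (hgt : g t2 = 0) (hgm : g m2 = 0)
    (hgb : g b2 = 0) (e12 a12 e13 a13 e23 a23 : ℝ) (tt mm bb : Bool) (s : J → Fin N) :
    avgL [t2, m2, b2] (locW N nx g [t2, m2, b2].toFinset {t1, t2, m1, m2, b1, b2}
      (triCr t1 t2 m1 m2 b1 b2 tt mm bb e12 a12 e13 a13 e23 a23)) s
      = T3 tt mm bb e12 a12 e13 a13 e23 a23 (s t1) (s m1) (s b1) (s (nx t2)) (s (nx m2))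
        (s (nx b2)) := by
  simp only [List.nodup_cons, List.mem_cons, List.not_mem_nil, or_false, not_or,
    List.nodup_nil, and_true] at hnd
  obtain ⟨⟨n12, n13, n14, n15, n16⟩, ⟨n23, n24, n25, n26⟩, ⟨n34, n35, n36⟩, ⟨n45, n46⟩, n56, -⟩ := hnd
  have a1 : nx t2 ≠ t2 := fun h => n12 (hnx (ht.trans h.symm))
  have a2 : nx t2 ≠ m2 := fun h => n23 (hnx (h.trans hm.symm))
  have a3 : nx t2 ≠ b2 := fun h => n25 (hnx (h.trans hb.symm))
  have a4 : nx m2 ≠ t2 := fun h => n14 (hnx (ht.trans h.symm))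
  have a5 : nx m2 ≠ m2 := fun h => n34 (hnx (hm.trans h.symm))
  have a6 : nx m2 ≠ b2 := fun h => n45 (hnx (h.trans hb.symm))
  have a7 : nx b2 ≠ t2 := fun h => n16 (hnx (ht.trans h.symm))
  have a8 : nx b2 ≠ m2 := fun h => n36 (hnx (hm.trans h.symm))
  have a9 : nx b2 ≠ b2 := fun h => n56 (hnx (hb.trans h.symm))
  unfold T3
  simp only [avgL]
  refine Finset.sum_congr rfl fun x _ => Finset.sum_congr rfl fun y _ =>
    Finset.sum_congr rfl fun z _ => ?_
  set S : J → Fin N := Function.update (Function.update (Function.update s t2 x) m2 y) b2 z with hS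
  have S1 : S t1 = s t1 := by
    simp only [hS, Function.update_of_ne n12, Function.update_of_ne n14, Function.update_of_ne n16]
  have S2 : S t2 = x := by
    simp only [hS, Function.update_self, Function.update_of_ne n24, Function.update_of_ne n26]
  have S3 : S m1 = s m1 := by
    simp only [hS, Function.update_of_ne (Ne.symm n23), Function.update_of_ne n34,
      Function.update_of_ne n36]
  have S4 : S m2 = y := by
    simp only [hS, Function.update_self, Function.update_of_ne n46]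
  have S5 : S b1 = s b1 := by
    simp only [hS, Function.update_of_ne (Ne.symm n25), Function.update_of_ne (Ne.symm n45),
      Function.update_of_ne n56]
  have S6 : S b2 = z := by
    simp only [hS, Function.update_self]
  have S7 : S (nx t2) = s (nx t2) := by
    simp only [hS, Function.update_of_ne a1, Function.update_of_ne a2, Function.update_of_ne a3]
  have S8 : S (nx m2) = s (nx m2) := by
    simp only [hS, Function.update_of_ne a4, Function.update_of_ne a5, Function.update_of_ne a6]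
  have S9 : S (nx b2) = s (nx b2) := by
    simp only [hS, Function.update_of_ne a7, Function.update_of_ne a8, Function.update_of_ne a9]
  have hprod : (∏ p ∈ [t2, m2, b2].toFinset, (2 : ℝ) ^ (kap N (S p) * g p)) = 1 := by
    refine Finset.prod_eq_one fun p hp => ?_
    simp only [List.toFinset_cons, List.toFinset_nil, insert_empty_eq, Finset.mem_insert,
      Finset.mem_singleton] at hp
    have hgp : g p = 0 := by rcases hp with rfl | rfl | rfl <;> assumption
    rw [hgp, mul_zero, Real.rpow_zero]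
  unfold locW
  rw [hprod]
  have hW : ∀ w ∈ ({t1, t2, m1, m2, b1, b2} : Finset J),
      ¬ Emp (triCr t1 t2 m1 m2 b1 b2 tt mm bb e12 a12 e13 a13 e23 a23) w := by
    intro w hw h
    rw [emp_triCr] at h
    simp only [Finset.mem_insert, Finset.mem_singleton] at hw
    tauto
  rw [Finset.prod_eq_one (fun w hw => ifE_not (hW w hw) _ _)]
  unfold triCr
  simp only [Multiset.insert_eq_cons, Multiset.map_cons, Multiset.map_singleton,
    Multiset.prod_cons, Multiset.prod_singleton, apply_cond' nx, apply_cond' S, ht, hm, hb, S1, S2,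
    S3, S4, S5, S6, S7, S8, S9]
  ring

/-- R3 for nets: all three orders are reversed -/
theorem netM_R3 (N : ℕ) (nx : J → J) (hnx : Function.Injective nx) (g : J → ℝ)
    (Cs : Multiset (Cr J)) (t1 t2 m1 m2 b1 b2 : J) (ht : nx t1 = t2) (hm : nx m1 = m2)
    (hb : nx b1 = b2) (hnd : [t1, t2, m1, m2, b1, b2].Nodup)
    (he : ∀ x ∈ [t1, t2, m1, m2, b1, b2], Emp Cs x) (hgt : g t2 = 0) (hgm : g m2 = 0)
    (hgb : g b2 = 0) (e12 a12 e13 a13 e23 a23 s : ℝ) (hs : s = 1 ∨ s = -1)
    (h12 : e12 = 1 ∨ e12 = -1) (h13 : e13 = 1 ∨ e13 = -1) (h23 : e23 = 1 ∨ e23 = -1)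
    (tt mm bb : Bool) (htt : tt = true ↔ s * e12 * e13 < 0) (hmm : mm = true ↔ s * e12 * e23 < 0)
    (hbb : bb = true ↔ s * e13 * e23 < 0)
    (hang : a13 = a12 + a23 + (if e12 = 1 ∧ e23 = 1 ∧ e13 = -1 then -1
      else if e12 = -1 ∧ e23 = -1 ∧ e13 = 1 then 1 else 0)) :
    netM N nx g (triCr t1 t2 m1 m2 b1 b2 tt mm bb e12 a12 e13 a13 e23 a23 + Cs)
      = netM N nx g (triCr t1 t2 m1 m2 b1 b2 (!tt) (!mm) (!bb) e12 a12 e13 a13 e23 a23 + Cs) := by
  have h := netM_win N nx g g [t2, m2, b2] {t1, t2, m1, m2, b1, b2}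
    (triCr t1 t2 m1 m2 b1 b2 tt mm bb e12 a12 e13 a13 e23 a23)
    (triCr t1 t2 m1 m2 b1 b2 (!tt) (!mm) (!bb) e12 a12 e13 a13 e23 a23) Cs 1 (by simp) (by simp)
    (by
      intro j hj
      simp only [List.mem_cons, List.not_mem_nil, or_false] at hj
      rcases hj with h | h | h
      · simp [hnx (h.trans ht.symm)]
      · simp [hnx (h.trans hm.symm)]
      · simp [hnx (h.trans hb.symm)])
    (by
      intro w hw
      exact he w (by simpa using hw))
    (by
      intro j _
      rw [emp_triCr, emp_triCr])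
    (fun _ _ => rfl)
    (by
      intro s'
      rw [avg_triCr N nx hnx g t1 t2 m1 m2 b1 b2 ht hm hb hnd hgt hgm hgb,
        avg_triCr N nx hnx g t1 t2 m1 m2 b1 b2 ht hm hb hnd hgt hgm hgb, one_mul]
      exact loc_R3 e12 a12 e13 a13 e23 a23 s hs h12 h13 h23 tt mm bb htt hmm hbb hang _ _ _ _ _ _)
  rw [one_mul] at h
  exact h

end Pool.Agent.Lib.MP_ca0971_gt.OT
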