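import Pool.Agent.Lib.MP_ca0971_gt.OT.Net.MovesA
import Pool.Agent.Lib.MP_ca0971_gt.OT.Net.MovesB
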