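import Pool.Agent.Lib.MP_ca0971_gt.OT.Net.Word
import Pool.Agent.Lib.MP_ca0971_gt.OT.Net.Ord
import Pool.Agent.Lib.MP_ca0971_gt.OT.Net.Moves

/-! # Project OT, part A: Dia.Z_R1_over, Dia.Z_R1_under -/

set_option autoImplicit false

namespace Pool.Agent.Lib.MP_ca0971_gt.OT

open Finset

section Grid

variable {I : Type}

theorem r1_gnx_succ (σ : Equiv.Perm I) (M : ℕ) (a : I) (r : ℕ) (hr : r + 1 < M + 1) :
    gnx σ M (a, ⟨r, by omega⟩) = (a, ⟨r + 1, hr⟩) := by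
  unfold gnx
  rw [dif_pos hr]

theorem r1_gnx_last (σ : Equiv.Perm I) (M : ℕ) (a : I) :
    gnx σ M (a, ⟨M, by omega⟩) = (σ a, 0) := by
  unfold gnx
  rw [dif_neg (by simp)]

theorem r1_gg_succ (D : Dia I) (σ : Equiv.Perm I) (M : ℕ) (a : I) (r : ℕ) (hr : r + 1 < M + 1) :
    D.gg σ M (a, ⟨r + 1, hr⟩) = 0 := by
  unfold Dia.gg
  rw [if_neg]
  intro h
  have := congrArg Fin.val h
  simp at this

theorem r1_gg_zero (D : Dia I) (σ : Equiv.Perm I) (M : ℕ) (a : I) :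
    D.gg σ M (σ a, 0) = D.th a := by
  unfold Dia.gg
  rw [if_pos rfl, Equiv.symm_apply_apply]

end Grid

variable {I : Type} [Fintype I] [DecidableEq I]

/-- the under passage moves along the empty edge `a` -/
theorem r1_slide_under (σ : Equiv.Perm I) (N M : ℕ) (D : Dia I) (a : I)
    (Cs : Multiset (Cr (I × Fin (M + 1)))) (k : I × Fin (M + 1)) (hk : k.1 ≠ a)
    (he : ∀ r, Emp Cs (a, r)) (e b : ℝ) (r : ℕ) (hr : r < M + 1) :
    netM N (gnx σ M) (D.gg σ M) ((⟨k, (a, ⟨r, hr⟩), e, b⟩ : Cr (I × Fin (M + 1))) ::ₘ Cs)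
      = netM N (gnx σ M) (D.gg σ M) ((⟨k, (a, 0), e, b⟩ : Cr (I × Fin (M + 1))) ::ₘ Cs) := by
  induction r with
  | zero => rfl
  | succ r ih =>
    have hr' : r < M + 1 := by omega
    have hne : ((a, ⟨r, hr'⟩) : I × Fin (M + 1)) ≠ (a, ⟨r + 1, hr⟩) := by
      intro h
      have := congrArg (fun x => (Prod.snd x).val) h
      simp at this
    have h := netM_slide_under N (gnx σ M) (gnx_injective σ M) (D.gg σ M) Cs (a, ⟨r, hr'⟩)
      (a, ⟨r + 1, hr⟩) k (r1_gnx_succ σ M a r hr) hne (fun h => hk (congrArg Prod.fst h))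
      (fun h => hk (congrArg Prod.fst h)) (he _) (he _) e b
    rw [r1_gg_succ, add_zero] at h
    rw [← h, ih hr']

/-- the over passage moves along the empty edge `a` -/
theorem r1_slide_over (σ : Equiv.Perm I) (N M : ℕ) (D : Dia I) (a : I)
    (Cs : Multiset (Cr (I × Fin (M + 1)))) (k : I × Fin (M + 1)) (hk : k.1 ≠ a)
    (he : ∀ r, Emp Cs (a, r)) (e b : ℝ) (r : ℕ) (hr : r < M + 1) :
    netM N (gnx σ M) (D.gg σ M) ((⟨(a, ⟨r, hr⟩), k, e, b⟩ : Cr (I × Fin (M + 1))) ::ₘ Cs)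
      = netM N (gnx σ M) (D.gg σ M) ((⟨(a, 0), k, e, b⟩ : Cr (I × Fin (M + 1))) ::ₘ Cs) := by
  induction r with
  | zero => rfl
  | succ r ih =>
    have hr' : r < M + 1 := by omega
    have hne : ((a, ⟨r, hr'⟩) : I × Fin (M + 1)) ≠ (a, ⟨r + 1, hr⟩) := by
      intro h
      have := congrArg (fun x => (Prod.snd x).val) h
      simp at this
    have h := netM_slide_over N (gnx σ M) (gnx_injective σ M) (D.gg σ M) Cs (a, ⟨r, hr'⟩)
      (a, ⟨r + 1, hr⟩) k (r1_gnx_succ σ M a r hr) hne (fun h => hk (congrArg Prod.fst h))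
      (fun h => hk (congrArg Prod.fst h)) (he _) (he _) e b
    rw [r1_gg_succ, sub_zero] at h
    rw [← h, ih hr']

open Classical in
/-- the pieces: the crossing of `i` with `c` on the last piece -/
noncomputable def r1k (D : Dia I) (i c : I) (x y : I) : ℕ :=
  if x = i ∧ y = c then Fintype.card I else D.rk x y

omit [DecidableEq I] in
theorem r1_rk_lt (D : Dia I) (x y : I) : D.rk x y < Fintype.card I := by
  unfold Dia.rk
  refine Finset.card_lt_card ?_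
  rw [Finset.ssubset_univ_iff]
  intro h
  have h1 := h ▸ Finset.mem_univ y
  simp at h1

omit [DecidableEq I] in
theorem r1_rk_mono (D : Dia I) {x y z : I} (hy : D.Pas x y) (h : D.pos x y < D.pos x z) :
    D.rk x y < D.rk x z := by
  unfold Dia.rk
  refine Finset.card_lt_card ?_
  rw [Finset.ssubset_iff_of_subset]
  · exact ⟨y, by simp [hy, h], by simp⟩
  · intro w hw
    simp only [Finset.mem_filter, Finset.mem_univ, true_and] at hw ⊢
    exact ⟨hw.1, hw.2.trans h⟩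

theorem r1k_val (D D' : Dia I) (i c : I) (hP : ∀ x y, D'.Pas x y → D.Pas x y)
    (hp : ∀ a l, D'.Pas a l → D'.pos a l = D.pos a l)
    (hlast : ∀ l, D.Pas i l → l ≠ c → D.pos i l < D.pos i c) :
    D'.Val (Fintype.card I) (r1k D i c) := by
  constructor
  · intro x y _
    unfold r1k
    split_ifs
    · exact le_rfl
    · exact (r1_rk_lt D x y).le
  · intro x y z hy hz h
    rw [hp _ _ hy, hp _ _ hz] at h
    have hy' := hP _ _ hy
    have hz' := hP _ _ hz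
    unfold r1k
    by_cases h1 : x = i ∧ y = c
    · obtain ⟨rfl, rfl⟩ := h1
      exfalso
      by_cases h2 : z = y
      · subst h2
        exact lt_irrefl _ h
      · exact lt_asymm h (hlast z hz' h2)
    · rw [if_neg h1]
      by_cases h2 : x = i ∧ z = c
      · rw [if_pos h2]
        exact r1_rk_lt D x y
      · rw [if_neg h2]
        exact r1_rk_mono D hy' h

theorem r1_ofNat_eq {M a b : ℕ} (ha : a ≤ M) (hb : b ≤ M)
    (h : Fin.ofNat (M + 1) a = Fin.ofNat (M + 1) b) : a = b := by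
  have h1 := congrArg Fin.val h
  simp only [Fin.ofNat] at h1
  rwa [Nat.mod_eq_of_lt (by omega), Nat.mod_eq_of_lt (by omega)] at h1

theorem r1_ofNat_last (M : ℕ) : Fin.ofNat (M + 1) M = ⟨M, by omega⟩ := by
  apply Fin.ext
  simp only [Fin.ofNat]
  exact Nat.mod_eq_of_lt (by omega)

theorem r1_cons {X Y : Type} [DecidableEq X] (C : Finset X) (f : X → Y) {x : X} (hx : x ∈ C) :
    C.val.map f = f x ::ₘ (C.erase x).val.map f := by
  rw [Finset.erase_val, ← Multiset.map_cons, Multiset.cons_erase hx]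

omit [Fintype I] [DecidableEq I] in
/-- the edge `a` is empty -/
theorem r1_emp_a (D : Dia I) (C' : Finset (I × I)) (hC : ∀ y ∈ C', y ∈ D.C) (M : ℕ)
    (k : I → I → ℕ) (a : I) (hfree : ∀ l, ¬ D.Pas a l) (r : Fin (M + 1)) :
    Emp (C'.val.map (D.rcd M k)) (a, r) := by
  intro c hc
  obtain ⟨y, hy, rfl⟩ := Multiset.mem_map.1 hc
  have hy' := hC y hy
  constructor
  · intro h
    have h1 : y.1 = a := congrArg Prod.fst h
    exact hfree y.2 (Or.inl (h1 ▸ hy'))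
  · intro h
    have h1 : y.2 = a := congrArg Prod.fst h
    exact hfree y.1 (Or.inr (h1 ▸ hy'))

theorem r1_k_eq (D : Dia I) (i c : I) {y : I} (h : r1k D i c i y = Fintype.card I) : y = c := by
  unfold r1k at h
  by_contra hne
  rw [if_neg (fun h => hne h.2)] at h
  exact (r1_rk_lt D i y).ne h

theorem r1_k_le (D : Dia I) (i c x y : I) : r1k D i c x y ≤ Fintype.card I := by
  unfold r1k
  split_ifs
  · exact le_rfl
  · exact (r1_rk_lt D x y).le

/-- the last piece of `i` is empty -/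
theorem r1_emp_i (D : Dia I) (C' : Finset (I × I)) (i c : I)
    (hC : ∀ y ∈ C', y ∈ D.C ∧ y ≠ (i, c) ∧ y ≠ (c, i)) :
    Emp (C'.val.map (D.rcd (Fintype.card I) (r1k D i c)))
      (i, ⟨Fintype.card I, by omega⟩) := by
  intro z hz
  obtain ⟨y, hy, rfl⟩ := Multiset.mem_map.1 hz
  obtain ⟨_, h1, h2⟩ := hC y hy
  rw [← r1_ofNat_last]
  constructor
  · intro h
    have e1 : y.1 = i := congrArg Prod.fst h
    have e2 : Fin.ofNat (Fintype.card I + 1) (r1k D i c y.1 y.2) = Fin.ofNat _ (Fintype.card I) :=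
      congrArg Prod.snd h
    have e3 := r1_ofNat_eq (r1_k_le D i c _ _) le_rfl e2
    rw [e1] at e3
    exact h1 (Prod.ext e1 (r1_k_eq D i c e3))
  · intro h
    have e1 : y.2 = i := congrArg Prod.fst h
    have e2 : Fin.ofNat (Fintype.card I + 1) (r1k D i c y.2 y.1) = Fin.ofNat _ (Fintype.card I) :=
      congrArg Prod.snd h
    have e3 := r1_ofNat_eq (r1_k_le D i c _ _) le_rfl e2
    rw [e1] at e3
    exact h2 (Prod.ext (r1_k_eq D i c e3) e1)

/-- the first piece of `c` carries only the crossing with `i` -/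
theorem r1_k_zero (D : Dia I) (i c : I) (hci : c ≠ i) (hPi : D.Pas c i)
    (hfirst : ∀ l, D.Pas c l → l ≠ i → D.pos c i < D.pos c l) {y : I} (hy : D.Pas c y)
    (h : r1k D i c c y = 0) : y = i := by
  by_contra hne
  unfold r1k at h
  rw [if_neg (fun h => hci h.1)] at h
  have := r1_rk_mono D hPi (hfirst y hy hne)
  omega

theorem r1_k_ci (D : Dia I) (i c : I) (hci : c ≠ i)
    (hfirst : ∀ l, D.Pas c l → l ≠ i → D.pos c i < D.pos c l) : r1k D i c c i = 0 := by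
  unfold r1k
  rw [if_neg (fun h => hci h.1)]
  unfold Dia.rk
  refine Finset.card_eq_zero.2 (Finset.eq_empty_of_forall_notMem fun l hl => ?_)
  simp only [Finset.mem_filter, Finset.mem_univ, true_and] at hl
  obtain ⟨h1, h2⟩ := hl
  by_cases h3 : l = i
  · subst h3
    exact lt_irrefl _ h2
  · exact lt_asymm h2 (hfirst l h1 h3)

/-- the first piece of `c` is empty -/
theorem r1_emp_c (D : Dia I) (C' : Finset (I × I)) (i c : I) (hci : c ≠ i) (hPi : D.Pas c i)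
    (hfirst : ∀ l, D.Pas c l → l ≠ i → D.pos c i < D.pos c l)
    (hC : ∀ y ∈ C', y ∈ D.C ∧ y ≠ (i, c) ∧ y ≠ (c, i)) :
    Emp (C'.val.map (D.rcd (Fintype.card I) (r1k D i c))) (c, 0) := by
  intro z hz
  obtain ⟨y, hy, rfl⟩ := Multiset.mem_map.1 hz
  obtain ⟨h0, h1, h2⟩ := hC y hy
  have hz0 : (0 : Fin (Fintype.card I + 1)) = Fin.ofNat _ 0 := rfl
  rw [hz0]
  constructor
  · intro h
    have e1 : y.1 = c := congrArg Prod.fst h
    have e2 : Fin.ofNat (Fintype.card I + 1) (r1k D i c y.1 y.2) = Fin.ofNat _ 0 :=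
      congrArg Prod.snd h
    have e3 := r1_ofNat_eq (r1_k_le D i c _ _) (Nat.zero_le _) e2
    rw [e1] at e3
    have hP : D.Pas c y.2 := Or.inl (by rw [← e1]; exact h0)
    exact h2 (Prod.ext e1 (r1_k_zero D i c hci hPi hfirst hP e3))
  · intro h
    have e1 : y.2 = c := congrArg Prod.fst h
    have e2 : Fin.ofNat (Fintype.card I + 1) (r1k D i c y.2 y.1) = Fin.ofNat _ 0 :=
      congrArg Prod.snd h
    have e3 := r1_ofNat_eq (r1_k_le D i c _ _) (Nat.zero_le _) e2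
    rw [e1] at e3
    have hP : D.Pas c y.1 := Or.inr (by rw [← e1]; exact h0)
    exact h1 (Prod.ext (r1_k_zero D i c hci hPi hfirst hP e3) e1)

omit [Fintype I] [DecidableEq I] in
theorem r1_ok (D D' : Dia I) (hD : D.Ok) (hC : ∀ y ∈ D'.C, y ∈ D.C)
    (hp : ∀ a l, D'.Pas a l → D'.pos a l = D.pos a l)
    (hep : ∀ x ∈ D'.C, D'.ep x.1 x.2 = D.ep x.1 x.2) : D'.Ok := by
  have hP : ∀ x y, D'.Pas x y → D.Pas x y := fun x y h => h.imp (hC _) (hC _)
  refine ⟨fun i h => hD.irr i (hC _ h), fun i j h h' => hD.asym i j (hC _ h) (hC _ h'),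
    fun i j k h1 h2 h => ?_, fun i j h => ?_⟩
  · rw [hp _ _ h1, hp _ _ h2] at h
    exact hD.inj i j k (hP _ _ h1) (hP _ _ h2) h
  · rw [hep _ h]
    exact hD.sgn i j (hC _ h)

/-- the auxiliary diagram: the turning of the loop at the end of `i` -/
def r1D (D D' : Dia I) (i : I) (t : ℝ) : Dia I :=
  ⟨D'.C, D'.pos, fun x => if x = i then D.th i + t else D.th x, D'.ep, D'.b⟩

theorem r1_Z' (σ : Equiv.Perm I) (N : ℕ) (D D' : Dia I) (hD : D.Ok) (i : I) (t : ℝ)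
    (h1 : σ i ≠ i) (hfree : ∀ l, ¬ D.Pas (σ i) l)
    (hlast : ∀ l, D.Pas i l → l ≠ σ (σ i) → D.pos i l < D.pos i (σ (σ i)))
    (hC : ∀ y ∈ D'.C, y ∈ D.C)
    (hp : ∀ a l, D'.Pas a l → D'.pos a l = D.pos a l)
    (hep' : ∀ x ∈ D'.C, D'.ep x.1 x.2 = D.ep x.1 x.2) (hb' : ∀ x ∈ D'.C, D'.b x.1 x.2 = D.b x.1 x.2)
    (hth : ∀ a, a ≠ i → a ≠ σ i → D'.th a = D.th a)
    (hsum : D'.th i + D'.th (σ i) = D.th i + D.th (σ i) + t) :
    D'.Z σ N = netM N (gnx σ (Fintype.card I))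
      (Function.update (D.gg σ (Fintype.card I)) (σ i, 0)
        (D.gg σ (Fintype.card I) (σ i, 0) + t))
      (D'.C.val.map (D.rcd (Fintype.card I) (r1k D i (σ (σ i))))) := by
  have hP : ∀ x y, D'.Pas x y → D.Pas x y := fun x y h => h.imp (hC _) (hC _)
  have hO : (r1D D D' i t).Ok := r1_ok D (r1D D D' i t) hD hC hp hep'
  have hZ : D'.Z σ N = (r1D D D' i t).Z σ N := by
    refine Dia.Z_free σ N (r1D D D' i t) D' hO i h1 (fun l hl => hfree l (hP _ _ hl)) rfl rfl rfl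
      rfl ?_ ?_
    · intro a ha ha'
      change D'.th a = if a = i then D.th i + t else D.th a
      rw [if_neg ha, hth a ha ha']
    · change D'.th i + D'.th (σ i) = (if i = i then D.th i + t else D.th i) +
        if σ i = i then D.th i + t else D.th (σ i)
      rw [if_pos rfl, if_neg h1, hsum]
      ring
  have hV : (r1D D D' i t).Val (Fintype.card I) (r1k D i (σ (σ i))) :=
    r1k_val D (r1D D D' i t) i (σ (σ i)) hP hp hlast
  rw [hZ, ← Dia.ZM_eq σ N (Fintype.card I) (r1D D D' i t) hO _ hV, Dia.ZM_netM]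
  have hg : (r1D D D' i t).gg σ (Fintype.card I) =
      Function.update (D.gg σ (Fintype.card I)) (σ i, 0)
        (D.gg σ (Fintype.card I) (σ i, 0) + t) := by
    funext j
    by_cases hj : j = (σ i, 0)
    · subst hj
      rw [Function.update_self, r1_gg_zero, r1_gg_zero]
      change (if i = i then D.th i + t else D.th i) = _
      rw [if_pos rfl]
    · rw [Function.update_of_ne hj]
      unfold Dia.gg
      by_cases hj2 : j.2 = 0
      · rw [if_pos hj2, if_pos hj2]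
        change (if σ.symm j.1 = i then D.th i + t else D.th (σ.symm j.1)) = _
        rw [if_neg]
        intro h
        apply hj
        refine Prod.ext ?_ hj2
        rw [← h]
        simp
      · rw [if_neg hj2, if_neg hj2]
  rw [hg]
  congr 1
  change D'.C.val.map _ = _
  refine Multiset.map_congr rfl fun y hy => ?_
  have h2 := hep' y hy
  have h3 := hb' y hy
  unfold Dia.rcd
  change (⟨_, _, D'.ep y.1 y.2, D'.b y.1 y.2⟩ : Cr (I × Fin (Fintype.card I + 1))) = _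
  rw [h2, h3]

/-- R1, the first passage is over. The loop runs over the end of `i`, the edge `σ i` and the
beginning of `σ (σ i)`. -/
theorem Dia.Z_R1_over (σ : Equiv.Perm I) (N : ℕ) (D D' : Dia I) (hD : D.Ok) (i : I)
    (h1 : σ i ≠ i) (h2 : σ (σ i) ≠ i) (hx : (i, σ (σ i)) ∈ D.C) (hfree : ∀ l, ¬ D.Pas (σ i) l)
    (hlast : ∀ l, D.Pas i l → l ≠ σ (σ i) → D.pos i l < D.pos i (σ (σ i)))
    (hfirst : ∀ l, D.Pas (σ (σ i)) l → l ≠ i → D.pos (σ (σ i)) i < D.pos (σ (σ i)) l)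
    (hb : D.b i (σ (σ i)) = D.th i + D.th (σ i) + D.ep i (σ (σ i)))
    (hC : D'.C = D.C.erase (i, σ (σ i))) (hp : ∀ a l, D'.Pas a l → D'.pos a l = D.pos a l)
    (hep' : ∀ x ∈ D'.C, D'.ep x.1 x.2 = D.ep x.1 x.2) (hb' : ∀ x ∈ D'.C, D'.b x.1 x.2 = D.b x.1 x.2)
    (hth : ∀ a, a ≠ i → a ≠ σ i → D'.th a = D.th a)
    (hsum : D'.th i + D'.th (σ i) = D.th i + D.th (σ i) + D.ep i (σ (σ i))) :
    D.Z σ N = (2 : ℝ) ^ ((N : ℝ) * D.ep i (σ (σ i))) * D'.Z σ N := by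
  have hsub : ∀ y ∈ D'.C, y ∈ D.C := by
    intro y hy
    rw [hC] at hy
    exact Finset.mem_of_mem_erase hy
  have hC2 : ∀ y ∈ D'.C, y ∈ D.C ∧ y ≠ (i, σ (σ i)) ∧ y ≠ (σ (σ i), i) := by
    intro y hy
    refine ⟨hsub y hy, ?_, ?_⟩
    · rw [hC] at hy
      exact Finset.ne_of_mem_erase hy
    · rintro rfl
      exact hD.asym _ _ hx (hsub _ hy)
  rw [r1_Z' σ N D D' hD i (D.ep i (σ (σ i))) h1 hfree hlast hsub hp hep' hb' hth hsum,
    ← Dia.ZM_eq σ N (Fintype.card I) D hD _ (r1k_val D D i (σ (σ i)) (fun _ _ h => h)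
      (fun _ _ _ => rfl) hlast), Dia.ZM_netM, r1_cons D.C _ hx, ← hC]
  set Cs := D'.C.val.map (D.rcd (Fintype.card I) (r1k D i (σ (σ i)))) with hCs
  have hrec : D.rcd (Fintype.card I) (r1k D i (σ (σ i))) (i, σ (σ i)) =
      ⟨(i, ⟨Fintype.card I, by omega⟩), (σ (σ i), 0), D.ep i (σ (σ i)), D.b i (σ (σ i))⟩ := by
    unfold Dia.rcd
    simp only [r1_k_ci D i (σ (σ i)) h2 hfirst]
    rw [show r1k D i (σ (σ i)) i (σ (σ i)) = Fintype.card I from if_pos ⟨rfl, rfl⟩, r1_ofNat_last]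
    rfl
  have hea : ∀ r, Emp Cs (σ i, r) := fun r => r1_emp_a D D'.C hsub _ _ (σ i) hfree r
  have hei : Emp Cs (i, ⟨Fintype.card I, by omega⟩) := r1_emp_i D D'.C i (σ (σ i)) hC2
  have hec : Emp Cs (σ (σ i), 0) :=
    r1_emp_c D D'.C i (σ (σ i)) h2 (Or.inr hx) hfirst hC2
  have h3 : σ (σ i) ≠ σ i := fun h => h1 (σ.injective h)
  rw [hrec]
  have s1 := netM_slide_under N (gnx σ (Fintype.card I)) (gnx_injective σ _)
    (D.gg σ (Fintype.card I)) Cs (σ i, ⟨Fintype.card I, by omega⟩) (σ (σ i), 0)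
    (i, ⟨Fintype.card I, by omega⟩) (r1_gnx_last σ _ (σ i))
    (fun h => h3 (congrArg Prod.fst h).symm) (fun h => h1 (congrArg Prod.fst h).symm)
    (fun h => h2 (congrArg Prod.fst h).symm) (hea _) hec (D.ep i (σ (σ i)))
    (D.b i (σ (σ i)) - D.th (σ i))
  rw [r1_gg_zero, sub_add_cancel] at s1
  rw [← s1, r1_slide_under σ N _ D (σ i) Cs (i, ⟨Fintype.card I, by omega⟩) h1.symm hea]
  refine netM_R1_over N (gnx σ (Fintype.card I)) (gnx_injective σ _) (D.gg σ (Fintype.card I)) Cs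
    (i, ⟨Fintype.card I, by omega⟩) (σ i, 0) (r1_gnx_last σ _ i)
    (fun h => h1 (congrArg Prod.fst h).symm) hei (hea _) _ _ (hD.sgn _ _ hx) ?_
  rw [r1_gg_zero, hb]
  ring

/-- R1, the first passage is under. -/
theorem Dia.Z_R1_under (σ : Equiv.Perm I) (N : ℕ) (D D' : Dia I) (hD : D.Ok) (i : I)
    (h1 : σ i ≠ i) (h2 : σ (σ i) ≠ i) (hx : (σ (σ i), i) ∈ D.C) (hfree : ∀ l, ¬ D.Pas (σ i) l)
    (hlast : ∀ l, D.Pas i l → l ≠ σ (σ i) → D.pos i l < D.pos i (σ (σ i)))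
    (hfirst : ∀ l, D.Pas (σ (σ i)) l → l ≠ i → D.pos (σ (σ i)) i < D.pos (σ (σ i)) l)
    (hb : D.b (σ (σ i)) i = - (D.th i + D.th (σ i)) + D.ep (σ (σ i)) i)
    (hC : D'.C = D.C.erase (σ (σ i), i)) (hp : ∀ a l, D'.Pas a l → D'.pos a l = D.pos a l)
    (hep' : ∀ x ∈ D'.C, D'.ep x.1 x.2 = D.ep x.1 x.2) (hb' : ∀ x ∈ D'.C, D'.b x.1 x.2 = D.b x.1 x.2)
    (hth : ∀ a, a ≠ i → a ≠ σ i → D'.th a = D.th a)
    (hsum : D'.th i + D'.th (σ i) = D.th i + D.th (σ i) - D.ep (σ (σ i)) i) :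
    D.Z σ N = (2 : ℝ) ^ ((N : ℝ) * D.ep (σ (σ i)) i) * D'.Z σ N := by
  have hsub : ∀ y ∈ D'.C, y ∈ D.C := by
    intro y hy
    rw [hC] at hy
    exact Finset.mem_of_mem_erase hy
  have hC2 : ∀ y ∈ D'.C, y ∈ D.C ∧ y ≠ (i, σ (σ i)) ∧ y ≠ (σ (σ i), i) := by
    intro y hy
    refine ⟨hsub y hy, ?_, ?_⟩
    · rintro rfl
      exact hD.asym _ _ hx (hsub _ hy)
    · rw [hC] at hy
      exact Finset.ne_of_mem_erase hy
  rw [sub_eq_add_neg] at hsum
  rw [r1_Z' σ N D D' hD i (-D.ep (σ (σ i)) i) h1 hfree hlast hsub hp hep' hb' hth hsum,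
    ← Dia.ZM_eq σ N (Fintype.card I) D hD _ (r1k_val D D i (σ (σ i)) (fun _ _ h => h)
      (fun _ _ _ => rfl) hlast), Dia.ZM_netM, r1_cons D.C _ hx, ← hC]
  set Cs := D'.C.val.map (D.rcd (Fintype.card I) (r1k D i (σ (σ i)))) with hCs
  have hrec : D.rcd (Fintype.card I) (r1k D i (σ (σ i))) (σ (σ i), i) =
      ⟨(σ (σ i), 0), (i, ⟨Fintype.card I, by omega⟩), D.ep (σ (σ i)) i, D.b (σ (σ i)) i⟩ := by
    unfold Dia.rcd
    simp only [r1_k_ci D i (σ (σ i)) h2 hfirst]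
    rw [show r1k D i (σ (σ i)) i (σ (σ i)) = Fintype.card I from if_pos ⟨rfl, rfl⟩, r1_ofNat_last]
    rfl
  have hea : ∀ r, Emp Cs (σ i, r) := fun r => r1_emp_a D D'.C hsub _ _ (σ i) hfree r
  have hei : Emp Cs (i, ⟨Fintype.card I, by omega⟩) := r1_emp_i D D'.C i (σ (σ i)) hC2
  have hec : Emp Cs (σ (σ i), 0) :=
    r1_emp_c D D'.C i (σ (σ i)) h2 (Or.inl hx) hfirst hC2
  have h3 : σ (σ i) ≠ σ i := fun h => h1 (σ.injective h)
  rw [hrec]
  have s1 := netM_slide_over N (gnx σ (Fintype.card I)) (gnx_injective σ _)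
    (D.gg σ (Fintype.card I)) Cs (σ i, ⟨Fintype.card I, by omega⟩) (σ (σ i), 0)
    (i, ⟨Fintype.card I, by omega⟩) (r1_gnx_last σ _ (σ i))
    (fun h => h3 (congrArg Prod.fst h).symm) (fun h => h1 (congrArg Prod.fst h).symm)
    (fun h => h2 (congrArg Prod.fst h).symm) (hea _) hec (D.ep (σ (σ i)) i)
    (D.b (σ (σ i)) i + D.th (σ i))
  rw [r1_gg_zero, add_sub_cancel_right] at s1
  rw [← s1, r1_slide_over σ N _ D (σ i) Cs (i, ⟨Fintype.card I, by omega⟩) h1.symm hea]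
  rw [← sub_eq_add_neg (D.gg σ (Fintype.card I) (σ i, 0)) (D.ep (σ (σ i)) i)]
  refine netM_R1_under N (gnx σ (Fintype.card I)) (gnx_injective σ _) (D.gg σ (Fintype.card I)) Cs
    (i, ⟨Fintype.card I, by omega⟩) (σ i, 0) (r1_gnx_last σ _ i)
    (fun h => h1 (congrArg Prod.fst h).symm) hei (hea _) _ _ (hD.sgn _ _ hx) ?_
  rw [r1_gg_zero, hb]
  ring

end Pool.Agent.Lib.MP_ca0971_gt.OT
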