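import Pool.Agent.Lib.MP_ca0971_gt.OT.Net.Word
import Pool.Agent.Lib.MP_ca0971_gt.OT.Net.Moves

/-! # Project OT, part A: Dia.Z_R2_over, Dia.Z_R2_under -/

set_option autoImplicit false

namespace Pool.Agent.Lib.MP_ca0971_gt.OT

open Finset

variable {I : Type} [Fintype I] [DecidableEq I]

theorem r2_ofNat {M x : ℕ} (h : x ≤ M) : (Fin.ofNat (M + 1) x : Fin (M + 1)) =
    ⟨x, Nat.lt_succ_of_le h⟩ :=
  Fin.ext (Nat.mod_eq_of_lt (Nat.lt_succ_of_le h))

omit [Fintype I] [DecidableEq I] in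
theorem r2_pas_symm {D : Dia I} {a l : I} (h : D.Pas a l) : D.Pas l a := h.symm

omit [Fintype I] [DecidableEq I] in
/-- a grid piece without passages is empty -/
theorem r2_emp (D : Dia I) (M : ℕ) (k : I → I → ℕ) (hV : D.Val M k) (y : I × Fin (M + 1))
    (h : ∀ l, D.Pas y.1 l → k y.1 l ≠ y.2.val) : Emp (D.C.val.map (D.rcd M k)) y := by
  intro c hc
  obtain ⟨⟨a, l⟩, hx, rfl⟩ := Multiset.mem_map.1 hc
  have hx' : (a, l) ∈ D.C := hx
  constructor
  · intro he
    have h1 : a = y.1 := congrArg Prod.fst he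
    have h2 : (Fin.ofNat (M + 1) (k a l)).val = y.2.val := congrArg (fun z => (Prod.snd z).val) he
    have hp : D.Pas a l := Or.inl hx'
    have h3 : (Fin.ofNat (M + 1) (k a l)).val = k a l :=
      Nat.mod_eq_of_lt (Nat.lt_succ_of_le (hV.1 a l hp))
    subst h1
    exact h _ hp (h3.symm.trans h2)
  · intro he
    have h1 : l = y.1 := congrArg Prod.fst he
    have h2 : (Fin.ofNat (M + 1) (k l a)).val = y.2.val := congrArg (fun z => (Prod.snd z).val) he
    have hp : D.Pas l a := Or.inr hx'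
    have h3 : (Fin.ofNat (M + 1) (k l a)).val = k l a :=
      Nat.mod_eq_of_lt (Nat.lt_succ_of_le (hV.1 l a hp))
    subst h1
    exact h _ hp (h3.symm.trans h2)

open Classical in
/-- pieces for an R2 configuration -/
theorem r2_pieces (D D' : Dia I) (hD' : D'.Ok) (i i' j : I) (hi : i' ≠ i) (hj : j ≠ i)
    (hj' : j ≠ i')
    (hP : ∀ a l, D'.Pas a l ↔ D.Pas a l ∨ (a = i ∧ l = j) ∨ (a = j ∧ l = i) ∨ (a = i' ∧ l = j) ∨
      (a = j ∧ l = i'))
    (hn1 : ¬ D.Pas i j) (hn2 : ¬ D.Pas i' j)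
    (hlast : ∀ l, D.Pas i l → D.pos i l < D'.pos i j)
    (hfirst : ∀ l, D.Pas i' l → D'.pos i' j < D.pos i' l)
    (hpos : ∀ a l, D.Pas a l → D'.pos a l = D.pos a l)
    (hjj : ∀ l, D.Pas j l → (D.pos j l < D'.pos j i ↔ D.pos j l < D'.pos j i')) :
    ∃ (M : ℕ) (k : I → I → ℕ), D'.Val M k ∧ D.Val M k ∧ k i j = M ∧ k i' j = 0 ∧
      (D'.pos j i < D'.pos j i' → k j i' = k j i + 1) ∧
      (D'.pos j i' < D'.pos j i → k j i = k j i' + 1) ∧
      (∀ l, D.Pas i l → k i l ≠ M) ∧ (∀ l, D.Pas i' l → k i' l ≠ 0) ∧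
      (∀ l, D.Pas j l → k j l ≠ k j i) ∧ (∀ l, D.Pas j l → k j l ≠ k j i') := by
  let aft : I → I → ℕ := fun a l => (univ.filter fun m => D'.Pas a m ∧ D'.pos a l < D'.pos a m).card
  let bef : I → I → ℕ := fun a l => (univ.filter fun m => D'.Pas a m ∧ D'.pos a m < D'.pos a l).card
  have haft : ∀ a l m, D'.Pas a m → D'.pos a l < D'.pos a m → aft a m < aft a l := by
    intro a l m hm hlm
    refine Finset.card_lt_card (Finset.ssubset_iff_subset_ne.2 ⟨?_, ?_⟩)
    · intro z hz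
      rw [Finset.mem_filter] at hz ⊢
      exact ⟨hz.1, hz.2.1, hlm.trans hz.2.2⟩
    · intro he
      have : m ∈ univ.filter fun z => D'.Pas a z ∧ D'.pos a l < D'.pos a z :=
        Finset.mem_filter.2 ⟨Finset.mem_univ _, hm, hlm⟩
      rw [← he] at this
      exact lt_irrefl _ (Finset.mem_filter.1 this).2.2
  have hbef : ∀ a l m, D'.Pas a l → D'.pos a l < D'.pos a m → bef a l < bef a m := by
    intro a l m hm hlm
    refine Finset.card_lt_card (Finset.ssubset_iff_subset_ne.2 ⟨?_, ?_⟩)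
    · intro z hz
      rw [Finset.mem_filter] at hz ⊢
      exact ⟨hz.1, hz.2.1, hz.2.2.trans hlm⟩
    · intro he
      have : l ∈ univ.filter fun z => D'.Pas a z ∧ D'.pos a z < D'.pos a m :=
        Finset.mem_filter.2 ⟨Finset.mem_univ _, hm, hlm⟩
      rw [← he] at this
      exact lt_irrefl _ (Finset.mem_filter.1 this).2.2
  have haM : ∀ a l, aft a l ≤ Fintype.card I := fun a l => Finset.card_le_univ _
  have hbM : ∀ a l, bef a l ≤ Fintype.card I := fun a l => Finset.card_le_univ _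
  let k : I → I → ℕ := fun a l => if a = i then Fintype.card I - aft a l else bef a l
  have hki : ∀ l, k i l = Fintype.card I - aft i l := fun l => if_pos rfl
  have hka : ∀ a l, a ≠ i → k a l = bef a l := fun a l ha => if_neg ha
  have hV' : D'.Val (Fintype.card I) k := by
    constructor
    · intro a l _
      by_cases ha : a = i
      · subst ha
        rw [hki]
        exact Nat.sub_le _ _
      · rw [hka a l ha]
        exact hbM a l
    · intro a l m hl hm hlm
      by_cases ha : a = i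
      · subst ha
        rw [hki, hki]
        have h1 := haft a l m hm hlm
        have h2 := haM a l
        omega
      · rw [hka a l ha, hka a m ha]
        exact hbef a l m hl hlm
  have hinc : ∀ a l, D.Pas a l → D'.Pas a l := fun a l h => (hP a l).2 (Or.inl h)
  have hV : D.Val (Fintype.card I) k := by
    constructor
    · intro a l h
      exact hV'.1 a l (hinc a l h)
    · intro a l m hl hm hlm
      refine hV'.2 a l m (hinc a l hl) (hinc a m hm) ?_
      rw [hpos a l hl, hpos a m hm]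
      exact hlm
  have hPij : D'.Pas i j := (hP i j).2 (Or.inr (Or.inl ⟨rfl, rfl⟩))
  have hPji : D'.Pas j i := (hP j i).2 (Or.inr (Or.inr (Or.inl ⟨rfl, rfl⟩)))
  have hPi'j : D'.Pas i' j := (hP i' j).2 (Or.inr (Or.inr (Or.inr (Or.inl ⟨rfl, rfl⟩))))
  have hPji' : D'.Pas j i' := (hP j i').2 (Or.inr (Or.inr (Or.inr (Or.inr ⟨rfl, rfl⟩))))
  have hmI : k i j = Fintype.card I := by
    rw [hki]
    have : aft i j = 0 := by
      show (univ.filter fun m => D'.Pas i m ∧ D'.pos i j < D'.pos i m).card = 0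
      rw [Finset.card_eq_zero, Finset.filter_eq_empty_iff]
      rintro m - ⟨h1, h2⟩
      rcases (hP i m).1 h1 with h | ⟨-, h⟩ | ⟨h, -⟩ | ⟨h, -⟩ | ⟨h, -⟩
      · rw [hpos i m h] at h2
        exact lt_asymm h2 (hlast m h)
      · rw [h] at h2
        exact lt_irrefl _ h2
      · exact hj h.symm
      · exact hi h.symm
      · exact hj h.symm
    rw [this, Nat.sub_zero]
  have h0 : k i' j = 0 := by
    rw [hka i' j hi]
    show (univ.filter fun m => D'.Pas i' m ∧ D'.pos i' m < D'.pos i' j).card = 0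
    rw [Finset.card_eq_zero, Finset.filter_eq_empty_iff]
    rintro m - ⟨h1, h2⟩
    rcases (hP i' m).1 h1 with h | ⟨h, -⟩ | ⟨h, -⟩ | ⟨-, h⟩ | ⟨h, -⟩
    · rw [hpos i' m h] at h2
      exact lt_asymm h2 (hfirst m h)
    · exact hi h
    · exact hj' h.symm
    · rw [h] at h2
      exact lt_irrefl _ h2
    · exact hj' h.symm
  have hstep : ∀ x y : I, (x = i ∧ y = i' ∨ x = i' ∧ y = i) → D'.pos j x < D'.pos j y →
      k j y = k j x + 1 := by
    intro x y hxy hlt
    rw [hka j y hj, hka j x hj]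
    show (univ.filter fun m => D'.Pas j m ∧ D'.pos j m < D'.pos j y).card =
      (univ.filter fun m => D'.Pas j m ∧ D'.pos j m < D'.pos j x).card + 1
    have hx : x ∉ univ.filter fun m => D'.Pas j m ∧ D'.pos j m < D'.pos j x := by
      intro h
      exact lt_irrefl _ (Finset.mem_filter.1 h).2.2
    rw [← Finset.card_insert_of_notMem hx]
    congr 1
    ext m
    rw [Finset.mem_insert, Finset.mem_filter, Finset.mem_filter]
    have hPx : D'.Pas j x := by
      rcases hxy with ⟨rfl, rfl⟩ | ⟨rfl, rfl⟩ <;> assumption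
    constructor
    · rintro ⟨-, h1, h2⟩
      by_cases hmx : m = x
      · exact Or.inl hmx
      · refine Or.inr ⟨Finset.mem_univ _, h1, ?_⟩
        have hmy : m ≠ y := by
          rintro rfl
          exact lt_irrefl _ h2
        rcases (hP j m).1 h1 with h | ⟨h, -⟩ | ⟨-, h⟩ | ⟨h, -⟩ | ⟨-, h⟩
        · rw [hpos j m h] at h2 ⊢
          rcases hxy with ⟨rfl, rfl⟩ | ⟨rfl, rfl⟩
          · exact (hjj m h).2 h2
          · exact (hjj m h).1 h2
        · exact absurd h hj
        · rcases hxy with ⟨rfl, rfl⟩ | ⟨rfl, rfl⟩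
          · exact absurd h hmx
          · exact absurd h hmy
        · exact absurd h hj'
        · rcases hxy with ⟨rfl, rfl⟩ | ⟨rfl, rfl⟩
          · exact absurd h hmy
          · exact absurd h hmx
    · rintro (rfl | ⟨-, h1, h2⟩)
      · exact ⟨Finset.mem_univ _, hPx, hlt⟩
      · exact ⟨Finset.mem_univ _, h1, h2.trans hlt⟩
  have hne : ∀ a l m, D'.Pas a l → D'.Pas a m → l ≠ m → k a l ≠ k a m := by
    intro a l m hl hm hlm hk
    rcases lt_trichotomy (D'.pos a l) (D'.pos a m) with h | h | h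
    · exact absurd (hV'.2 a l m hl hm h) (by rw [hk]; exact lt_irrefl _)
    · exact hlm (hD'.inj a l m hl hm h)
    · exact absurd (hV'.2 a m l hm hl h) (by rw [hk]; exact lt_irrefl _)
  refine ⟨Fintype.card I, k, hV', hV, hmI, h0, hstep i i' (Or.inl ⟨rfl, rfl⟩),
    hstep i' i (Or.inr ⟨rfl, rfl⟩), ?_, ?_, ?_, ?_⟩
  · intro l hl h
    refine hne i l j (hinc _ _ hl) hPij ?_ (h.trans hmI.symm)
    rintro rfl
    exact hn1 hl
  · intro l hl h
    refine hne i' l j (hinc _ _ hl) hPi'j ?_ (h.trans h0.symm)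
    rintro rfl
    exact hn2 hl
  · intro l hl
    refine hne j l i (hinc _ _ hl) hPji ?_
    rintro rfl
    exact hn1 (r2_pas_symm hl)
  · intro l hl
    refine hne j l i' (hinc _ _ hl) hPji' ?_
    rintro rfl
    exact hn2 (r2_pas_symm hl)

omit [Fintype I] [DecidableEq I] in
theorem r2_gnx_last (σ : Equiv.Perm I) (M : ℕ) (i : I) :
    gnx σ M (i, Fin.last M) = (σ i, 0) := by
  unfold gnx
  rw [dif_neg (by simp)]

omit [Fintype I] [DecidableEq I] in
theorem r2_gnx_succ (σ : Equiv.Perm I) (M : ℕ) (j : I) (r : ℕ) (h : r + 1 ≤ M) :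
    gnx σ M (j, ⟨r, by omega⟩) = (j, ⟨r + 1, by omega⟩) := by
  unfold gnx
  rw [dif_pos (show r + 1 < M + 1 by omega)]

/-- R2 at the vertex between `i` and `σ i`, which is over. -/
theorem Dia.Z_R2_over (σ : Equiv.Perm I) (N : ℕ) (D D' : Dia I) (hD : D.Ok) (hD' : D'.Ok) (i j : I)
    (hi : σ i ≠ i) (hj : j ≠ i) (hj' : j ≠ σ i) (hn1 : ¬ D.Pas i j) (hn2 : ¬ D.Pas (σ i) j)
    (hC : D'.C = insert (i, j) (insert (σ i, j) D.C))
    (hlast : ∀ l, D.Pas i l → D.pos i l < D'.pos i j)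
    (hfirst : ∀ l, D.Pas (σ i) l → D'.pos (σ i) j < D.pos (σ i) l)
    (hpos : ∀ a l, D.Pas a l → D'.pos a l = D.pos a l)
    (hjj : ∀ l, D.Pas j l → (D.pos j l < D'.pos j i ↔ D.pos j l < D'.pos j (σ i)))
    (hth : D'.th = D.th) (hep : ∀ x ∈ D.C, D'.ep x.1 x.2 = D.ep x.1 x.2)
    (hb : ∀ x ∈ D.C, D'.b x.1 x.2 = D.b x.1 x.2) (hep' : D'.ep (σ i) j = - D'.ep i j)
    (hb1 : D'.pos j i < D'.pos j (σ i) → D'.b (σ i) j = D'.b i j - D.th i)
    (hb2 : D'.pos j (σ i) < D'.pos j i → D'.b (σ i) j = D'.b i j - D.th i - D'.ep i j) :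
    D'.Z σ N = D.Z σ N := by
  have hP : ∀ a l, D'.Pas a l ↔ D.Pas a l ∨ (a = i ∧ l = j) ∨ (a = j ∧ l = i) ∨
      (a = σ i ∧ l = j) ∨ (a = j ∧ l = σ i) := by
    intro a l
    unfold Dia.Pas
    rw [hC]
    simp only [Finset.mem_insert, Prod.mk.injEq]
    tauto
  obtain ⟨M, k, hV', hV, hkM, hk0, hs1, hs2, he1, he2, he3, he4⟩ :=
    r2_pieces D D' hD' i (σ i) j hi hj hj' hP hn1 hn2 hlast hfirst hpos hjj
  have hPji : D'.Pas j i := (hP j i).2 (by tauto)
  have hPji' : D'.Pas j (σ i) := (hP j (σ i)).2 (by tauto)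
  rw [← Dia.ZM_eq σ N M D' hD' k hV', ← Dia.ZM_eq σ N M D hD k hV, Dia.ZM_netM, Dia.ZM_netM]
  have hval : D'.C.val = (i, j) ::ₘ (σ i, j) ::ₘ D.C.val := by
    rw [hC, Finset.insert_val_of_notMem, Finset.insert_val_of_notMem]
    · exact fun h => hn2 (Or.inl h)
    · rw [Finset.mem_insert]
      rintro (h | h)
      · exact hi (congrArg Prod.fst h).symm
      · exact hn1 (Or.inl h)
  have hmap : D.C.val.map (D'.rcd M k) = D.C.val.map (D.rcd M k) :=
    Multiset.map_congr rfl fun x hx => by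
      unfold Dia.rcd
      rw [hep x hx, hb x hx]
  have hgg : D'.gg σ M = D.gg σ M := by
    funext y
    unfold Dia.gg
    rw [hth]
  rw [hval, Multiset.map_cons, Multiset.map_cons, hmap, hgg]
  have hg2 : D.gg σ M (σ i, 0) = D.th i := by
    unfold Dia.gg
    rw [if_pos rfl, Equiv.symm_apply_apply]
  have hsgn : D'.ep i j = 1 ∨ D'.ep i j = -1 := hD'.sgn i j (by rw [hC]; exact Finset.mem_insert_self _ _)
  have hM : (Fin.ofNat (M + 1) (k i j) : Fin (M + 1)) = Fin.last M := by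
    rw [hkM, r2_ofNat le_rfl]
    rfl
  have h0 : (Fin.ofNat (M + 1) (k (σ i) j) : Fin (M + 1)) = 0 := by
    rw [hk0]
    rfl
  have hx := hV'.1 j i hPji
  have hy := hV'.1 j (σ i) hPji'
  have E1 : Emp (D.C.val.map (D.rcd M k)) (i, Fin.last M) := r2_emp D M k hV _ he1
  have E2 : Emp (D.C.val.map (D.rcd M k)) (σ i, 0) := r2_emp D M k hV _ he2
  have E3 : Emp (D.C.val.map (D.rcd M k)) (j, ⟨k j i, Nat.lt_succ_of_le hx⟩) :=
    r2_emp D M k hV _ he3
  have E4 : Emp (D.C.val.map (D.rcd M k)) (j, ⟨k j (σ i), Nat.lt_succ_of_le hy⟩) :=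
    r2_emp D M k hV _ he4
  have R1 : D'.rcd M k (i, j) = ⟨(i, Fin.last M), (j, ⟨k j i, Nat.lt_succ_of_le hx⟩), D'.ep i j,
      D'.b i j⟩ := by
    show (⟨(i, Fin.ofNat (M + 1) (k i j)), (j, Fin.ofNat (M + 1) (k j i)), D'.ep i j,
      D'.b i j⟩ : Cr (I × Fin (M + 1))) = _
    rw [hM, r2_ofNat hx]
  have hne : i ≠ σ i := fun h => hi h.symm
  rcases lt_trichotomy (D'.pos j i) (D'.pos j (σ i)) with h | h | h
  · have hs := hs1 h
    have R2 : D'.rcd M k (σ i, j) = ⟨(σ i, 0), (j, ⟨k j (σ i), Nat.lt_succ_of_le hy⟩),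
        -D'.ep i j, D'.b i j - D.gg σ M (σ i, 0)⟩ := by
      show (⟨(σ i, Fin.ofNat (M + 1) (k (σ i) j)), (j, Fin.ofNat (M + 1) (k j (σ i))),
        D'.ep (σ i) j, D'.b (σ i) j⟩ : Cr (I × Fin (M + 1))) = _
      rw [h0, r2_ofNat hy, hep', hb1 h, hg2]
    rw [R1, R2]
    refine netM_R2_over_par N (gnx σ M) (gnx_injective σ M) (D.gg σ M) _ _ _ _ _
      (r2_gnx_last σ M i) ?_ ?_ ?_ ?_ _ _ hsgn
    · rw [r2_gnx_succ σ M j (k j i) (by omega)]
      congr 1
      exact Fin.ext hs.symm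
    · simp only [List.nodup_cons, List.mem_cons, Prod.mk.injEq, List.not_mem_nil, or_false,
        not_or, List.nodup_nil, and_true, not_and, not_false_eq_true]
      refine ⟨⟨fun h' => absurd h' hne, fun h' => absurd h'.symm hj, fun h' => absurd h'.symm hj⟩,
        ⟨fun h' => absurd h'.symm hj', fun h' => absurd h'.symm hj'⟩, fun _ h' => ?_⟩
      have := congrArg Fin.val h'
      simp only at this
      omega
    · intro x hx'
      simp only [List.mem_cons, List.not_mem_nil, or_false] at hx'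
      rcases hx' with rfl | rfl | rfl | rfl <;> assumption
    · unfold Dia.gg
      rw [if_neg]
      intro h'
      have := congrArg Fin.val h'
      simp only [Fin.val_zero] at this
      omega
  · exact absurd (hD'.inj j i (σ i) hPji hPji' h) hne
  · have hs := hs2 h
    have R2 : D'.rcd M k (σ i, j) = ⟨(σ i, 0), (j, ⟨k j (σ i), Nat.lt_succ_of_le hy⟩),
        -D'.ep i j, D'.b i j - D.gg σ M (σ i, 0) - D'.ep i j⟩ := by
      show (⟨(σ i, Fin.ofNat (M + 1) (k (σ i) j)), (j, Fin.ofNat (M + 1) (k j (σ i))),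
        D'.ep (σ i) j, D'.b (σ i) j⟩ : Cr (I × Fin (M + 1))) = _
      rw [h0, r2_ofNat hy, hep', hb2 h, hg2]
    rw [R1, R2]
    refine netM_R2_over_anti N (gnx σ M) (gnx_injective σ M) (D.gg σ M) _ _ _ _ _
      (r2_gnx_last σ M i) ?_ ?_ ?_ ?_ _ _ hsgn
    · rw [r2_gnx_succ σ M j (k j (σ i)) (by omega)]
      congr 1
      exact Fin.ext hs.symm
    · simp only [List.nodup_cons, List.mem_cons, Prod.mk.injEq, List.not_mem_nil, or_false,
        not_or, List.nodup_nil, and_true, not_and, not_false_eq_true]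
      refine ⟨⟨fun h' => absurd h' hne, fun h' => absurd h'.symm hj, fun h' => absurd h'.symm hj⟩,
        ⟨fun h' => absurd h'.symm hj', fun h' => absurd h'.symm hj'⟩, fun _ h' => ?_⟩
      have := congrArg Fin.val h'
      simp only at this
      omega
    · intro x hx'
      simp only [List.mem_cons, List.not_mem_nil, or_false] at hx'
      rcases hx' with rfl | rfl | rfl | rfl <;> assumption
    · unfold Dia.gg
      rw [if_neg]
      intro h'
      have := congrArg Fin.val h'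
      simp only [Fin.val_zero] at this
      omega

/-- R2 at the vertex between `i` and `σ i`, which is under. -/
theorem Dia.Z_R2_under (σ : Equiv.Perm I) (N : ℕ) (D D' : Dia I) (hD : D.Ok) (hD' : D'.Ok) (i j : I)
    (hi : σ i ≠ i) (hj : j ≠ i) (hj' : j ≠ σ i) (hn1 : ¬ D.Pas i j) (hn2 : ¬ D.Pas (σ i) j)
    (hC : D'.C = insert (j, i) (insert (j, σ i) D.C))
    (hlast : ∀ l, D.Pas i l → D.pos i l < D'.pos i j)
    (hfirst : ∀ l, D.Pas (σ i) l → D'.pos (σ i) j < D.pos (σ i) l)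
    (hpos : ∀ a l, D.Pas a l → D'.pos a l = D.pos a l)
    (hjj : ∀ l, D.Pas j l → (D.pos j l < D'.pos j i ↔ D.pos j l < D'.pos j (σ i)))
    (hth : D'.th = D.th) (hep : ∀ x ∈ D.C, D'.ep x.1 x.2 = D.ep x.1 x.2)
    (hb : ∀ x ∈ D.C, D'.b x.1 x.2 = D.b x.1 x.2) (hep' : D'.ep j (σ i) = - D'.ep j i)
    (hb1 : D'.pos j i < D'.pos j (σ i) → D'.b j (σ i) = D'.b j i + D.th i)
    (hb2 : D'.pos j (σ i) < D'.pos j i → D'.b j (σ i) = D'.b j i + D.th i - D'.ep j i) :
    D'.Z σ N = D.Z σ N := by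
  have hP : ∀ a l, D'.Pas a l ↔ D.Pas a l ∨ (a = i ∧ l = j) ∨ (a = j ∧ l = i) ∨
      (a = σ i ∧ l = j) ∨ (a = j ∧ l = σ i) := by
    intro a l
    unfold Dia.Pas
    rw [hC]
    simp only [Finset.mem_insert, Prod.mk.injEq]
    tauto
  obtain ⟨M, k, hV', hV, hkM, hk0, hs1, hs2, he1, he2, he3, he4⟩ :=
    r2_pieces D D' hD' i (σ i) j hi hj hj' hP hn1 hn2 hlast hfirst hpos hjj
  have hPji : D'.Pas j i := (hP j i).2 (by tauto)
  have hPji' : D'.Pas j (σ i) := (hP j (σ i)).2 (by tauto)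
  rw [← Dia.ZM_eq σ N M D' hD' k hV', ← Dia.ZM_eq σ N M D hD k hV, Dia.ZM_netM, Dia.ZM_netM]
  have hval : D'.C.val = (j, i) ::ₘ (j, σ i) ::ₘ D.C.val := by
    rw [hC, Finset.insert_val_of_notMem, Finset.insert_val_of_notMem]
    · exact fun h => hn2 (Or.inr h)
    · rw [Finset.mem_insert]
      rintro (h | h)
      · exact hi (congrArg Prod.snd h).symm
      · exact hn1 (Or.inr h)
  have hmap : D.C.val.map (D'.rcd M k) = D.C.val.map (D.rcd M k) :=
    Multiset.map_congr rfl fun x hx => by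
      unfold Dia.rcd
      rw [hep x hx, hb x hx]
  have hgg : D'.gg σ M = D.gg σ M := by
    funext y
    unfold Dia.gg
    rw [hth]
  rw [hval, Multiset.map_cons, Multiset.map_cons, hmap, hgg]
  have hg2 : D.gg σ M (σ i, 0) = D.th i := by
    unfold Dia.gg
    rw [if_pos rfl, Equiv.symm_apply_apply]
  have hsgn : D'.ep j i = 1 ∨ D'.ep j i = -1 := hD'.sgn j i (by rw [hC]; exact Finset.mem_insert_self _ _)
  have hM : (Fin.ofNat (M + 1) (k i j) : Fin (M + 1)) = Fin.last M := by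
    rw [hkM, r2_ofNat le_rfl]
    rfl
  have h0 : (Fin.ofNat (M + 1) (k (σ i) j) : Fin (M + 1)) = 0 := by
    rw [hk0]
    rfl
  have hx := hV'.1 j i hPji
  have hy := hV'.1 j (σ i) hPji'
  have E1 : Emp (D.C.val.map (D.rcd M k)) (i, Fin.last M) := r2_emp D M k hV _ he1
  have E2 : Emp (D.C.val.map (D.rcd M k)) (σ i, 0) := r2_emp D M k hV _ he2
  have E3 : Emp (D.C.val.map (D.rcd M k)) (j, ⟨k j i, Nat.lt_succ_of_le hx⟩) :=
    r2_emp D M k hV _ he3
  have E4 : Emp (D.C.val.map (D.rcd M k)) (j, ⟨k j (σ i), Nat.lt_succ_of_le hy⟩) :=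
    r2_emp D M k hV _ he4
  have R1 : D'.rcd M k (j, i) = ⟨(j, ⟨k j i, Nat.lt_succ_of_le hx⟩), (i, Fin.last M), D'.ep j i,
      D'.b j i⟩ := by
    show (⟨(j, Fin.ofNat (M + 1) (k j i)), (i, Fin.ofNat (M + 1) (k i j)), D'.ep j i,
      D'.b j i⟩ : Cr (I × Fin (M + 1))) = _
    rw [hM, r2_ofNat hx]
  have hne : i ≠ σ i := fun h => hi h.symm
  rcases lt_trichotomy (D'.pos j i) (D'.pos j (σ i)) with h | h | h
  · have hs := hs1 h
    have R2 : D'.rcd M k (j, σ i) = ⟨(j, ⟨k j (σ i), Nat.lt_succ_of_le hy⟩), (σ i, 0),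
        -D'.ep j i, D'.b j i + D.gg σ M (σ i, 0)⟩ := by
      show (⟨(j, Fin.ofNat (M + 1) (k j (σ i))), (σ i, Fin.ofNat (M + 1) (k (σ i) j)),
        D'.ep j (σ i), D'.b j (σ i)⟩ : Cr (I × Fin (M + 1))) = _
      rw [h0, r2_ofNat hy, hep', hb1 h, hg2]
    rw [R1, R2]
    refine netM_R2_under_par N (gnx σ M) (gnx_injective σ M) (D.gg σ M) _ _ _ _ _
      (r2_gnx_last σ M i) ?_ ?_ ?_ ?_ _ _ hsgn
    · rw [r2_gnx_succ σ M j (k j i) (by omega)]
      congr 1
      exact Fin.ext hs.symm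
    · simp only [List.nodup_cons, List.mem_cons, Prod.mk.injEq, List.not_mem_nil, or_false,
        not_or, List.nodup_nil, and_true, not_and, not_false_eq_true]
      refine ⟨⟨fun h' => absurd h' hne, fun h' => absurd h'.symm hj, fun h' => absurd h'.symm hj⟩,
        ⟨fun h' => absurd h'.symm hj', fun h' => absurd h'.symm hj'⟩, fun _ h' => ?_⟩
      have := congrArg Fin.val h'
      simp only at this
      omega
    · intro x hx'
      simp only [List.mem_cons, List.not_mem_nil, or_false] at hx'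
      rcases hx' with rfl | rfl | rfl | rfl <;> assumption
    · unfold Dia.gg
      rw [if_neg]
      intro h'
      have := congrArg Fin.val h'
      simp only [Fin.val_zero] at this
      omega
  · exact absurd (hD'.inj j i (σ i) hPji hPji' h) hne
  · have hs := hs2 h
    have R2 : D'.rcd M k (j, σ i) = ⟨(j, ⟨k j (σ i), Nat.lt_succ_of_le hy⟩), (σ i, 0),
        -D'.ep j i, D'.b j i + D.gg σ M (σ i, 0) - D'.ep j i⟩ := by
      show (⟨(j, Fin.ofNat (M + 1) (k j (σ i))), (σ i, Fin.ofNat (M + 1) (k (σ i) j)),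
        D'.ep j (σ i), D'.b j (σ i)⟩ : Cr (I × Fin (M + 1))) = _
      rw [h0, r2_ofNat hy, hep', hb2 h, hg2]
    rw [R1, R2]
    refine netM_R2_under_anti N (gnx σ M) (gnx_injective σ M) (D.gg σ M) _ _ _ _ _
      (r2_gnx_last σ M i) ?_ ?_ ?_ ?_ _ _ hsgn
    · rw [r2_gnx_succ σ M j (k j (σ i)) (by omega)]
      congr 1
      exact Fin.ext hs.symm
    · simp only [List.nodup_cons, List.mem_cons, Prod.mk.injEq, List.not_mem_nil, or_false,
        not_or, List.nodup_nil, and_true, not_and, not_false_eq_true]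
      refine ⟨⟨fun h' => absurd h' hne, fun h' => absurd h'.symm hj, fun h' => absurd h'.symm hj⟩,
        ⟨fun h' => absurd h'.symm hj', fun h' => absurd h'.symm hj'⟩, fun _ h' => ?_⟩
      have := congrArg Fin.val h'
      simp only at this
      omega
    · intro x hx'
      simp only [List.mem_cons, List.not_mem_nil, or_false] at hx'
      rcases hx' with rfl | rfl | rfl | rfl <;> assumption
    · unfold Dia.gg
      rw [if_neg]
      intro h'
      have := congrArg Fin.val h'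
      simp only [Fin.val_zero] at this
      omega

end Pool.Agent.Lib.MP_ca0971_gt.OT
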