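import Pool.Agent.Lib.MP_ca0971_gt.OT.Net.Word
import Pool.Agent.Lib.MP_ca0971_gt.OT.Net.Moves

/-! # Project OT, part A: Dia.Z_R3 -/

set_option autoImplicit false

namespace Pool.Agent.Lib.MP_ca0971_gt.OT

open Finset

section R3Ranks

variable {I : Type} [Fintype I] {D D' : Dia I}

theorem r3_rk_card (D : Dia I) (i j : I) : D.rk i j < Fintype.card I := by
  classical
  unfold Dia.rk
  exact Finset.card_lt_univ_of_notMem (x := j) (by simp)

theorem r3_rk_lt {i j l : I} (hj : D.Pas i j) (h : D.pos i j < D.pos i l) :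
    D.rk i j < D.rk i l := by
  classical
  unfold Dia.rk
  refine Finset.card_lt_card ⟨fun k hk => ?_, fun hsub => ?_⟩
  · rw [Finset.mem_filter] at hk ⊢
    exact ⟨hk.1, hk.2.1, hk.2.2.trans h⟩
  · have := hsub (Finset.mem_filter.2 ⟨Finset.mem_univ j, hj, h⟩)
    rw [Finset.mem_filter] at this
    exact lt_irrefl _ this.2.2

theorem r3_rk_inj (hD : D.Ok) {i j l : I} (hj : D.Pas i j) (hl : D.Pas i l)
    (h : D.rk i j = D.rk i l) : j = l := by
  rcases lt_trichotomy (D.pos i j) (D.pos i l) with h1 | h1 | h1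
  · exact absurd h (r3_rk_lt hj h1).ne
  · exact hD.inj i j l hj hl h1
  · exact absurd h (r3_rk_lt hl h1).ne'

theorem r3_rk_succ (D : Dia I) {a x y : I} (hx : D.Pas a x) (hxy : D.pos a x < D.pos a y)
    (h : ∀ k, D.Pas a k → k ≠ x → k ≠ y → (D.pos a k < D.pos a x ↔ D.pos a k < D.pos a y)) :
    D.rk a y = D.rk a x + 1 := by
  classical
  unfold Dia.rk
  rw [← Finset.card_insert_of_notMem (a := x) (by simp)]
  congr 1
  ext k
  rw [Finset.mem_filter, Finset.mem_insert, Finset.mem_filter]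
  constructor
  · rintro ⟨-, hk, hlt⟩
    by_cases hkx : k = x
    · exact Or.inl hkx
    · have hky : k ≠ y := by
        rintro rfl
        exact lt_irrefl _ hlt
      exact Or.inr ⟨Finset.mem_univ _, hk, (h k hk hkx hky).2 hlt⟩
  · rintro (rfl | ⟨-, hk, hlt⟩)
    · exact ⟨Finset.mem_univ _, hx, hxy⟩
    · exact ⟨Finset.mem_univ _, hk, hlt.trans hxy⟩

/-- one edge of the triangle, the first passage is `x` -/
theorem r3_edge {a x y : I} (hP : ∀ k, D'.Pas a k ↔ D.Pas a k) (hx : D.Pas a x) (hy : D.Pas a y)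
    (hk : ∀ k, D.Pas a k → k ≠ x → k ≠ y → D'.pos a k = D.pos a k)
    (hadj : ∀ k u v, D.Pas a k → k ≠ x → k ≠ y → (u = x ∨ u = y) → (v = x ∨ v = y) →
      (D.pos a k < D.pos a u ↔ D.pos a k < D'.pos a v))
    (h : D.pos a x < D.pos a y) (h' : D'.pos a y < D'.pos a x) :
    D.rk a y = D.rk a x + 1 ∧ D'.rk a y = D.rk a x ∧ D'.rk a x = D.rk a x + 1 := by
  classical
  have h1 : D'.rk a y = D.rk a x := by
    unfold Dia.rk
    congr 1
    ext k
    rw [Finset.mem_filter, Finset.mem_filter, hP]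
    refine and_congr Iff.rfl (and_congr_right fun hka => ?_)
    by_cases hkx : k = x
    · subst hkx
      exact ⟨fun hh => absurd hh h'.not_gt, fun hh => absurd hh (lt_irrefl _)⟩
    by_cases hky : k = y
    · subst hky
      exact ⟨fun hh => absurd hh (lt_irrefl _), fun hh => absurd hh h.not_gt⟩
    rw [hk k hka hkx hky]
    exact (hadj k x y hka hkx hky (Or.inl rfl) (Or.inr rfl)).symm
  refine ⟨r3_rk_succ D hx h fun k hka hkx hky => ?_, h1, ?_⟩
  · rw [hadj k x x hka hkx hky (Or.inl rfl) (Or.inl rfl),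
      hadj k y x hka hkx hky (Or.inr rfl) (Or.inl rfl)]
  · rw [← h1]
    refine r3_rk_succ D' ((hP y).2 hy) h' fun k hka hky hkx => ?_
    have hka' := (hP k).1 hka
    rw [hk k hka' hkx hky, ← hadj k x y hka' hkx hky (Or.inl rfl) (Or.inr rfl),
      ← hadj k x x hka' hkx hky (Or.inl rfl) (Or.inl rfl)]

/-- one edge of the triangle -/
theorem r3_edge' {a x y : I} (hP : ∀ k, D'.Pas a k ↔ D.Pas a k) (hx : D.Pas a x)
    (hy : D.Pas a y) (hk : ∀ k, D.Pas a k → k ≠ x → k ≠ y → D'.pos a k = D.pos a k)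
    (hadj : ∀ k u v, D.Pas a k → k ≠ x → k ≠ y → (u = x ∨ u = y) → (v = x ∨ v = y) →
      (D.pos a k < D.pos a u ↔ D.pos a k < D'.pos a v)) (c : Bool)
    (h1 : c = true → D.pos a x < D.pos a y ∧ D'.pos a y < D'.pos a x)
    (h2 : c = false → D.pos a y < D.pos a x ∧ D'.pos a x < D'.pos a y) :
    ∃ R : ℕ, R + 1 < Fintype.card I ∧ D.rk a x = cond c R (R + 1) ∧
      D.rk a y = cond c (R + 1) R ∧ D'.rk a x = cond (!c) R (R + 1) ∧
      D'.rk a y = cond (!c) (R + 1) R := by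
  cases c with
  | true =>
    obtain ⟨h3, h4⟩ := h1 rfl
    obtain ⟨h5, h6, h7⟩ := r3_edge hP hx hy hk hadj h3 h4
    exact ⟨D.rk a x, h5 ▸ r3_rk_card D a y, rfl, h5, h7, h6⟩
  | false =>
    obtain ⟨h3, h4⟩ := h2 rfl
    obtain ⟨h5, h6, h7⟩ := r3_edge (D := D) (D' := D') hP hy hx
      (fun k hka h1 h2 => hk k hka h2 h1)
      (fun k u v hka h1 h2 hu hv => hadj k u v hka h2 h1 hu.symm hv.symm) h3 h4
    exact ⟨D.rk a y, h5 ▸ r3_rk_card D a x, h5, rfl, h6, h7⟩

end R3Ranks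

variable {I : Type} [Fintype I] [DecidableEq I]

/-- R3 for `t` over `m` over `b`: the two orders on each of the three edges are exchanged. -/
theorem Dia.Z_R3 (σ : Equiv.Perm I) (N : ℕ) (D D' : Dia I) (hD : D.Ok) (hD' : D'.Ok) (t m b : I)
    (hC : D'.C = D.C) (hth : D'.th = D.th) (hep : ∀ i j, (i, j) ∈ D.C → D'.ep i j = D.ep i j)
    (hb : ∀ i j, (i, j) ∈ D.C → D'.b i j = D.b i j) (htm : (t, m) ∈ D.C) (htb : (t, b) ∈ D.C)
    (hmb : (m, b) ∈ D.C)
    (hpos : ∀ a l, D.Pas a l → ¬ ((a = t ∨ a = m ∨ a = b) ∧ (l = t ∨ l = m ∨ l = b)) →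
      D'.pos a l = D.pos a l)
    (hadj : ∀ a l x y, (a = t ∨ a = m ∨ a = b) → D.Pas a l → l ≠ t → l ≠ m → l ≠ b →
      (x = t ∨ x = m ∨ x = b) → (y = t ∨ y = m ∨ y = b) → x ≠ a → y ≠ a →
      (D.pos a l < D.pos a x ↔ D.pos a l < D'.pos a y))
    (s : ℝ) (hs : s = 1 ∨ s = -1)
    (ht : D.pos t b < D.pos t m ↔ 0 < s * D.ep t m * D.ep t b)
    (hm : D.pos m b < D.pos m t ↔ 0 < s * D.ep t m * D.ep m b)
    (hbo : D.pos b m < D.pos b t ↔ 0 < s * D.ep t b * D.ep m b)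
    (ht' : D'.pos t b < D'.pos t m ↔ s * D.ep t m * D.ep t b < 0)
    (hm' : D'.pos m b < D'.pos m t ↔ s * D.ep t m * D.ep m b < 0)
    (hbo' : D'.pos b m < D'.pos b t ↔ s * D.ep t b * D.ep m b < 0)
    (hang : D.b t b = D.b t m + D.b m b +
      (if D.ep t m = 1 ∧ D.ep m b = 1 ∧ D.ep t b = -1 then -1
        else if D.ep t m = -1 ∧ D.ep m b = -1 ∧ D.ep t b = 1 then 1 else 0)) :
    D'.Z σ N = D.Z σ N := by
  classical
  have ntm : t ≠ m := by rintro rfl; exact hD.irr _ htm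
  have ntb : t ≠ b := by rintro rfl; exact hD.irr _ htb
  have nmb : m ≠ b := by rintro rfl; exact hD.irr _ hmb
  have hP : ∀ a k, D'.Pas a k ↔ D.Pas a k := fun a k => by
    unfold Dia.Pas
    rw [hC]
  have hirr : ∀ a k, D.Pas a k → k ≠ a := by
    rintro a k hk rfl
    rcases hk with hk | hk <;> exact hD.irr _ hk
  have ptm : D.Pas t m := Or.inl htm
  have ptb : D.Pas t b := Or.inl htb
  have pmt : D.Pas m t := Or.inr htm
  have pmb : D.Pas m b := Or.inl hmb
  have pbt : D.Pas b t := Or.inr htb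
  have pbm : D.Pas b m := Or.inr hmb
  have e12 := hD.sgn t m htm
  have e13 := hD.sgn t b htb
  have e23 := hD.sgn m b hmb
  -- signs of the three products
  have key : ∀ x y z : ℝ, (x = 1 ∨ x = -1) → (y = 1 ∨ y = -1) → (z = 1 ∨ z = -1) →
      (x * y * z = 1 ∨ x * y * z = -1) := by
    rintro x y z (rfl | rfl) (rfl | rfl) (rfl | rfl) <;> norm_num
  have ord : ∀ (P P' : ℝ × ℝ) (q : ℝ), (q = 1 ∨ q = -1) → P.1 ≠ P.2 → P'.1 ≠ P'.2 →
      (P.2 < P.1 ↔ 0 < q) → (P'.2 < P'.1 ↔ q < 0) →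
      (decide (q < 0) = true → P.1 < P.2 ∧ P'.2 < P'.1) ∧
      (decide (q < 0) = false → P.2 < P.1 ∧ P'.1 < P'.2) := by
    intro P P' q hq n1 n2 h1 h2
    constructor
    · intro h
      have hq0 : q < 0 := of_decide_eq_true h
      exact ⟨lt_of_le_of_ne (not_lt.1 fun h3 => absurd (h1.1 h3) hq0.not_gt) n1, h2.2 hq0⟩
    · intro h
      have hq0 : ¬ q < 0 := of_decide_eq_false h
      have hq1 : 0 < q := by
        rcases hq with rfl | rfl
        · norm_num
        · norm_num at hq0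
      exact ⟨h1.2 hq1, lt_of_le_of_ne (not_lt.1 fun h3 => hq0 (h2.1 h3)) n2⟩
  have dne : ∀ (a x y : I), D.Pas a x → D.Pas a y → x ≠ y → D.pos a x ≠ D.pos a y :=
    fun a x y hx hy hxy h => hxy (hD.inj a x y hx hy h)
  have dne' : ∀ (a x y : I), D.Pas a x → D.Pas a y → x ≠ y → D'.pos a x ≠ D'.pos a y :=
    fun a x y hx hy hxy h => hxy (hD'.inj a x y ((hP _ _).2 hx) ((hP _ _).2 hy) h)
  set tt : Bool := decide (s * D.ep t m * D.ep t b < 0) with htt
  set mm : Bool := decide (s * D.ep t m * D.ep m b < 0) with hmm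
  set bb : Bool := decide (s * D.ep t b * D.ep m b < 0) with hbb
  obtain ⟨ot1, ot2⟩ := ord (D.pos t m, D.pos t b) (D'.pos t m, D'.pos t b) _ (key _ _ _ hs e12 e13)
    (dne t m b ptm ptb nmb) (dne' t m b ptm ptb nmb) ht ht'
  obtain ⟨om1, om2⟩ := ord (D.pos m t, D.pos m b) (D'.pos m t, D'.pos m b) _ (key _ _ _ hs e12 e23)
    (dne m t b pmt pmb ntb) (dne' m t b pmt pmb ntb) hm hm'
  obtain ⟨ob1, ob2⟩ := ord (D.pos b t, D.pos b m) (D'.pos b t, D'.pos b m) _ (key _ _ _ hs e13 e23)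
    (dne b t m pbt pbm ntm) (dne' b t m pbt pbm ntm) hbo hbo'
  obtain ⟨Rt, bt, t1, t2, t3, t4⟩ := r3_edge' (D := D) (D' := D') (a := t) (x := m) (y := b)
    (hP t) ptm ptb
    (fun k hk h1 h2 => hpos t k hk fun h => by
      rcases h.2 with h | h | h
      · exact hirr _ _ hk h
      · exact h1 h
      · exact h2 h)
    (fun k u v hk h1 h2 hu hv => hadj t k u v (Or.inl rfl) hk (hirr _ _ hk) h1 h2 (Or.inr hu)
      (Or.inr hv) (by rcases hu with rfl | rfl; exacts [ntm.symm, ntb.symm])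
      (by rcases hv with rfl | rfl; exacts [ntm.symm, ntb.symm])) tt ot1 ot2
  obtain ⟨Rm, bm, m1, m2, m3, m4⟩ := r3_edge' (D := D) (D' := D') (a := m) (x := t) (y := b)
    (hP m) pmt pmb
    (fun k hk h1 h2 => hpos m k hk fun h => by
      rcases h.2 with h | h | h
      · exact h1 h
      · exact hirr _ _ hk h
      · exact h2 h)
    (fun k u v hk h1 h2 hu hv => hadj m k u v (Or.inr (Or.inl rfl)) hk h1 (hirr _ _ hk) h2
      (by rcases hu with rfl | rfl; exacts [Or.inl rfl, Or.inr (Or.inr rfl)])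
      (by rcases hv with rfl | rfl; exacts [Or.inl rfl, Or.inr (Or.inr rfl)])
      (by rcases hu with rfl | rfl; exacts [ntm, nmb.symm])
      (by rcases hv with rfl | rfl; exacts [ntm, nmb.symm])) mm om1 om2
  obtain ⟨Rb, bbb, b1, b2, b3, b4⟩ := r3_edge' (D := D) (D' := D') (a := b) (x := t) (y := m)
    (hP b) pbt pbm
    (fun k hk h1 h2 => hpos b k hk fun h => by
      rcases h.2 with h | h | h
      · exact h1 h
      · exact h2 h
      · exact hirr _ _ hk h)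
    (fun k u v hk h1 h2 hu hv => hadj b k u v (Or.inr (Or.inr rfl)) hk h1 h2 (hirr _ _ hk)
      (by rcases hu with rfl | rfl; exacts [Or.inl rfl, Or.inr (Or.inl rfl)])
      (by rcases hv with rfl | rfl; exacts [Or.inl rfl, Or.inr (Or.inl rfl)])
      (by rcases hu with rfl | rfl; exacts [ntb, nmb])
      (by rcases hv with rfl | rfl; exacts [ntb, nmb])) bb ob1 ob2
  -- ranks of the other passages
  have hother : ∀ a l, D.Pas a l → ¬ ((a = t ∨ a = m ∨ a = b) ∧ (l = t ∨ l = m ∨ l = b)) →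
      D'.rk a l = D.rk a l := by
    intro a l hal hn
    unfold Dia.rk
    congr 1
    ext k
    rw [Finset.mem_filter, Finset.mem_filter, hP]
    refine and_congr Iff.rfl (and_congr_right fun hka => ?_)
    rw [hpos a l hal hn]
    by_cases hk : (a = t ∨ a = m ∨ a = b) ∧ (k = t ∨ k = m ∨ k = b)
    · have hl : ¬ (l = t ∨ l = m ∨ l = b) := fun h => hn ⟨hk.1, h⟩
      have hl1 : l ≠ t := fun h => hl (Or.inl h)
      have hl2 : l ≠ m := fun h => hl (Or.inr (Or.inl h))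
      have hl3 : l ≠ b := fun h => hl (Or.inr (Or.inr h))
      have hkl : k ≠ l := fun h => hl (h ▸ hk.2)
      have h1 := hadj a l k k hk.1 hal hl1 hl2 hl3 hk.2 hk.2 (hirr _ _ hka) (hirr _ _ hka)
      have h2 := dne a k l hka hal hkl
      have h3 := dne' a k l hka hal hkl
      rw [hpos a l hal hn] at h3
      constructor
      · intro h
        exact lt_of_le_of_ne (not_lt.1 fun h4 => absurd (h1.1 h4) h.not_gt) h2
      · intro h
        exact lt_of_le_of_ne (not_lt.1 fun h4 => absurd (h1.2 h4) h.not_gt) h3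
    · rw [hpos a k hka hk]
  -- the crossings
  set F : Finset (I × I) := ((D.C.erase (t, m)).erase (t, b)).erase (m, b) with hF
  have hFC : ∀ x ∈ F, x ∈ D.C ∧ x ≠ (t, m) ∧ x ≠ (t, b) ∧ x ≠ (m, b) := by
    intro x hx
    rw [hF, Finset.mem_erase, Finset.mem_erase, Finset.mem_erase] at hx
    exact ⟨hx.2.2.2, hx.2.2.1, hx.2.1, hx.1⟩
  have hFn : ∀ x ∈ F, ¬ ((x.1 = t ∨ x.1 = m ∨ x.1 = b) ∧ (x.2 = t ∨ x.2 = m ∨ x.2 = b)) := by
    rintro ⟨i, j⟩ hx ⟨h1, h2⟩
    obtain ⟨h3, h4, h5, h6⟩ := hFC _ hx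
    simp only at h1 h2
    rcases h1 with rfl | rfl | rfl <;> rcases h2 with rfl | rfl | rfl
    · exact hD.irr _ h3
    · exact h4 rfl
    · exact h5 rfl
    · exact hD.asym _ _ htm h3
    · exact hD.irr _ h3
    · exact h6 rfl
    · exact hD.asym _ _ htb h3
    · exact hD.asym _ _ hmb h3
    · exact hD.irr _ h3
  have hval : D.C.val = (t, m) ::ₘ (t, b) ::ₘ (m, b) ::ₘ F.val := by
    have h1 : (m, b) ∈ (D.C.erase (t, m)).erase (t, b) := by
      rw [Finset.mem_erase, Finset.mem_erase]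
      refine ⟨fun h => ntm (congrArg Prod.fst h).symm, fun h => ntm (congrArg Prod.fst h).symm, hmb⟩
    have h2 : (t, b) ∈ D.C.erase (t, m) := by
      rw [Finset.mem_erase]
      exact ⟨fun h => nmb (congrArg Prod.snd h).symm, htb⟩
    rw [hF, Finset.erase_val, Multiset.cons_erase h1, Finset.erase_val, Multiset.cons_erase h2,
      Finset.erase_val, Multiset.cons_erase htm]
  set K : ℕ := Fintype.card I with hK
  have hmap : ∀ (Dd : Dia I), Dd.C = D.C → D.C.val.map (Dd.rcd K Dd.rk)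
      = (Dd.rcd K Dd.rk (t, m)) ::ₘ (Dd.rcd K Dd.rk (t, b)) ::ₘ (Dd.rcd K Dd.rk (m, b)) ::ₘ
        F.val.map (Dd.rcd K Dd.rk) := by
    intro Dd _
    rw [hval, Multiset.map_cons, Multiset.map_cons, Multiset.map_cons]
  have hrest : F.val.map (D'.rcd K D'.rk) = F.val.map (D.rcd K D.rk) := by
    refine Multiset.map_congr rfl fun x hx => ?_
    have hx' : x ∈ F := hx
    obtain ⟨i, j⟩ := x
    have h1 := hFn _ hx'
    have h2 := (hFC _ hx').1
    unfold Dia.rcd
    rw [hother i j (Or.inl h2) h1, hother j i (Or.inr h2) (fun h => h1 ⟨h.2, h.1⟩), hep i j h2,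
      hb i j h2]
  have hgg : D'.gg σ K = D.gg σ K := by
    unfold Dia.gg
    rw [hth]
  have hE : ∀ (a x y : I) (R : ℕ) (c : Bool), (a = t ∨ a = m ∨ a = b) → D.Pas a x → D.Pas a y →
      (x = t ∨ x = m ∨ x = b) → (y = t ∨ y = m ∨ y = b) →
      D.rk a x = cond c R (R + 1) → D.rk a y = cond c (R + 1) R → R + 1 < K →
      ∀ r : ℕ, (r = R ∨ r = R + 1) → Emp (F.val.map (D.rcd K D.rk)) (a, Fin.ofNat (K + 1) r) := by
    intro a x y R c ha hx hy hx3 hy3 h1 h2 hR r hr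
    have hxy : D.rk a x = r ∨ D.rk a y = r := by
      cases c with
      | true =>
        rcases hr with rfl | rfl
        · exact Or.inl h1
        · exact Or.inr h2
      | false =>
        rcases hr with rfl | rfl
        · exact Or.inr h2
        · exact Or.inl h1
    have hrK : r < K + 1 := by omega
    have hcontra : ∀ l, D.Pas a l → ¬ (l = t ∨ l = m ∨ l = b) →
        (Fin.ofNat (K + 1) (D.rk a l)) ≠ Fin.ofNat (K + 1) r := by
      intro l hl hl3 h
      have h3 : D.rk a l < K := r3_rk_card D a l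
      have h4 := congrArg Fin.val h
      simp only [Fin.ofNat] at h4
      rw [Nat.mod_eq_of_lt (by omega), Nat.mod_eq_of_lt hrK] at h4
      rcases hxy with h5 | h5
      · exact hl3 (r3_rk_inj hD hl hx (h4.trans h5.symm) ▸ hx3)
      · exact hl3 (r3_rk_inj hD hl hy (h4.trans h5.symm) ▸ hy3)
    intro c hc
    rw [Multiset.mem_map] at hc
    obtain ⟨⟨i, j⟩, hij, rfl⟩ := hc
    have hij' : (i, j) ∈ F := hij
    have h6 := hFn _ hij'
    have h7 := (hFC _ hij').1
    constructor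
    · intro h
      have h8 : i = a := congrArg Prod.fst h
      subst h8
      exact hcontra j (Or.inl h7) (fun h9 => h6 ⟨ha, h9⟩) (congrArg Prod.snd h)
    · intro h
      have h8 : j = a := congrArg Prod.fst h
      subst h8
      exact hcontra i (Or.inr h7) (fun h9 => h6 ⟨h9, ha⟩) (congrArg Prod.snd h)
  have hnx : ∀ (a : I) (R : ℕ), R + 1 < K →
      gnx σ K (a, Fin.ofNat (K + 1) R) = (a, Fin.ofNat (K + 1) (R + 1)) := by
    intro a R hR
    have hv : (Fin.ofNat (K + 1) R).val = R := by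
      simp only [Fin.ofNat]
      exact Nat.mod_eq_of_lt (by omega)
    unfold gnx
    rw [dif_pos (by simp only [hv]; omega)]
    congr 1
    refine Fin.ext ?_
    simp only [hv]
    simp only [Fin.ofNat]
    exact (Nat.mod_eq_of_lt (by omega)).symm
  have hg0 : ∀ (a : I) (R : ℕ), R + 1 < K → D.gg σ K (a, Fin.ofNat (K + 1) (R + 1)) = 0 := by
    intro a R hR
    unfold Dia.gg
    refine if_neg fun h => ?_
    have h4 := congrArg Fin.val h
    simp only [Fin.ofNat] at h4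
    rw [Nat.mod_eq_of_lt (by omega)] at h4
    simp at h4
  have hnn : ∀ (R : ℕ), R + 1 < K → Fin.ofNat (K + 1) R ≠ Fin.ofNat (K + 1) (R + 1) := by
    intro R hR h
    have h4 := congrArg Fin.val h
    simp only [Fin.ofNat] at h4
    rw [Nat.mod_eq_of_lt (by omega), Nat.mod_eq_of_lt (by omega)] at h4
    omega
  have hcond : ∀ (a : I) (c : Bool) (x y : ℕ),
      ((a, Fin.ofNat (K + 1) (cond c x y)) : I × Fin (K + 1))
        = cond c (a, Fin.ofNat (K + 1) x) (a, Fin.ofNat (K + 1) y) := by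
    intro a c x y
    cases c <;> rfl
  have hZ : ∀ (Dd : Dia I), Dd.Z σ N = netM N (gnx σ K) (Dd.gg σ K) (Dd.C.val.map (Dd.rcd K Dd.rk)) :=
    fun Dd => Dia.ZM_netM Dd σ N K Dd.rk
  have hR3 := netM_R3 N (gnx σ K) (gnx_injective σ K) (D.gg σ K) (F.val.map (D.rcd K D.rk))
    (t, Fin.ofNat (K + 1) Rt) (t, Fin.ofNat (K + 1) (Rt + 1)) (m, Fin.ofNat (K + 1) Rm)
    (m, Fin.ofNat (K + 1) (Rm + 1)) (b, Fin.ofNat (K + 1) Rb) (b, Fin.ofNat (K + 1) (Rb + 1))
    (hnx t Rt bt) (hnx m Rm bm) (hnx b Rb bbb)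
    (by
      simp only [List.nodup_cons, List.mem_cons, List.not_mem_nil, Prod.mk.injEq, ntm, ntb, nmb,
        false_and, not_false_eq_true, true_and, and_true, List.nodup_nil, or_self,
        hnn Rt bt, hnn Rm bm, hnn Rb bbb])
    (by
      intro x hx
      simp only [List.mem_cons, List.not_mem_nil, or_false] at hx
      rcases hx with rfl | rfl | rfl | rfl | rfl | rfl
      · exact hE t m b Rt tt (Or.inl rfl) ptm ptb (Or.inr (Or.inl rfl)) (Or.inr (Or.inr rfl))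
          t1 t2 bt _ (Or.inl rfl)
      · exact hE t m b Rt tt (Or.inl rfl) ptm ptb (Or.inr (Or.inl rfl)) (Or.inr (Or.inr rfl))
          t1 t2 bt _ (Or.inr rfl)
      · exact hE m t b Rm mm (Or.inr (Or.inl rfl)) pmt pmb (Or.inl rfl) (Or.inr (Or.inr rfl))
          m1 m2 bm _ (Or.inl rfl)
      · exact hE m t b Rm mm (Or.inr (Or.inl rfl)) pmt pmb (Or.inl rfl) (Or.inr (Or.inr rfl))
          m1 m2 bm _ (Or.inr rfl)
      · exact hE b t m Rb bb (Or.inr (Or.inr rfl)) pbt pbm (Or.inl rfl) (Or.inr (Or.inl rfl))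
          b1 b2 bbb _ (Or.inl rfl)
      · exact hE b t m Rb bb (Or.inr (Or.inr rfl)) pbt pbm (Or.inl rfl) (Or.inr (Or.inl rfl))
          b1 b2 bbb _ (Or.inr rfl))
    (hg0 t Rt bt) (hg0 m Rm bm) (hg0 b Rb bbb) (D.ep t m) (D.b t m) (D.ep t b) (D.b t b) (D.ep m b)
    (D.b m b) s hs e12 e13 e23 tt mm bb (by rw [htt]; exact decide_eq_true_iff)
    (by rw [hmm]; exact decide_eq_true_iff) (by rw [hbb]; exact decide_eq_true_iff) hang
  rw [hZ D, hZ D', hC, hgg, hmap D rfl, hmap D' hC, hrest]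
  have hx1 : D.rcd K D.rk (t, m) ::ₘ D.rcd K D.rk (t, b) ::ₘ D.rcd K D.rk (m, b) ::ₘ
      F.val.map (D.rcd K D.rk)
      = triCr (t, Fin.ofNat (K + 1) Rt) (t, Fin.ofNat (K + 1) (Rt + 1)) (m, Fin.ofNat (K + 1) Rm)
        (m, Fin.ofNat (K + 1) (Rm + 1)) (b, Fin.ofNat (K + 1) Rb) (b, Fin.ofNat (K + 1) (Rb + 1))
        tt mm bb (D.ep t m) (D.b t m) (D.ep t b) (D.b t b) (D.ep m b) (D.b m b)
        + F.val.map (D.rcd K D.rk) := by
    unfold triCr Dia.rcd
    simp only [t1, t2, m1, m2, b1, b2, hcond, Multiset.insert_eq_cons, Multiset.cons_add,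
      Multiset.singleton_add]
  have hx2 : D'.rcd K D'.rk (t, m) ::ₘ D'.rcd K D'.rk (t, b) ::ₘ D'.rcd K D'.rk (m, b) ::ₘ
      F.val.map (D.rcd K D.rk)
      = triCr (t, Fin.ofNat (K + 1) Rt) (t, Fin.ofNat (K + 1) (Rt + 1)) (m, Fin.ofNat (K + 1) Rm)
        (m, Fin.ofNat (K + 1) (Rm + 1)) (b, Fin.ofNat (K + 1) Rb) (b, Fin.ofNat (K + 1) (Rb + 1))
        (!tt) (!mm) (!bb) (D.ep t m) (D.b t m) (D.ep t b) (D.b t b) (D.ep m b) (D.b m b)
        + F.val.map (D.rcd K D.rk) := by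
    unfold triCr Dia.rcd
    simp only [t3, t4, m3, m4, b3, b4, hcond, Multiset.insert_eq_cons, Multiset.cons_add,
      Multiset.singleton_add, hep t m htm, hep t b htb, hep m b hmb, hb t m htm, hb t b htb,
      hb m b hmb]
  rw [hx1, hx2]
  exact hR3.symm

end Pool.Agent.Lib.MP_ca0971_gt.OT
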