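import Pool.Agent.Lib.MP_ca0971_gt.OT.Net.NetM

/-! # Project OT, part A: Dia.Z_reindex -/

set_option autoImplicit false

namespace Pool.Agent.Lib.MP_ca0971_gt.OT

open Finset

variable {I : Type} [Fintype I] [DecidableEq I]

/-- Renaming of the cut points and of the crossings of a net. -/
theorem netZ_reindex {J J' X X' : Type} [Fintype J] [DecidableEq J] [Fintype J'] [DecidableEq J']
    (N : ℕ) (ε : J ≃ J') (η : X ≃ X') {nx : J → J} {nx' : J' → J'} {g : J → ℝ} {g' : J' → ℝ}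
    {C : Finset X} {ov un : X → J} {ep b : X → ℝ} {ov' un' : X' → J'} {ep' b' : X' → ℝ}
    (hnx : ∀ j, nx' (ε j) = ε (nx j)) (hg : ∀ j, g' (ε j) = g j)
    (hov : ∀ x, ov' (η x) = ε (ov x)) (hun : ∀ x, un' (η x) = ε (un x))
    (hep : ∀ x, ep' (η x) = ep x) (hb : ∀ x, b' (η x) = b x) :
    netZ N nx' g' (C.map η.toEmbedding) ov' un' ep' b' = netZ N nx g C ov un ep b := by
  unfold netZ
  symm
  refine Fintype.sum_equiv (ε.arrowCongr (Equiv.refl (Fin N))) _ _ fun s => ?_
  have hs : ∀ j, (ε.arrowCongr (Equiv.refl (Fin N))) s (ε j) = s j := fun j => by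
    simp [Equiv.arrowCongr]
  congr 1
  · congr 1
    · refine Fintype.prod_equiv ε _ _ fun j => ?_
      rw [hs, hg]
    · refine Fintype.prod_equiv ε _ _ fun j => ?_
      refine if_congr ?_ rfl rfl
      rw [hnx, hs, hs]
      refine and_congr ?_ Iff.rfl
      constructor
      · intro h x' hx'
        obtain ⟨x, hx, rfl⟩ := Finset.mem_map.1 hx'
        have h1 := h x hx
        rw [Equiv.toEmbedding_apply, hov, hun]
        exact ⟨fun h2 => h1.1 (ε.injective h2), fun h2 => h1.2 (ε.injective h2)⟩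
      · intro h x hx
        have h1 := h (η x) (Finset.mem_map.2 ⟨x, hx, rfl⟩)
        rw [hov, hun] at h1
        exact ⟨fun h2 => h1.1 (by rw [h2]), fun h2 => h1.2 (by rw [h2])⟩
  · rw [Finset.prod_map]
    refine Finset.prod_congr rfl fun x _ => ?_
    rw [Equiv.toEmbedding_apply, hov, hun, hep, hb, hnx, hnx, hs, hs, hs, hs]

omit [DecidableEq I] in
/-- The ranks correspond. -/
theorem Dia.rk_reindex {I' : Type} [Fintype I'] (e : I ≃ I') (D : Dia I) (D' : Dia I')
    (hC : ∀ i j, (e i, e j) ∈ D'.C ↔ (i, j) ∈ D.C) (hp : ∀ i j, D'.pos (e i) (e j) = D.pos i j)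
    (i j : I) : D'.rk (e i) (e j) = D.rk i j := by
  classical
  unfold Dia.rk
  rw [hp]
  symm
  refine Finset.card_bij (fun k _ => e k) ?_ ?_ ?_
  · intro k hk
    obtain ⟨-, h1, h2⟩ := Finset.mem_filter.1 hk
    refine Finset.mem_filter.2 ⟨Finset.mem_univ _, ?_, ?_⟩
    · rcases h1 with h1 | h1
      · exact Or.inl ((hC _ _).2 h1)
      · exact Or.inr ((hC _ _).2 h1)
    · rw [hp]
      exact h2
  · intro a _ b _ h
    exact e.injective h
  · intro k' hk'
    obtain ⟨k, rfl⟩ := e.surjective k'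
    obtain ⟨-, h1, h2⟩ := Finset.mem_filter.1 hk'
    refine ⟨k, Finset.mem_filter.2 ⟨Finset.mem_univ _, ?_, ?_⟩, rfl⟩
    · rcases h1 with h1 | h1
      · exact Or.inl ((hC _ _).1 h1)
      · exact Or.inr ((hC _ _).1 h1)
    · rw [hp] at h2
      exact h2

/-- Renaming of the edges. -/
theorem Dia.Z_reindex {I' : Type} [Fintype I'] [DecidableEq I'] (σ : Equiv.Perm I)
    (σ' : Equiv.Perm I') (e : I ≃ I') (he : ∀ i, e (σ i) = σ' (e i)) (N : ℕ) (D : Dia I) (D' : Dia I')
    (hC : ∀ i j, (e i, e j) ∈ D'.C ↔ (i, j) ∈ D.C) (hp : ∀ i j, D'.pos (e i) (e j) = D.pos i j)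
    (hth : ∀ i, D'.th (e i) = D.th i) (hep : ∀ i j, D'.ep (e i) (e j) = D.ep i j)
    (hb : ∀ i j, D'.b (e i) (e j) = D.b i j) : D'.Z σ' N = D.Z σ N := by
  unfold Dia.Z
  rw [← Fintype.card_congr e]
  unfold Dia.ZM
  have hCm : D'.C = D.C.map (Equiv.prodCongr e e).toEmbedding := by
    ext ⟨a, b⟩
    obtain ⟨i, rfl⟩ := e.surjective a
    obtain ⟨j, rfl⟩ := e.surjective b
    rw [hC]
    constructor
    · intro h
      exact Finset.mem_map.2 ⟨(i, j), h, rfl⟩
    · intro h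
      obtain ⟨⟨i', j'⟩, h1, h2⟩ := Finset.mem_map.1 h
      have h3 : e i' = e i := congrArg Prod.fst h2
      have h4 : e j' = e j := congrArg Prod.snd h2
      rw [← e.injective h3, ← e.injective h4]
      exact h1
  rw [hCm]
  refine netZ_reindex N (Equiv.prodCongr e (Equiv.refl (Fin (Fintype.card I + 1))))
    (Equiv.prodCongr e e) ?_ ?_ ?_ ?_ ?_ ?_
  · rintro ⟨i, a⟩
    unfold gnx
    simp only [Equiv.prodCongr_apply, Prod.map_apply, Equiv.refl_apply]
    split_ifs
    · rfl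
    · simp only [Prod.map_apply, Equiv.refl_apply, he]
  · rintro ⟨i, a⟩
    have h1 : σ'.symm (e i) = e (σ.symm i) := by
      rw [Equiv.symm_apply_eq, ← he, Equiv.apply_symm_apply]
    simp only [Equiv.prodCongr_apply, Prod.map_apply, Equiv.refl_apply, h1, hth]
  · rintro ⟨i, j⟩
    simp only [Equiv.prodCongr_apply, Prod.map_apply, Equiv.refl_apply,
      Dia.rk_reindex e D D' hC hp]
  · rintro ⟨i, j⟩
    simp only [Equiv.prodCongr_apply, Prod.map_apply, Equiv.refl_apply,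
      Dia.rk_reindex e D D' hC hp]
  · rintro ⟨i, j⟩
    exact hep i j
  · rintro ⟨i, j⟩
    exact hb i j

end Pool.Agent.Lib.MP_ca0971_gt.OT
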