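import Pool.Agent.Lib.MP_ca0971_gt.OT.Net.Word
import Pool.Agent.Lib.MP_ca0971_gt.OT.Net.Moves

/-! # Project OT, part A: Dia.Z_slide_over, Dia.Z_slide_under -/

set_option autoImplicit false

namespace Pool.Agent.Lib.MP_ca0971_gt.OT

open Finset

variable {I : Type} [Fintype I] [DecidableEq I]

namespace SlideD

theorem pas_comm {D : Dia I} {a b : I} (h : D.Pas a b) : D.Pas b a := Or.symm h

omit [DecidableEq I] in
theorem rk_le (D : Dia I) (a b : I) : D.rk a b ≤ Fintype.card I := by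
  unfold Dia.rk
  exact Finset.card_le_univ _

omit [DecidableEq I] in
theorem rk_lt {D : Dia I} {a b l : I} (h : D.Pas a b) (hp : D.pos a b < D.pos a l) :
    D.rk a b < D.rk a l := by
  classical
  unfold Dia.rk
  refine Finset.card_lt_card ⟨?_, ?_⟩
  · intro k hk
    simp only [mem_filter, mem_univ, true_and] at hk ⊢
    exact ⟨hk.1, hk.2.trans hp⟩
  · intro hs
    have h1 := @hs b (Finset.mem_filter.2 ⟨mem_univ b, h, hp⟩)
    exact lt_irrefl _ (Finset.mem_filter.1 h1).2.2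

/-- the pieces for `D` -/
noncomputable def kS (D : Dia I) (σ : Equiv.Perm I) (i j a l : I) : ℕ :=
  if a = i then (if l = j then Fintype.card I + 1 else D.rk a l)
  else if a = σ i then D.rk a l + 1 else D.rk a l

/-- the pieces for `D'` -/
noncomputable def kS' (D : Dia I) (σ : Equiv.Perm I) (i j a l : I) : ℕ :=
  if a = σ i ∧ l = j then 0 else if a = j ∧ l = σ i then kS D σ i j j i else kS D σ i j a l

theorem kS_i (D : Dia I) (σ : Equiv.Perm I) {i j l : I} (h : l ≠ j) :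
    kS D σ i j i l = D.rk i l := by
  unfold kS
  rw [if_pos rfl, if_neg h]

theorem kS_ij (D : Dia I) (σ : Equiv.Perm I) (i j : I) :
    kS D σ i j i j = Fintype.card I + 1 := by
  unfold kS
  rw [if_pos rfl, if_pos rfl]

theorem kS_s (D : Dia I) (σ : Equiv.Perm I) {i : I} (j l : I) (hi : σ i ≠ i) :
    kS D σ i j (σ i) l = D.rk (σ i) l + 1 := by
  unfold kS
  rw [if_neg hi, if_pos rfl]

theorem kS_o (D : Dia I) (σ : Equiv.Perm I) {i a : I} (j l : I) (h1 : a ≠ i) (h2 : a ≠ σ i) :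
    kS D σ i j a l = D.rk a l := by
  unfold kS
  rw [if_neg h1, if_neg h2]

theorem kS_le (D : Dia I) (σ : Equiv.Perm I) (i j a l : I) :
    kS D σ i j a l ≤ Fintype.card I + 1 := by
  have h := rk_le D a l
  unfold kS
  split_ifs <;> omega

theorem kS_val (D : Dia I) (σ : Equiv.Perm I) (i j : I)
    (hlast : ∀ l, D.Pas i l → l ≠ j → D.pos i l < D.pos i j) :
    D.Val (Fintype.card I + 1) (kS D σ i j) := by
  refine ⟨fun a b _ => kS_le D σ i j a b, fun a b l hb hl hp => ?_⟩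
  by_cases ha : a = i
  · subst ha
    by_cases h1 : b = j
    · subst h1
      have h2 : l ≠ b := by
        rintro rfl
        exact lt_irrefl _ hp
      exact absurd (hlast l hl h2) (not_lt.2 hp.le)
    · rw [kS_i D σ h1]
      by_cases h2 : l = j
      · subst h2
        rw [kS_ij]
        exact Nat.lt_succ_of_le (rk_le D a b)
      · rw [kS_i D σ h2]
        exact rk_lt hb hp
  · have h0 := rk_lt hb hp
    by_cases h1 : a = σ i
    · unfold kS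
      rw [if_neg ha, if_pos h1, if_neg ha, if_pos h1]
      omega
    · rw [kS_o D σ j b ha h1, kS_o D σ j l ha h1]
      exact h0

theorem kS'_1 (D : Dia I) (σ : Equiv.Perm I) (i j : I) : kS' D σ i j (σ i) j = 0 := by
  unfold kS'
  rw [if_pos ⟨rfl, rfl⟩]

theorem kS'_2 (D : Dia I) (σ : Equiv.Perm I) {i j : I} (hj' : j ≠ σ i) :
    kS' D σ i j j (σ i) = kS D σ i j j i := by
  unfold kS'
  rw [if_neg (fun h => hj' h.1), if_pos ⟨rfl, rfl⟩]

theorem kS'_3 {D : Dia I} {σ : Equiv.Perm I} {i j a l : I} (hn : ¬ D.Pas (σ i) j)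
    (h : D.Pas a l) : kS' D σ i j a l = kS D σ i j a l := by
  unfold kS'
  rw [if_neg, if_neg]
  · rintro ⟨rfl, rfl⟩
    exact hn (pas_comm h)
  · rintro ⟨rfl, rfl⟩
    exact hn h

theorem kS'_val {D D' : Dia I} (hD : D.Ok) {σ : Equiv.Perm I} {i j : I}
    (hi : σ i ≠ i) (hj : j ≠ i) (hj' : j ≠ σ i) (hP : D.Pas i j) (hn : ¬ D.Pas (σ i) j)
    (hP' : ∀ a b, D'.Pas a b → (a = σ i ∧ b = j) ∨ (a = j ∧ b = σ i) ∨
      (D.Pas a b ∧ ¬ (a = i ∧ b = j) ∧ ¬ (a = j ∧ b = i)))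
    (hlast : ∀ l, D.Pas i l → l ≠ j → D.pos i l < D.pos i j)
    (hfirst : ∀ l, D.Pas (σ i) l → D'.pos (σ i) j < D.pos (σ i) l)
    (hpos : ∀ a l, D.Pas a l → ¬ (a = i ∧ l = j) → ¬ (a = j ∧ l = i) → D'.pos a l = D.pos a l)
    (hjj : ∀ l, D.Pas j l → l ≠ i → (D.pos j l < D.pos j i ↔ D.pos j l < D'.pos j (σ i))) :
    D'.Val (Fintype.card I + 1) (kS' D σ i j) := by
  have hv := kS_val D σ i j hlast
  refine ⟨fun a b _ => ?_, fun a b l hb hl hp => ?_⟩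
  · unfold kS'
    split_ifs
    · omega
    · exact kS_le _ _ _ _ _ _
    · exact kS_le _ _ _ _ _ _
  rcases hP' a b hb with ⟨rfl, rfl⟩ | ⟨rfl, rfl⟩ | ⟨hb1, hb2, hb3⟩
  · rw [kS'_1]
    rcases hP' (σ i) l hl with ⟨_, rfl⟩ | ⟨h, _⟩ | ⟨hl1, _, _⟩
    · exact absurd hp (lt_irrefl _)
    · exact absurd h.symm hj'
    · rw [kS'_3 hn hl1, kS_s D σ b l hi]
      omega
  · rw [kS'_2 D σ hj', kS_o D σ a i hj hj']
    rcases hP' a l hl with ⟨h, _⟩ | ⟨_, rfl⟩ | ⟨hl1, hl2, hl3⟩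
    · exact absurd h hj'
    · exact absurd hp (lt_irrefl _)
    · have hli : l ≠ i := fun h => hl3 ⟨rfl, h⟩
      rw [kS'_3 hn hl1, kS_o D σ a l hj hj']
      rw [hpos a l hl1 hl2 hl3] at hp
      have h1 : ¬ D.pos a l < D.pos a i := fun h => lt_asymm hp ((hjj l hl1 hli).1 h)
      have h2 : D.pos a l ≠ D.pos a i := fun h => hli (hD.inj a l i hl1 (pas_comm hP) h)
      exact rk_lt (pas_comm hP) (lt_of_le_of_ne (not_lt.1 h1) h2.symm)
  · rw [kS'_3 hn hb1]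
    rcases hP' a l hl with ⟨rfl, rfl⟩ | ⟨rfl, rfl⟩ | ⟨hl1, hl2, hl3⟩
    · rw [hpos _ b hb1 hb2 hb3] at hp
      exact absurd hp (lt_asymm (hfirst b hb1))
    · have hbi : b ≠ i := fun h => hb3 ⟨rfl, h⟩
      rw [hpos a b hb1 hb2 hb3] at hp
      rw [kS'_2 D σ hj', kS_o D σ a i hj hj', kS_o D σ a b hj hj']
      exact rk_lt hb1 ((hjj b hb1 hbi).2 hp)
    · rw [kS'_3 hn hl1]
      rw [hpos a b hb1 hb2 hb3, hpos a l hl1 hl2 hl3] at hp
      exact hv.2 a b l hb1 hl1 hp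

theorem ofNat_ne {M a b : ℕ} (ha : a ≤ M) (hb : b ≤ M) (h : a ≠ b) :
    Fin.ofNat (M + 1) a ≠ Fin.ofNat (M + 1) b := by
  intro h1
  have h2 := congrArg Fin.val h1
  simp only [Fin.val_ofNat] at h2
  rw [Nat.mod_eq_of_lt (Nat.lt_succ_of_le ha), Nat.mod_eq_of_lt (Nat.lt_succ_of_le hb)] at h2
  exact h h2

/-- the pieces `(i, last)` and `(σ i, 0)` are empty after the crossing is removed -/
theorem piece_ne {D : Dia I} {σ : Equiv.Perm I} {i j a l : I} (hi : σ i ≠ i)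
    (h : ¬ (a = i ∧ l = j)) :
    (a, Fin.ofNat (Fintype.card I + 1 + 1) (kS D σ i j a l)) ≠
        (i, Fin.ofNat (Fintype.card I + 1 + 1) (Fintype.card I + 1)) ∧
      (a, Fin.ofNat (Fintype.card I + 1 + 1) (kS D σ i j a l)) ≠
        (σ i, Fin.ofNat (Fintype.card I + 1 + 1) 0) := by
  constructor
  · intro h1
    obtain ⟨h2, h3⟩ := Prod.ext_iff.1 h1
    simp only at h2 h3
    subst h2
    have h4 : l ≠ j := fun h5 => h ⟨rfl, h5⟩
    rw [kS_i D σ h4] at h3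
    have h5 := rk_le D a l
    exact ofNat_ne (by omega) (by omega) (by omega) h3
  · intro h1
    obtain ⟨h2, h3⟩ := Prod.ext_iff.1 h1
    simp only at h2 h3
    subst h2
    rw [kS_s D σ j l hi] at h3
    have h5 := rk_le D (σ i) l
    exact ofNat_ne (by omega) (by omega) (by omega) h3

theorem emp_aux {D : Dia I} {σ : Equiv.Perm I} {i j : I} (hi : σ i ≠ i) (s : Finset (I × I))
    (h1 : ∀ x ∈ s, ¬ (x.1 = i ∧ x.2 = j)) (h2 : ∀ x ∈ s, ¬ (x.2 = i ∧ x.1 = j)) :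
    Emp (s.val.map (D.rcd (Fintype.card I + 1) (kS D σ i j)))
        (i, Fin.ofNat (Fintype.card I + 1 + 1) (Fintype.card I + 1)) ∧
      Emp (s.val.map (D.rcd (Fintype.card I + 1) (kS D σ i j)))
        (σ i, Fin.ofNat (Fintype.card I + 1 + 1) 0) := by
  constructor
  · intro c hc
    obtain ⟨x, hx, rfl⟩ := Multiset.mem_map.1 hc
    exact ⟨(piece_ne hi (h1 x hx)).1, (piece_ne hi (h2 x hx)).1⟩
  · intro c hc
    obtain ⟨x, hx, rfl⟩ := Multiset.mem_map.1 hc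
    exact ⟨(piece_ne hi (h1 x hx)).2, (piece_ne hi (h2 x hx)).2⟩

theorem gnx_last (σ : Equiv.Perm I) (M : ℕ) (i : I) :
    gnx σ M (i, Fin.ofNat (M + 1) M) = (σ i, Fin.ofNat (M + 1) 0) := by
  unfold gnx
  have h : ¬ ((Fin.ofNat (M + 1) M).val + 1 < M + 1) := by
    simp only [Fin.val_ofNat]
    rw [Nat.mod_eq_of_lt (Nat.lt_succ_self M)]
    omega
  rw [dif_neg h]
  rfl

omit [Fintype I] [DecidableEq I] in
theorem gg_eq (D : Dia I) (σ : Equiv.Perm I) (M : ℕ) (i : I) :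
    D.gg σ M (σ i, Fin.ofNat (M + 1) 0) = D.th i := by
  have h : Fin.ofNat (M + 1) 0 = 0 := rfl
  unfold Dia.gg
  simp only [h, if_true, Equiv.symm_apply_apply]

/-- the two state sums as nets with the same rest -/
theorem split {σ : Equiv.Perm I} {N M : ℕ} {D D' : Dia I} {x0 x1 : I × I} (hx : x0 ∈ D.C)
    (hC : D'.C = insert x1 (D.C.erase x0)) (hx1 : x1 ∉ D.C) (hth : D'.th = D.th)
    (hep : ∀ x ∈ D.C.erase x0, D'.ep x.1 x.2 = D.ep x.1 x.2)
    (hb : ∀ x ∈ D.C.erase x0, D'.b x.1 x.2 = D.b x.1 x.2) {k k' : I → I → ℕ}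
    (hk : ∀ x ∈ D.C, k' x.1 x.2 = k x.1 x.2 ∧ k' x.2 x.1 = k x.2 x.1) :
    D.ZM σ N M k = netM N (gnx σ M) (D.gg σ M)
        (D.rcd M k x0 ::ₘ (D.C.erase x0).val.map (D.rcd M k)) ∧
      D'.ZM σ N M k' = netM N (gnx σ M) (D.gg σ M)
        (D'.rcd M k' x1 ::ₘ (D.C.erase x0).val.map (D.rcd M k)) := by
  constructor
  · rw [Dia.ZM_netM]
    have h1 : D.C.val = x0 ::ₘ (D.C.erase x0).val := by
      rw [Finset.erase_val, Multiset.cons_erase hx]
    rw [h1, Multiset.map_cons]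
  · rw [Dia.ZM_netM]
    have h1 : D'.C.val = x1 ::ₘ (D.C.erase x0).val := by
      rw [hC, Finset.insert_val_of_notMem]
      exact fun h => hx1 (Finset.mem_of_mem_erase h)
    have h2 : D'.gg σ M = D.gg σ M := by
      unfold Dia.gg
      rw [hth]
    rw [h1, Multiset.map_cons, h2]
    congr 2
    refine Multiset.map_congr rfl fun x hx => ?_
    have hx' : x ∈ D.C.erase x0 := hx
    obtain ⟨h3, h4⟩ := hk x (Finset.mem_of_mem_erase hx')
    unfold Dia.rcd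
    rw [h3, h4, hep x hx', hb x hx']

end SlideD

open SlideD

/-- A crossing slides over the vertex between `i` and `σ i`; `i` is over. -/
theorem Dia.Z_slide_over (σ : Equiv.Perm I) (N : ℕ) (D D' : Dia I) (hD : D.Ok) (hD' : D'.Ok) (i j : I)
    (hi : σ i ≠ i) (hj : j ≠ i) (hj' : j ≠ σ i) (hx : (i, j) ∈ D.C) (hn : ¬ D.Pas (σ i) j)
    (hC : D'.C = insert (σ i, j) (D.C.erase (i, j)))
    (hlast : ∀ l, D.Pas i l → l ≠ j → D.pos i l < D.pos i j)
    (hfirst : ∀ l, D.Pas (σ i) l → D'.pos (σ i) j < D.pos (σ i) l)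
    (hpos : ∀ a l, D.Pas a l → ¬ (a = i ∧ l = j) → ¬ (a = j ∧ l = i) → D'.pos a l = D.pos a l)
    (hjj : ∀ l, D.Pas j l → l ≠ i → (D.pos j l < D.pos j i ↔ D.pos j l < D'.pos j (σ i)))
    (hth : D'.th = D.th) (hep : ∀ x ∈ D.C.erase (i, j), D'.ep x.1 x.2 = D.ep x.1 x.2)
    (hb : ∀ x ∈ D.C.erase (i, j), D'.b x.1 x.2 = D.b x.1 x.2) (hep' : D'.ep (σ i) j = D.ep i j)
    (hb' : D'.b (σ i) j = D.b i j - D.th i) : D'.Z σ N = D.Z σ N := by
  have hP : D.Pas i j := Or.inl hx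
  have hji : (j, i) ∉ D.C := hD.asym i j hx
  have hP' : ∀ a b, D'.Pas a b → (a = σ i ∧ b = j) ∨ (a = j ∧ b = σ i) ∨
      (D.Pas a b ∧ ¬ (a = i ∧ b = j) ∧ ¬ (a = j ∧ b = i)) := by
    intro a b h
    unfold Dia.Pas at h
    rw [hC] at h
    simp only [mem_insert, mem_erase, Prod.mk.injEq, ne_eq] at h
    rcases h with (⟨rfl, rfl⟩ | ⟨h1, h2⟩) | (⟨rfl, rfl⟩ | ⟨h1, h2⟩)
    · exact Or.inl ⟨rfl, rfl⟩
    · refine Or.inr (Or.inr ⟨Or.inl h2, h1, ?_⟩)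
      rintro ⟨rfl, rfl⟩
      exact hji h2
    · exact Or.inr (Or.inl ⟨rfl, rfl⟩)
    · refine Or.inr (Or.inr ⟨Or.inr h2, ?_, fun h3 => h1 ⟨h3.2, h3.1⟩⟩)
      rintro ⟨rfl, rfl⟩
      exact hji h2
  have hv := kS_val D σ i j hlast
  have hv' := kS'_val hD hi hj hj' hP hn hP' hlast hfirst hpos hjj
  have hx1 : (σ i, j) ∉ D.C := fun h => hn (Or.inl h)
  obtain ⟨e1, e2⟩ := split (σ := σ) (N := N) (M := Fintype.card I + 1) hx hC hx1 hth hep hb
    (k := kS D σ i j) (k' := kS' D σ i j) fun x hx2 =>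
      ⟨kS'_3 hn (Or.inl hx2), kS'_3 hn (Or.inr hx2)⟩
  obtain ⟨m1, m2⟩ := emp_aux (D := D) (σ := σ) (i := i) (j := j) hi (D.C.erase (i, j))
    (fun x hx2 h => (Finset.mem_erase.1 hx2).1 (Prod.ext h.1 h.2))
    (fun x hx2 h => hji (by
      have h3 := (Finset.mem_erase.1 hx2).2
      rwa [show x = (j, i) from Prod.ext h.2 h.1] at h3))
  rw [← Dia.ZM_eq σ N _ D hD _ hv, ← Dia.ZM_eq σ N _ D' hD' _ hv', e1, e2]
  have r1 : D.rcd (Fintype.card I + 1) (kS D σ i j) (i, j) =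
      ⟨(i, Fin.ofNat (Fintype.card I + 1 + 1) (Fintype.card I + 1)),
        (j, Fin.ofNat (Fintype.card I + 1 + 1) (kS D σ i j j i)), D.ep i j, D.b i j⟩ := by
    unfold Dia.rcd
    simp only
    rw [kS_ij]
  have r2 : D'.rcd (Fintype.card I + 1) (kS' D σ i j) (σ i, j) =
      ⟨(σ i, Fin.ofNat (Fintype.card I + 1 + 1) 0),
        (j, Fin.ofNat (Fintype.card I + 1 + 1) (kS D σ i j j i)), D.ep i j,
        D.b i j - D.gg σ (Fintype.card I + 1) (σ i, Fin.ofNat (Fintype.card I + 1 + 1) 0)⟩ := by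
    have h1 : D.gg σ (Fintype.card I + 1) (σ i, Fin.ofNat (Fintype.card I + 1 + 1) 0) = D.th i :=
      gg_eq D σ _ i
    unfold Dia.rcd
    simp only
    rw [kS'_1, kS'_2 D σ hj', hep', hb', h1]
  rw [r1, r2]
  exact (netM_slide_over N _ (gnx_injective σ _) _ _ _ _ _ (gnx_last σ _ i)
    (fun h => hi (congrArg Prod.fst h).symm) (fun h => hj (congrArg Prod.fst h))
    (fun h => hj' (congrArg Prod.fst h)) m1 m2 _ _).symm

/-- A crossing slides over the vertex between `i` and `σ i`; `i` is under. -/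
theorem Dia.Z_slide_under (σ : Equiv.Perm I) (N : ℕ) (D D' : Dia I) (hD : D.Ok) (hD' : D'.Ok) (i j : I)
    (hi : σ i ≠ i) (hj : j ≠ i) (hj' : j ≠ σ i) (hx : (j, i) ∈ D.C) (hn : ¬ D.Pas (σ i) j)
    (hC : D'.C = insert (j, σ i) (D.C.erase (j, i)))
    (hlast : ∀ l, D.Pas i l → l ≠ j → D.pos i l < D.pos i j)
    (hfirst : ∀ l, D.Pas (σ i) l → D'.pos (σ i) j < D.pos (σ i) l)
    (hpos : ∀ a l, D.Pas a l → ¬ (a = i ∧ l = j) → ¬ (a = j ∧ l = i) → D'.pos a l = D.pos a l)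
    (hjj : ∀ l, D.Pas j l → l ≠ i → (D.pos j l < D.pos j i ↔ D.pos j l < D'.pos j (σ i)))
    (hth : D'.th = D.th) (hep : ∀ x ∈ D.C.erase (j, i), D'.ep x.1 x.2 = D.ep x.1 x.2)
    (hb : ∀ x ∈ D.C.erase (j, i), D'.b x.1 x.2 = D.b x.1 x.2) (hep' : D'.ep j (σ i) = D.ep j i)
    (hb' : D'.b j (σ i) = D.b j i + D.th i) : D'.Z σ N = D.Z σ N := by
  have hP : D.Pas i j := Or.inr hx
  have hij : (i, j) ∉ D.C := hD.asym j i hx
  have hP' : ∀ a b, D'.Pas a b → (a = σ i ∧ b = j) ∨ (a = j ∧ b = σ i) ∨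
      (D.Pas a b ∧ ¬ (a = i ∧ b = j) ∧ ¬ (a = j ∧ b = i)) := by
    intro a b h
    unfold Dia.Pas at h
    rw [hC] at h
    simp only [mem_insert, mem_erase, Prod.mk.injEq, ne_eq] at h
    rcases h with (⟨rfl, rfl⟩ | ⟨h1, h2⟩) | (⟨rfl, rfl⟩ | ⟨h1, h2⟩)
    · exact Or.inr (Or.inl ⟨rfl, rfl⟩)
    · refine Or.inr (Or.inr ⟨Or.inl h2, ?_, h1⟩)
      rintro ⟨rfl, rfl⟩
      exact hij h2
    · exact Or.inl ⟨rfl, rfl⟩
    · refine Or.inr (Or.inr ⟨Or.inr h2, fun h3 => h1 ⟨h3.2, h3.1⟩, ?_⟩)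
      rintro ⟨rfl, rfl⟩
      exact hij h2
  have hv := kS_val D σ i j hlast
  have hv' := kS'_val hD hi hj hj' hP hn hP' hlast hfirst hpos hjj
  have hx1 : (j, σ i) ∉ D.C := fun h => hn (Or.inr h)
  obtain ⟨e1, e2⟩ := split (σ := σ) (N := N) (M := Fintype.card I + 1) hx hC hx1 hth hep hb
    (k := kS D σ i j) (k' := kS' D σ i j) fun x hx2 =>
      ⟨kS'_3 hn (Or.inl hx2), kS'_3 hn (Or.inr hx2)⟩
  obtain ⟨m1, m2⟩ := emp_aux (D := D) (σ := σ) (i := i) (j := j) hi (D.C.erase (j, i))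
    (fun x hx2 h => hij (by
      have h3 := (Finset.mem_erase.1 hx2).2
      rwa [show x = (i, j) from Prod.ext h.1 h.2] at h3))
    (fun x hx2 h => (Finset.mem_erase.1 hx2).1 (Prod.ext h.2 h.1))
  rw [← Dia.ZM_eq σ N _ D hD _ hv, ← Dia.ZM_eq σ N _ D' hD' _ hv', e1, e2]
  have r1 : D.rcd (Fintype.card I + 1) (kS D σ i j) (j, i) =
      ⟨(j, Fin.ofNat (Fintype.card I + 1 + 1) (kS D σ i j j i)),
        (i, Fin.ofNat (Fintype.card I + 1 + 1) (Fintype.card I + 1)), D.ep j i, D.b j i⟩ := by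
    unfold Dia.rcd
    simp only
    rw [kS_ij]
  have r2 : D'.rcd (Fintype.card I + 1) (kS' D σ i j) (j, σ i) =
      ⟨(j, Fin.ofNat (Fintype.card I + 1 + 1) (kS D σ i j j i)),
        (σ i, Fin.ofNat (Fintype.card I + 1 + 1) 0), D.ep j i,
        D.b j i + D.gg σ (Fintype.card I + 1) (σ i, Fin.ofNat (Fintype.card I + 1 + 1) 0)⟩ := by
    have h1 : D.gg σ (Fintype.card I + 1) (σ i, Fin.ofNat (Fintype.card I + 1 + 1) 0) = D.th i :=
      gg_eq D σ _ i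
    unfold Dia.rcd
    simp only
    rw [kS'_1, kS'_2 D σ hj', hep', hb', h1]
  rw [r1, r2]
  exact (netM_slide_under N _ (gnx_injective σ _) _ _ _ _ _ (gnx_last σ _ i)
    (fun h => hi (congrArg Prod.fst h).symm) (fun h => hj (congrArg Prod.fst h))
    (fun h => hj' (congrArg Prod.fst h)) m1 m2 _ _).symm

end Pool.Agent.Lib.MP_ca0971_gt.OT
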