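import Pool.Agent.Lib.MP_ca0971_gt.OT.Defs

/-!
# Project OT, part A: local identities of the crossing weight `Tw` (helper67)
-/

set_option autoImplicit false

namespace Pool.Agent.Lib.MP_ca0971_gt.OT

open Finset

variable {N : ℕ}

theorem two_rpow_add (x y : ℝ) : (2 : ℝ) ^ (x + y) = (2 : ℝ) ^ x * (2 : ℝ) ^ y :=
  Real.rpow_add (by norm_num) x y

/-- Kronecker delta -/
def dl (x y : Fin N) : ℝ := if x = y then 1 else 0

theorem dl_self (x : Fin N) : dl x x = 1 := by simp [dl]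

theorem dl_comm (x y : Fin N) : dl x y = dl y x := by
  unfold dl; simp [eq_comm]

theorem dl_sq (x y : Fin N) : dl x y * dl x y = dl x y := by
  unfold dl; split_ifs <;> simp

theorem sum_dl (c : Fin N) (f : Fin N → ℝ) : ∑ z, dl z c * f z = f c := by
  simp [dl]

theorem sum_dl' (c : Fin N) (f : Fin N → ℝ) : ∑ z, dl c z * f z = f c := by
  simp [dl]

/-- weight of the straight crossing -/
noncomputable def UU (e : ℝ) (o u : Fin N) : ℝ := if o = u then (2 : ℝ) ^ e else 1

/-- weight of the exchange crossing -/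
noncomputable def VV (e b : ℝ) (o u : Fin N) : ℝ :=
  if o < u then e * (3 / 2) * (2 : ℝ) ^ (2 * (((u : ℕ) : ℝ) - ((o : ℕ) : ℝ)) * b) else 0

theorem UU_self (e : ℝ) (o : Fin N) : UU e o o = (2 : ℝ) ^ e := by simp [UU]
theorem VV_self (e b : ℝ) (o : Fin N) : VV e b o o = 0 := by simp [VV]

theorem Tw_eq (e b : ℝ) (o u o' u' : Fin N) :
    Tw N e b o u o' u' = dl o' o * dl u' u * UU e o u + dl o' u * dl u' o * VV e b o u := by
  unfold Tw dl UU VV
  by_cases h1 : o' = o ∧ u' = u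
  · obtain ⟨rfl, rfl⟩ := h1
    by_cases h2 : o' = u'
    · subst h2; simp
    · have h3 : ¬ (o' = u' ∧ u' = o') := fun h => h2 h.1
      simp [h2]
  · by_cases h2 : o' = u ∧ u' = o
    · obtain ⟨rfl, rfl⟩ := h2
      have h4 : ¬ (o' = u' ∧ u' = o') := h1
      have h3 : o' ≠ u' := fun h => h4 ⟨h, h.symm⟩
      simp [h3]
    · have h3 : ¬ (o' = u ∧ u' = o ∧ o < u) := fun h => h2 ⟨h.1, h.2.1⟩
      rw [if_neg h1, if_neg h3]
      have e1 : (if o' = o then (1 : ℝ) else 0) * (if u' = u then (1 : ℝ) else 0) = 0 := by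
        by_cases h5 : o' = o
        · have h6 : ¬ u' = u := fun h => h1 ⟨h5, h⟩
          simp [h6]
        · simp [h5]
      have e2 : (if o' = u then (1 : ℝ) else 0) * (if u' = o then (1 : ℝ) else 0) = 0 := by
        by_cases h5 : o' = u
        · have h6 : ¬ u' = o := fun h => h2 ⟨h5, h⟩
          simp [h6]
        · simp [h5]
      rw [e1, e2]; ring

theorem dl_mul (x y : Fin N) (f : Fin N → ℝ) : dl x y * f x = dl x y * f y := by
  unfold dl
  split_ifs with h
  · rw [h]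
  · simp

/-- gauge of the over strand -/
theorem Tw_over (e b h : ℝ) (o u o' u' : Fin N) :
    Tw N e (b + h) o u o' u' = (2 : ℝ) ^ ((kap N o - kap N o') * h) * Tw N e b o u o' u' := by
  unfold Tw
  by_cases h1 : o' = o ∧ u' = u
  · obtain ⟨rfl, rfl⟩ := h1
    simp
  · by_cases h2 : o' = u ∧ u' = o ∧ o < u
    · rw [if_neg h1, if_neg h1, if_pos h2, if_pos h2, h2.1, mul_add, two_rpow_add]
      have : (kap N o - kap N u) * h = 2 * (((u : ℕ) : ℝ) - ((o : ℕ) : ℝ)) * h := by
        unfold kap; ring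
      rw [this]; ring
    · rw [if_neg h1, if_neg h1, if_neg h2, if_neg h2]; ring

/-- gauge of the under strand -/
theorem Tw_under (e b h : ℝ) (o u o' u' : Fin N) :
    Tw N e (b + h) o u o' u' = (2 : ℝ) ^ ((kap N u' - kap N u) * h) * Tw N e b o u o' u' := by
  unfold Tw
  by_cases h1 : o' = o ∧ u' = u
  · obtain ⟨rfl, rfl⟩ := h1
    simp
  · by_cases h2 : o' = u ∧ u' = o ∧ o < u
    · rw [if_neg h1, if_neg h1, if_pos h2, if_pos h2, h2.2.1, mul_add, two_rpow_add]
      have : (kap N o - kap N u) * h = 2 * (((u : ℕ) : ℝ) - ((o : ℕ) : ℝ)) * h := by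
        unfold kap; ring
      rw [this]; ring
    · rw [if_neg h1, if_neg h1, if_neg h2, if_neg h2]; ring

/-! ### sums -/

/-- sum over both outgoing labels -/
theorem Tw_sum_out (e b : ℝ) (o u : Fin N) (G : Fin N → Fin N → ℝ) :
    ∑ x, ∑ y, Tw N e b o u x y * G x y = UU e o u * G o u + VV e b o u * G u o := by
  simp only [Tw_eq, add_mul, Finset.sum_add_distrib]
  congr 1
  · have : ∀ x y, dl x o * dl y u * UU e o u * G x y
        = dl x o * (dl y u * (UU e o u * G x y)) := fun x y => by ring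
    simp only [this, ← Finset.mul_sum, sum_dl]
  · have : ∀ x y, dl x u * dl y o * VV e b o u * G x y
        = dl x u * (dl y o * (VV e b o u * G x y)) := fun x y => by ring
    simp only [this, ← Finset.mul_sum, sum_dl]

/-- telescoping over `Fin N` -/
theorem fin_tele (φ : ℕ → ℝ) (m n : ℕ) (hmn : m ≤ n) (hn : n ≤ N) :
    ∑ x : Fin N, (if m ≤ (x : ℕ) ∧ (x : ℕ) < n then φ ((x : ℕ) + 1) - φ (x : ℕ) else 0)
      = φ n - φ m := by
  rw [Fin.sum_univ_eq_sum_range (fun x => if m ≤ x ∧ x < n then φ (x + 1) - φ x else 0) N,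
    ← Finset.sum_filter]
  have : (Finset.range N).filter (fun x => m ≤ x ∧ x < n) = Finset.Ico m n := by
    ext x; simp only [mem_filter, mem_range, mem_Ico]; omega
  rw [this, Finset.sum_Ico_sub φ hmn]

/-! ### slide -/

theorem loc_slide_over (e b θ : ℝ) (a c a' c' : Fin N) :
    (2 : ℝ) ^ (kap N a' * θ) * Tw N e b a c a' c'
      = (2 : ℝ) ^ (kap N a * θ) * Tw N e (b - θ) a c a' c' := by
  rw [sub_eq_add_neg, Tw_over, ← mul_assoc, ← two_rpow_add]
  congr 2; ring

theorem loc_slide_under (e b θ : ℝ) (a c a' c' : Fin N) :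
    (2 : ℝ) ^ (kap N c' * θ) * Tw N e b a c a' c'
      = (2 : ℝ) ^ (kap N c * θ) * Tw N e (b + θ) a c a' c' := by
  rw [Tw_under, ← mul_assoc, ← two_rpow_add]
  congr 2; ring

/-! ### R2, parallel -/

theorem loc_R2_par0 (e : ℝ) (a c a' c' : Fin N) :
    ∑ x, ∑ y, Tw N e 0 a c x y * Tw N (-e) 0 x y a' c' = dl a' a * dl c' c := by
  rw [Tw_sum_out e 0 a c (fun x y => Tw N (-e) 0 x y a' c')]
  simp only [Tw_eq]
  rcases lt_trichotomy a c with h | h | h
  · have h1 : ¬ c < a := not_lt.mpr h.le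
    have h2 : a ≠ c := h.ne
    simp only [UU, VV, h, h1, h2, h2.symm, if_true, if_false]
    simp only [mul_zero, Real.rpow_zero]
    ring
  · subst h
    have h3 : (2 : ℝ) ^ e * (2 : ℝ) ^ (-e) = 1 := by
      rw [← two_rpow_add]; simp
    simp only [UU_self, VV_self, mul_zero, zero_mul, add_zero]
    rw [mul_comm, mul_assoc, mul_comm ((2 : ℝ) ^ (-e)), h3]; ring
  · have h1 : ¬ a < c := not_lt.mpr h.le
    have h2 : a ≠ c := h.ne'
    simp only [UU, VV, h1, h2, if_false]
    ring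

end Pool.Agent.Lib.MP_ca0971_gt.OT
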