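import Pool.Agent.Lib.MP_ca0971_gt.OT.Net.Loc

/-!
# Project OT, part A: local identities, R2 and R1 (helper67)
-/

set_option autoImplicit false

namespace Pool.Agent.Lib.MP_ca0971_gt.OT

open Finset

variable {N : ℕ}

/-! ### R2, parallel -/

theorem loc_R2_over_par (e b θ : ℝ) (a c a' c' : Fin N) :
    ∑ x, ∑ y, (2 : ℝ) ^ (kap N x * θ) * (Tw N e b a c x y * Tw N (-e) (b - θ) x y a' c')
      = (2 : ℝ) ^ (kap N a * θ) * (dl a' a * dl c' c) := by
  have h1 : ∀ x y : Fin N,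
      (2 : ℝ) ^ (kap N x * θ) * (Tw N e b a c x y * Tw N (-e) (b - θ) x y a' c')
      = (2 : ℝ) ^ (kap N a * b - kap N a' * (b - θ))
        * (Tw N e 0 a c x y * Tw N (-e) 0 x y a' c') := by
    intro x y
    have e1 := Tw_over e 0 b a c x y
    have e2 := Tw_over (-e) 0 (b - θ) x y a' c'
    rw [zero_add] at e1 e2
    rw [e1, e2]
    have : (2 : ℝ) ^ (kap N a * b - kap N a' * (b - θ))
        = (2 : ℝ) ^ (kap N x * θ) * (2 : ℝ) ^ ((kap N a - kap N x) * b)
          * (2 : ℝ) ^ ((kap N x - kap N a') * (b - θ)) := by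
      rw [← two_rpow_add, ← two_rpow_add]; congr 1; ring
    rw [this]; ring
  simp only [h1, ← Finset.mul_sum]
  rw [loc_R2_par0]
  have h2 : (2 : ℝ) ^ (kap N a * b - kap N a' * (b - θ)) * (dl a' a * dl c' c)
      = dl a' a * (2 : ℝ) ^ (kap N a * b - kap N a' * (b - θ)) * dl c' c := by ring
  rw [h2, dl_mul a' a (fun z => (2 : ℝ) ^ (kap N a * b - kap N z * (b - θ)))]
  have : kap N a * b - kap N a * (b - θ) = kap N a * θ := by ring
  rw [this]; ring

theorem loc_R2_under_par (e b θ : ℝ) (a c a' c' : Fin N) :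
    ∑ x, ∑ y, (2 : ℝ) ^ (kap N x * θ) * (Tw N e b c a y x * Tw N (-e) (b + θ) y x c' a')
      = (2 : ℝ) ^ (kap N a * θ) * (dl a' a * dl c' c) := by
  have h1 : ∀ x y : Fin N,
      (2 : ℝ) ^ (kap N x * θ) * (Tw N e b c a y x * Tw N (-e) (b + θ) y x c' a')
      = (2 : ℝ) ^ (kap N a' * (b + θ) - kap N a * b)
        * (Tw N e 0 c a y x * Tw N (-e) 0 y x c' a') := by
    intro x y
    have e1 := Tw_under e 0 b c a y x
    have e2 := Tw_under (-e) 0 (b + θ) y x c' a'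
    rw [zero_add] at e1 e2
    rw [e1, e2]
    have : (2 : ℝ) ^ (kap N a' * (b + θ) - kap N a * b)
        = (2 : ℝ) ^ (kap N x * θ) * (2 : ℝ) ^ ((kap N x - kap N a) * b)
          * (2 : ℝ) ^ ((kap N a' - kap N x) * (b + θ)) := by
      rw [← two_rpow_add, ← two_rpow_add]; congr 1; ring
    rw [this]; ring
  simp only [h1, ← Finset.mul_sum]
  rw [Finset.sum_comm, loc_R2_par0]
  have h2 : (2 : ℝ) ^ (kap N a' * (b + θ) - kap N a * b) * (dl c' c * dl a' a)
      = dl a' a * (2 : ℝ) ^ (kap N a' * (b + θ) - kap N a * b) * dl c' c := by ring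
  rw [h2, dl_mul a' a (fun z => (2 : ℝ) ^ (kap N z * (b + θ) - kap N a * b))]
  have : kap N a * (b + θ) - kap N a * b = kap N a * θ := by ring
  rw [this]; ring

/-! ### R2, antiparallel -/

/-- the geometric sum of the antiparallel R2 -/
theorem geo_anti (e : ℝ) (hs : e = 1 ∨ e = -1) (a c : Fin N) (h : a < c) :
    e * (2 : ℝ) ^ (-e) - e * (2 : ℝ) ^ e * (2 : ℝ) ^ (2 * (((c : ℕ) : ℝ) - ((a : ℕ) : ℝ)) * (-e))
      - (3 / 2) * ∑ x : Fin N, (if a < x ∧ x < c then
          (2 : ℝ) ^ (2 * (((c : ℕ) : ℝ) - ((x : ℕ) : ℝ)) * (-e)) else 0) = 0 := by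
  have hac : (a : ℕ) + 1 ≤ (c : ℕ) := Fin.lt_def.mp h
  have hsum : (3 / 2 : ℝ) * ∑ x : Fin N, (if a < x ∧ x < c then
          (2 : ℝ) ^ (2 * (((c : ℕ) : ℝ) - ((x : ℕ) : ℝ)) * (-e)) else 0)
      = e * (2 : ℝ) ^ (-e)
        - e * (2 : ℝ) ^ e * (2 : ℝ) ^ (2 * (((c : ℕ) : ℝ) - ((a : ℕ) : ℝ)) * (-e)) := by
    have key := fin_tele (N := N)
      (fun n => e * (2 : ℝ) ^ (-e) * (2 : ℝ) ^ (2 * (((c : ℕ) : ℝ) - (n : ℝ)) * (-e)))
      ((a : ℕ) + 1) (c : ℕ) hac c.isLt.le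
    have hrhs : e * (2 : ℝ) ^ (-e) * (2 : ℝ) ^ (2 * (((c : ℕ) : ℝ) - ((c : ℕ) : ℝ)) * (-e))
        - e * (2 : ℝ) ^ (-e) * (2 : ℝ) ^ (2 * (((c : ℕ) : ℝ) - (((a : ℕ) + 1 : ℕ) : ℝ)) * (-e))
        = e * (2 : ℝ) ^ (-e)
        - e * (2 : ℝ) ^ e * (2 : ℝ) ^ (2 * (((c : ℕ) : ℝ) - ((a : ℕ) : ℝ)) * (-e)) := by
      have e1 : (2 * (((c : ℕ) : ℝ) - (((a : ℕ) + 1 : ℕ) : ℝ)) * (-e))
          = 2 * (((c : ℕ) : ℝ) - ((a : ℕ) : ℝ)) * (-e) + 2 * e := by push_cast; ring
      rw [e1, two_rpow_add]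
      have e2 : (2 : ℝ) ^ (-e) * (2 : ℝ) ^ (2 * e) = (2 : ℝ) ^ e := by
        rw [← two_rpow_add]; congr 1; ring
      rw [← e2]; simp; ring
    rw [← hrhs, ← key, Finset.mul_sum]
    refine Finset.sum_congr rfl fun x _ => ?_
    have hiff : (a < x ∧ x < c) ↔ ((a : ℕ) + 1 ≤ (x : ℕ) ∧ (x : ℕ) < (c : ℕ)) := by
      rw [Fin.lt_def, Fin.lt_def]; omega
    by_cases hx : a < x ∧ x < c
    · rw [if_pos hx, if_pos (hiff.mp hx)]
      have e1 : (2 * (((c : ℕ) : ℝ) - (((x : ℕ) + 1 : ℕ) : ℝ)) * (-e))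
          = 2 * (((c : ℕ) : ℝ) - ((x : ℕ) : ℝ)) * (-e) + 2 * e := by push_cast; ring
      rw [e1, two_rpow_add]
      have e3 : e * (2 : ℝ) ^ (-e) * ((2 : ℝ) ^ (2 * e) - 1) = 3 / 2 := by
        rcases hs with rfl | rfl
        · rw [show (2 * 1 : ℝ) = ((2 : ℕ) : ℝ) by norm_num, Real.rpow_natCast,
            Real.rpow_neg (by norm_num), Real.rpow_one]; norm_num
        · rw [show (2 * -1 : ℝ) = -((2 : ℕ) : ℝ) by norm_num, neg_neg, Real.rpow_one,
            Real.rpow_neg (by norm_num), Real.rpow_natCast]; norm_num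
      rw [← e3]; ring
    · rw [if_neg hx, if_neg (fun h' => hx (hiff.mpr h'))]; ring
  rw [hsum]; ring

theorem loc_R2_anti0 (e : ℝ) (hs : e = 1 ∨ e = -1) (a c a' c' : Fin N) :
    ∑ x, ∑ y, Tw N e 0 a y x c' * Tw N (-e) (-e) x c a' y = dl a' a * dl c' c := by
  have h1 : ∀ x y : Fin N, Tw N e 0 a y x c' * Tw N (-e) (-e) x c a' y
      = dl x a * (dl y c * (dl c' y * UU e a y * (dl a' x * UU (-e) x c)))
        + dl x a * (dl y x * (dl c' y * UU e a y * (dl a' c * VV (-e) (-e) x c)))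
        + dl y c * (dl x y * (dl c' a * VV e 0 a y * (dl a' x * UU (-e) x c)))
        + dl y x * (dl c' a * dl a' c * (VV e 0 a y * VV (-e) (-e) x c)) := by
    intro x y
    have h2 : dl y x * dl y x = dl y x := dl_sq y x
    simp only [Tw_eq, dl_comm x y]
    linear_combination (dl c' a * dl a' c * (VV e 0 a y * VV (-e) (-e) x c)) * h2
  have s1 : ∑ x, ∑ y, dl x a * (dl y c * (dl c' y * UU e a y * (dl a' x * UU (-e) x c)))
      = dl c' c * UU e a c * (dl a' a * UU (-e) a c) := by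
    simp only [← Finset.mul_sum, sum_dl]
  have s2 : ∑ x, ∑ y, dl x a * (dl y x * (dl c' y * UU e a y * (dl a' c * VV (-e) (-e) x c)))
      = dl c' a * UU e a a * (dl a' c * VV (-e) (-e) a c) := by
    simp only [← Finset.mul_sum, sum_dl]
  have s3 : ∑ x, ∑ y, dl y c * (dl x y * (dl c' a * VV e 0 a y * (dl a' x * UU (-e) x c)))
      = dl c' a * VV e 0 a c * (dl a' c * UU (-e) c c) := by
    rw [Finset.sum_comm]
    simp only [← Finset.mul_sum, sum_dl]
  have s4 : ∑ x, ∑ y, dl y x * (dl c' a * dl a' c * (VV e 0 a y * VV (-e) (-e) x c))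
      = dl c' a * dl a' c * ∑ x, VV e 0 a x * VV (-e) (-e) x c := by
    simp only [sum_dl, Finset.mul_sum]
  simp only [h1, Finset.sum_add_distrib, s1, s2, s3, s4]
  rw [UU_self, UU_self]
  have hone : UU e a c * UU (-e) a c = 1 := by
    unfold UU
    split_ifs
    · rw [← two_rpow_add]; simp
    · ring
  have hbr : (2 : ℝ) ^ e * VV (-e) (-e) a c + VV e 0 a c * (2 : ℝ) ^ (-e)
      + ∑ x, VV e 0 a x * VV (-e) (-e) x c = 0 := by
    by_cases h : a < c
    · have hsum : ∑ x, VV e 0 a x * VV (-e) (-e) x c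
          = - (9 / 4) * ∑ x : Fin N, (if a < x ∧ x < c then
            (2 : ℝ) ^ (2 * (((c : ℕ) : ℝ) - ((x : ℕ) : ℝ)) * (-e)) else 0) := by
        rw [Finset.mul_sum]
        refine Finset.sum_congr rfl fun x _ => ?_
        unfold VV
        have he2 : e * e = 1 := by rcases hs with rfl | rfl <;> norm_num
        by_cases h1 : a < x
        · by_cases h2 : x < c
          · rw [if_pos h1, if_pos h2, if_pos ⟨h1, h2⟩, mul_zero, Real.rpow_zero]
            linear_combination (-(9 / 4) *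
              (2 : ℝ) ^ (2 * (((c : ℕ) : ℝ) - ((x : ℕ) : ℝ)) * (-e))) * he2
          · have h3 : ¬ (a < x ∧ x < c) := fun h' => h2 h'.2
            rw [if_neg h2, if_neg h3]; ring
        · have h3 : ¬ (a < x ∧ x < c) := fun h' => h1 h'.1
          rw [if_neg h1, if_neg h3]; ring
      rw [hsum]
      have hg := geo_anti e hs a c h
      unfold VV
      rw [if_pos h, if_pos h, mul_zero, Real.rpow_zero]
      linear_combination (3 / 2) * hg
    · have hsum : ∑ x, VV e 0 a x * VV (-e) (-e) x c = 0 := by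
        refine Finset.sum_eq_zero fun x _ => ?_
        unfold VV
        by_cases h1 : a < x
        · have h2 : ¬ x < c := fun h2 => h (lt_trans h1 h2)
          rw [if_neg h2]; ring
        · rw [if_neg h1]; ring
      rw [hsum]
      unfold VV
      rw [if_neg h, if_neg h]; ring
  linear_combination (dl a' a * dl c' c) * hone + (dl a' c * dl c' a) * hbr

theorem loc_R2_over_anti (e b θ : ℝ) (hs : e = 1 ∨ e = -1) (a c a' c' : Fin N) :
    ∑ x, ∑ y, (2 : ℝ) ^ (kap N x * θ) * (Tw N e b a y x c' * Tw N (-e) (b - θ - e) x c a' y)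
      = (2 : ℝ) ^ (kap N a * θ) * (dl a' a * dl c' c) := by
  have h1 : ∀ x y : Fin N,
      (2 : ℝ) ^ (kap N x * θ) * (Tw N e b a y x c' * Tw N (-e) (b - θ - e) x c a' y)
      = (2 : ℝ) ^ (kap N a * b - kap N a' * (b - θ))
        * (Tw N e 0 a y x c' * Tw N (-e) (-e) x c a' y) := by
    intro x y
    have e1 := Tw_over e 0 b a y x c'
    have e2 := Tw_over (-e) (-e) (b - θ) x c a' y
    rw [zero_add] at e1
    rw [show b - θ - e = -e + (b - θ) by ring, e1, e2]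
    have : (2 : ℝ) ^ (kap N a * b - kap N a' * (b - θ))
        = (2 : ℝ) ^ (kap N x * θ) * (2 : ℝ) ^ ((kap N a - kap N x) * b)
          * (2 : ℝ) ^ ((kap N x - kap N a') * (b - θ)) := by
      rw [← two_rpow_add, ← two_rpow_add]; congr 1; ring
    rw [this]; ring
  simp only [h1, ← Finset.mul_sum]
  rw [loc_R2_anti0 e hs]
  have h2 : (2 : ℝ) ^ (kap N a * b - kap N a' * (b - θ)) * (dl a' a * dl c' c)
      = dl a' a * (2 : ℝ) ^ (kap N a * b - kap N a' * (b - θ)) * dl c' c := by ring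
  rw [h2, dl_mul a' a (fun z => (2 : ℝ) ^ (kap N a * b - kap N z * (b - θ)))]
  have : kap N a * b - kap N a * (b - θ) = kap N a * θ := by ring
  rw [this]; ring

theorem loc_R2_under_anti (e b θ : ℝ) (hs : e = 1 ∨ e = -1) (a c a' c' : Fin N) :
    ∑ x, ∑ y, (2 : ℝ) ^ (kap N x * θ) * (Tw N e b y a c' x * Tw N (-e) (b + θ - e) c x y a')
      = (2 : ℝ) ^ (kap N a * θ) * (dl a' a * dl c' c) := by
  have hs' : -e = 1 ∨ -e = -1 := by
    rcases hs with h | h
    · right; rw [h]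
    · left; rw [h]; norm_num
  -- first crossing of the over strand is the second one of the under strand
  have h1 : ∀ x y : Fin N,
      (2 : ℝ) ^ (kap N x * θ) * (Tw N e b y a c' x * Tw N (-e) (b + θ - e) c x y a')
      = (2 : ℝ) ^ (kap N a' * (b + θ - e) - kap N a * (b - e))
        * (Tw N (-e) 0 c x y a' * Tw N (- -e) (- -e) y a c' x) := by
    intro x y
    have e1 := Tw_under e e (b - e) y a c' x
    have e2 := Tw_under (-e) 0 (b + θ - e) c x y a'
    rw [zero_add] at e2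
    rw [neg_neg, show b = e + (b - e) by ring, e1, show e + (b - e) + θ - e = b + θ - e by ring, e2]
    have : (2 : ℝ) ^ (kap N a' * (b + θ - e) - kap N a * (b - e))
        = (2 : ℝ) ^ (kap N x * θ) * (2 : ℝ) ^ ((kap N x - kap N a) * (b - e))
          * (2 : ℝ) ^ ((kap N a' - kap N x) * (b + θ - e)) := by
      rw [← two_rpow_add, ← two_rpow_add]; congr 1; ring
    rw [show e + (b - e) = b by ring, this]; ring
  simp only [h1, ← Finset.mul_sum]
  rw [Finset.sum_comm, loc_R2_anti0 (-e) hs' c a c' a']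
  have h2 : (2 : ℝ) ^ (kap N a' * (b + θ - e) - kap N a * (b - e)) * (dl c' c * dl a' a)
      = dl a' a * (2 : ℝ) ^ (kap N a' * (b + θ - e) - kap N a * (b - e)) * dl c' c := by ring
  rw [h2, dl_mul a' a (fun z => (2 : ℝ) ^ (kap N z * (b + θ - e) - kap N a * (b - e)))]
  have : kap N a * (b + θ - e) - kap N a * (b - e) = kap N a * θ := by ring
  rw [this]; ring

end Pool.Agent.Lib.MP_ca0971_gt.OT
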