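import Pool.Agent.Lib.MP_ca0971_gt.OT.Net.Loc

/-!
# Project OT, part A: local identities, R3, braid like cases (helper67)
-/

set_option autoImplicit false
set_option linter.unusedSimpArgs false

namespace Pool.Agent.Lib.MP_ca0971_gt.OT

open Finset

variable {N : ℕ}

/-- sum over the outgoing label of the under strand -/
theorem Tw_sum_u (e b : ℝ) (o u o' : Fin N) (G : Fin N → ℝ) :
    ∑ z, Tw N e b o u o' z * G z
      = dl o' o * UU e o u * G u + dl o' u * VV e b o u * G o := by
  have h : ∀ z, Tw N e b o u o' z * G z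
      = dl z u * (dl o' o * UU e o u * G z) + dl z o * (dl o' u * VV e b o u * G z) := fun z => by
    rw [Tw_eq]; ring
  simp only [h, Finset.sum_add_distrib, sum_dl]

/-- sum over the outgoing label of the over strand -/
theorem Tw_sum_o (e b : ℝ) (o u u' : Fin N) (G : Fin N → ℝ) :
    ∑ z, Tw N e b o u z u' * G z
      = dl u' u * UU e o u * G o + dl u' o * VV e b o u * G u := by
  have h : ∀ z, Tw N e b o u z u' * G z
      = dl z o * (dl u' u * UU e o u * G z) + dl z u * (dl u' o * VV e b o u * G z) := fun z => by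
    rw [Tw_eq]; ring
  simp only [h, Finset.sum_add_distrib, sum_dl]

theorem UU_ne {e : ℝ} {o u : Fin N} (h : o ≠ u) : UU e o u = 1 := by simp [UU, h]
theorem VV_lt {e : ℝ} {o u : Fin N} (h : o < u) : VV e 0 o u = e * (3 / 2) := by simp [VV, h]
theorem VV_nlt {e b : ℝ} {o u : Fin N} (h : ¬ o < u) : VV e b o u = 0 := by simp [VV, h]

theorem yb_ttt (e : ℝ) (hs : e = 1 ∨ e = -1) (a b c a' b' c' : Fin N) :
    ∑ x, ∑ y, Tw N e 0 a b x y * ∑ z, Tw N e 0 x c a' z * Tw N e 0 y z b' c'
      = ∑ y, ∑ z, Tw N e 0 b c y z * ∑ x, Tw N e 0 a z x c' * Tw N e 0 x y a' b' := by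
  rw [Tw_sum_out, Tw_sum_out]
  simp only [Tw_sum_u, Tw_sum_o]
  simp only [Tw_eq]
  rcases hs with rfl | rfl
  · rcases eq_or_ne a b with hab | hab
    · subst hab
      rcases lt_trichotomy a c with h | h | h
      · simp only [UU_ne h.ne, UU_ne h.ne', VV_lt h, VV_nlt (not_lt.mpr h.le), UU_self, VV_self, Real.rpow_one, Real.rpow_neg_one]
        ring
      · subst h
        simp only [UU_self, VV_self, Real.rpow_one, Real.rpow_neg_one]
        ring
      · simp only [UU_ne h.ne, UU_ne h.ne', VV_lt h, VV_nlt (not_lt.mpr h.le), UU_self, VV_self, Real.rpow_one, Real.rpow_neg_one]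
        ring
    · rcases eq_or_ne b c with hbc | hbc
      · subst hbc
        rcases lt_or_gt_of_ne hab with h | h
        · simp only [UU_ne h.ne, UU_ne h.ne', VV_lt h, VV_nlt (not_lt.mpr h.le), UU_self, VV_self, Real.rpow_one, Real.rpow_neg_one]
          ring
        · simp only [UU_ne h.ne, UU_ne h.ne', VV_lt h, VV_nlt (not_lt.mpr h.le), UU_self, VV_self, Real.rpow_one, Real.rpow_neg_one]
          ring
      · rcases eq_or_ne a c with hac | hac
        · subst hac
          rcases lt_or_gt_of_ne hab with h | h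
          · simp only [UU_ne h.ne, UU_ne h.ne', VV_lt h, VV_nlt (not_lt.mpr h.le), UU_self, VV_self, Real.rpow_one, Real.rpow_neg_one]
            ring
          · simp only [UU_ne h.ne, UU_ne h.ne', VV_lt h, VV_nlt (not_lt.mpr h.le), UU_self, VV_self, Real.rpow_one, Real.rpow_neg_one]
            ring
        · rcases lt_or_gt_of_ne hab with h1 | h1 <;> rcases lt_or_gt_of_ne hbc with h2 | h2 <;>
            rcases lt_or_gt_of_ne hac with h3 | h3 <;>
            first
            | (exfalso; order)
            | (simp only [UU_ne h1.ne, UU_ne h1.ne', VV_lt h1, VV_nlt (not_lt.mpr h1.le), UU_ne h2.ne, UU_ne h2.ne', VV_lt h2, VV_nlt (not_lt.mpr h2.le), UU_ne h3.ne, UU_ne h3.ne', VV_lt h3, VV_nlt (not_lt.mpr h3.le), UU_self, VV_self, Real.rpow_one, Real.rpow_neg_one]; ring)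
  · rcases eq_or_ne a b with hab | hab
    · subst hab
      rcases lt_trichotomy a c with h | h | h
      · simp only [UU_ne h.ne, UU_ne h.ne', VV_lt h, VV_nlt (not_lt.mpr h.le), UU_self, VV_self, Real.rpow_one, Real.rpow_neg_one]
        ring
      · subst h
        simp only [UU_self, VV_self, Real.rpow_one, Real.rpow_neg_one]
        ring
      · simp only [UU_ne h.ne, UU_ne h.ne', VV_lt h, VV_nlt (not_lt.mpr h.le), UU_self, VV_self, Real.rpow_one, Real.rpow_neg_one]
        ring
    · rcases eq_or_ne b c with hbc | hbc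
      · subst hbc
        rcases lt_or_gt_of_ne hab with h | h
        · simp only [UU_ne h.ne, UU_ne h.ne', VV_lt h, VV_nlt (not_lt.mpr h.le), UU_self, VV_self, Real.rpow_one, Real.rpow_neg_one]
          ring
        · simp only [UU_ne h.ne, UU_ne h.ne', VV_lt h, VV_nlt (not_lt.mpr h.le), UU_self, VV_self, Real.rpow_one, Real.rpow_neg_one]
          ring
      · rcases eq_or_ne a c with hac | hac
        · subst hac
          rcases lt_or_gt_of_ne hab with h | h
          · simp only [UU_ne h.ne, UU_ne h.ne', VV_lt h, VV_nlt (not_lt.mpr h.le), UU_self, VV_self, Real.rpow_one, Real.rpow_neg_one]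
            ring
          · simp only [UU_ne h.ne, UU_ne h.ne', VV_lt h, VV_nlt (not_lt.mpr h.le), UU_self, VV_self, Real.rpow_one, Real.rpow_neg_one]
            ring
        · rcases lt_or_gt_of_ne hab with h1 | h1 <;> rcases lt_or_gt_of_ne hbc with h2 | h2 <;>
            rcases lt_or_gt_of_ne hac with h3 | h3 <;>
            first
            | (exfalso; order)
            | (simp only [UU_ne h1.ne, UU_ne h1.ne', VV_lt h1, VV_nlt (not_lt.mpr h1.le), UU_ne h2.ne, UU_ne h2.ne', VV_lt h2, VV_nlt (not_lt.mpr h2.le), UU_ne h3.ne, UU_ne h3.ne', VV_lt h3, VV_nlt (not_lt.mpr h3.le), UU_self, VV_self, Real.rpow_one, Real.rpow_neg_one]; ring)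

theorem yb_tff (e : ℝ) (hs : e = 1 ∨ e = -1) (a b c a' b' c' : Fin N) :
    ∑ y, ∑ z, Tw N (-e) 0 b c y z * ∑ x, Tw N e 0 a y x b' * Tw N e 0 x z a' c'
      = ∑ x, ∑ z, Tw N e 0 a c x z * ∑ y, Tw N e 0 x b a' y * Tw N (-e) 0 y z b' c' := by
  rw [Tw_sum_out, Tw_sum_out]
  simp only [Tw_sum_u, Tw_sum_o]
  simp only [Tw_eq]
  rcases hs with rfl | rfl
  · rcases eq_or_ne a b with hab | hab
    · subst hab
      rcases lt_trichotomy a c with h | h | h
      · simp only [UU_ne h.ne, UU_ne h.ne', VV_lt h, VV_nlt (not_lt.mpr h.le), UU_self, VV_self, Real.rpow_one, Real.rpow_neg_one]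
        ring
      · subst h
        simp only [UU_self, VV_self, Real.rpow_one, Real.rpow_neg_one]
        ring
      · simp only [UU_ne h.ne, UU_ne h.ne', VV_lt h, VV_nlt (not_lt.mpr h.le), UU_self, VV_self, Real.rpow_one, Real.rpow_neg_one]
        ring
    · rcases eq_or_ne b c with hbc | hbc
      · subst hbc
        rcases lt_or_gt_of_ne hab with h | h
        · simp only [UU_ne h.ne, UU_ne h.ne', VV_lt h, VV_nlt (not_lt.mpr h.le), UU_self, VV_self, Real.rpow_one, Real.rpow_neg_one]
          ring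
        · simp only [UU_ne h.ne, UU_ne h.ne', VV_lt h, VV_nlt (not_lt.mpr h.le), UU_self, VV_self, Real.rpow_one, Real.rpow_neg_one]
          ring
      · rcases eq_or_ne a c with hac | hac
        · subst hac
          rcases lt_or_gt_of_ne hab with h | h
          · simp only [UU_ne h.ne, UU_ne h.ne', VV_lt h, VV_nlt (not_lt.mpr h.le), UU_self, VV_self, Real.rpow_one, Real.rpow_neg_one]
            ring
          · simp only [UU_ne h.ne, UU_ne h.ne', VV_lt h, VV_nlt (not_lt.mpr h.le), UU_self, VV_self, Real.rpow_one, Real.rpow_neg_one]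
            ring
        · rcases lt_or_gt_of_ne hab with h1 | h1 <;> rcases lt_or_gt_of_ne hbc with h2 | h2 <;>
            rcases lt_or_gt_of_ne hac with h3 | h3 <;>
            first
            | (exfalso; order)
            | (simp only [UU_ne h1.ne, UU_ne h1.ne', VV_lt h1, VV_nlt (not_lt.mpr h1.le), UU_ne h2.ne, UU_ne h2.ne', VV_lt h2, VV_nlt (not_lt.mpr h2.le), UU_ne h3.ne, UU_ne h3.ne', VV_lt h3, VV_nlt (not_lt.mpr h3.le), UU_self, VV_self, Real.rpow_one, Real.rpow_neg_one]; ring)
  · rcases eq_or_ne a b with hab | hab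
    · subst hab
      rcases lt_trichotomy a c with h | h | h
      · simp only [UU_ne h.ne, UU_ne h.ne', VV_lt h, VV_nlt (not_lt.mpr h.le), UU_self, VV_self, Real.rpow_one, Real.rpow_neg_one]
        ring
      · subst h
        simp only [UU_self, VV_self, Real.rpow_one, Real.rpow_neg_one]
        ring
      · simp only [UU_ne h.ne, UU_ne h.ne', VV_lt h, VV_nlt (not_lt.mpr h.le), UU_self, VV_self, Real.rpow_one, Real.rpow_neg_one]
        ring
    · rcases eq_or_ne b c with hbc | hbc
      · subst hbc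
        rcases lt_or_gt_of_ne hab with h | h
        · simp only [UU_ne h.ne, UU_ne h.ne', VV_lt h, VV_nlt (not_lt.mpr h.le), UU_self, VV_self, Real.rpow_one, Real.rpow_neg_one]
          ring
        · simp only [UU_ne h.ne, UU_ne h.ne', VV_lt h, VV_nlt (not_lt.mpr h.le), UU_self, VV_self, Real.rpow_one, Real.rpow_neg_one]
          ring
      · rcases eq_or_ne a c with hac | hac
        · subst hac
          rcases lt_or_gt_of_ne hab with h | h
          · simp only [UU_ne h.ne, UU_ne h.ne', VV_lt h, VV_nlt (not_lt.mpr h.le), UU_self, VV_self, Real.rpow_one, Real.rpow_neg_one]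
            ring
          · simp only [UU_ne h.ne, UU_ne h.ne', VV_lt h, VV_nlt (not_lt.mpr h.le), UU_self, VV_self, Real.rpow_one, Real.rpow_neg_one]
            ring
        · rcases lt_or_gt_of_ne hab with h1 | h1 <;> rcases lt_or_gt_of_ne hbc with h2 | h2 <;>
            rcases lt_or_gt_of_ne hac with h3 | h3 <;>
            first
            | (exfalso; order)
            | (simp only [UU_ne h1.ne, UU_ne h1.ne', VV_lt h1, VV_nlt (not_lt.mpr h1.le), UU_ne h2.ne, UU_ne h2.ne', VV_lt h2, VV_nlt (not_lt.mpr h2.le), UU_ne h3.ne, UU_ne h3.ne', VV_lt h3, VV_nlt (not_lt.mpr h3.le), UU_self, VV_self, Real.rpow_one, Real.rpow_neg_one]; ring)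

theorem yb_fft (e : ℝ) (hs : e = 1 ∨ e = -1) (a b c a' b' c' : Fin N) :
    ∑ x, ∑ z, Tw N e 0 a c x z * ∑ y, Tw N e 0 b z y c' * Tw N (-e) 0 x y a' b'
      = ∑ x, ∑ y, Tw N (-e) 0 a b x y * ∑ z, Tw N e 0 y c b' z * Tw N e 0 x z a' c' := by
  rw [Tw_sum_out, Tw_sum_out]
  simp only [Tw_sum_u, Tw_sum_o]
  simp only [Tw_eq]
  rcases hs with rfl | rfl
  · rcases eq_or_ne a b with hab | hab
    · subst hab
      rcases lt_trichotomy a c with h | h | h
      · simp only [UU_ne h.ne, UU_ne h.ne', VV_lt h, VV_nlt (not_lt.mpr h.le), UU_self, VV_self, Real.rpow_one, Real.rpow_neg_one]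
        ring
      · subst h
        simp only [UU_self, VV_self, Real.rpow_one, Real.rpow_neg_one]
        ring
      · simp only [UU_ne h.ne, UU_ne h.ne', VV_lt h, VV_nlt (not_lt.mpr h.le), UU_self, VV_self, Real.rpow_one, Real.rpow_neg_one]
        ring
    · rcases eq_or_ne b c with hbc | hbc
      · subst hbc
        rcases lt_or_gt_of_ne hab with h | h
        · simp only [UU_ne h.ne, UU_ne h.ne', VV_lt h, VV_nlt (not_lt.mpr h.le), UU_self, VV_self, Real.rpow_one, Real.rpow_neg_one]
          ring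
        · simp only [UU_ne h.ne, UU_ne h.ne', VV_lt h, VV_nlt (not_lt.mpr h.le), UU_self, VV_self, Real.rpow_one, Real.rpow_neg_one]
          ring
      · rcases eq_or_ne a c with hac | hac
        · subst hac
          rcases lt_or_gt_of_ne hab with h | h
          · simp only [UU_ne h.ne, UU_ne h.ne', VV_lt h, VV_nlt (not_lt.mpr h.le), UU_self, VV_self, Real.rpow_one, Real.rpow_neg_one]
            ring
          · simp only [UU_ne h.ne, UU_ne h.ne', VV_lt h, VV_nlt (not_lt.mpr h.le), UU_self, VV_self, Real.rpow_one, Real.rpow_neg_one]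
            ring
        · rcases lt_or_gt_of_ne hab with h1 | h1 <;> rcases lt_or_gt_of_ne hbc with h2 | h2 <;>
            rcases lt_or_gt_of_ne hac with h3 | h3 <;>
            first
            | (exfalso; order)
            | (simp only [UU_ne h1.ne, UU_ne h1.ne', VV_lt h1, VV_nlt (not_lt.mpr h1.le), UU_ne h2.ne, UU_ne h2.ne', VV_lt h2, VV_nlt (not_lt.mpr h2.le), UU_ne h3.ne, UU_ne h3.ne', VV_lt h3, VV_nlt (not_lt.mpr h3.le), UU_self, VV_self, Real.rpow_one, Real.rpow_neg_one]; ring)
  · rcases eq_or_ne a b with hab | hab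
    · subst hab
      rcases lt_trichotomy a c with h | h | h
      · simp only [UU_ne h.ne, UU_ne h.ne', VV_lt h, VV_nlt (not_lt.mpr h.le), UU_self, VV_self, Real.rpow_one, Real.rpow_neg_one]
        ring
      · subst h
        simp only [UU_self, VV_self, Real.rpow_one, Real.rpow_neg_one]
        ring
      · simp only [UU_ne h.ne, UU_ne h.ne', VV_lt h, VV_nlt (not_lt.mpr h.le), UU_self, VV_self, Real.rpow_one, Real.rpow_neg_one]
        ring
    · rcases eq_or_ne b c with hbc | hbc
      · subst hbc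
        rcases lt_or_gt_of_ne hab with h | h
        · simp only [UU_ne h.ne, UU_ne h.ne', VV_lt h, VV_nlt (not_lt.mpr h.le), UU_self, VV_self, Real.rpow_one, Real.rpow_neg_one]
          ring
        · simp only [UU_ne h.ne, UU_ne h.ne', VV_lt h, VV_nlt (not_lt.mpr h.le), UU_self, VV_self, Real.rpow_one, Real.rpow_neg_one]
          ring
      · rcases eq_or_ne a c with hac | hac
        · subst hac
          rcases lt_or_gt_of_ne hab with h | h
          · simp only [UU_ne h.ne, UU_ne h.ne', VV_lt h, VV_nlt (not_lt.mpr h.le), UU_self, VV_self, Real.rpow_one, Real.rpow_neg_one]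
            ring
          · simp only [UU_ne h.ne, UU_ne h.ne', VV_lt h, VV_nlt (not_lt.mpr h.le), UU_self, VV_self, Real.rpow_one, Real.rpow_neg_one]
            ring
        · rcases lt_or_gt_of_ne hab with h1 | h1 <;> rcases lt_or_gt_of_ne hbc with h2 | h2 <;>
            rcases lt_or_gt_of_ne hac with h3 | h3 <;>
            first
            | (exfalso; order)
            | (simp only [UU_ne h1.ne, UU_ne h1.ne', VV_lt h1, VV_nlt (not_lt.mpr h1.le), UU_ne h2.ne, UU_ne h2.ne', VV_lt h2, VV_nlt (not_lt.mpr h2.le), UU_ne h3.ne, UU_ne h3.ne', VV_lt h3, VV_nlt (not_lt.mpr h3.le), UU_self, VV_self, Real.rpow_one, Real.rpow_neg_one]; ring)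

end Pool.Agent.Lib.MP_ca0971_gt.OT
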