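import Pool.Agent.Lib.MP_ca0971_gt.OT.Net.Loc2
import Pool.Agent.Lib.MP_ca0971_gt.OT.Net.Loc3

/-!
# Project OT, part A: local identities, R3, cyclic cases (helper67)

The strand b is reversed: matrices on triples (label of t, label of m, label of b) where the third
label is read backwards.
-/

set_option autoImplicit false

namespace Pool.Agent.Lib.MP_ca0971_gt.OT

open Finset

variable {N : ℕ}

/-- crossing t over m -/
noncomputable def MP (N : ℕ) (e : ℝ) : Matrix (Fin N × Fin N × Fin N) (Fin N × Fin N × Fin N) ℝ :=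
  fun i j => Tw N e 0 i.1 i.2.1 j.1 j.2.1 * dl i.2.2 j.2.2

/-- crossing m over b, b reversed -/
noncomputable def MQ (N : ℕ) (e : ℝ) : Matrix (Fin N × Fin N × Fin N) (Fin N × Fin N × Fin N) ℝ :=
  fun i j => Tw N e 0 i.2.1 j.2.2 j.2.1 i.2.2 * dl i.1 j.1

/-- crossing t over b, b reversed -/
noncomputable def MY (N : ℕ) (e b : ℝ) : Matrix (Fin N × Fin N × Fin N) (Fin N × Fin N × Fin N) ℝ :=
  fun i j => Tw N e b i.1 j.2.2 j.1 i.2.2 * dl i.2.1 j.2.1

theorem sum3 (F : Fin N × Fin N × Fin N → ℝ) : ∑ k, F k = ∑ x, ∑ y, ∑ z, F (x, y, z) := by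
  rw [Fintype.sum_prod_type]
  refine Finset.sum_congr rfl fun x _ => ?_
  rw [Fintype.sum_prod_type]

theorem sum_dl_r (c : Fin N) (f : Fin N → ℝ) : ∑ z, f z * dl z c = f c := by
  simp [dl]

theorem sum_dl_r' (c : Fin N) (f : Fin N → ℝ) : ∑ z, f z * dl c z = f c := by
  simp [dl]

theorem MYX (e : ℝ) (hs : e = 1 ∨ e = -1) : MY N e 0 * MY N (-e) (-e) = 1 := by
  ext ⟨a, b, c⟩ ⟨a', b', c'⟩
  rw [Matrix.mul_apply, sum3]
  simp only [MY]
  have h1 : ∀ x y z, Tw N e 0 a z x c * dl b y * (Tw N (-e) (-e) x c' a' z * dl y b')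
      = dl b y * (Tw N e 0 a z x c * Tw N (-e) (-e) x c' a' z * dl y b') := fun x y z => by ring
  simp only [h1, ← Finset.mul_sum, ← Finset.sum_mul, sum_dl']
  rw [loc_R2_anti0 e hs a c' a' c, Matrix.one_apply]
  unfold dl
  by_cases h1 : a = a' <;> by_cases h2 : b = b' <;> by_cases h3 : c = c' <;>
    simp [h1, h2, h3, eq_comm]

theorem MXY (e : ℝ) (hs : e = 1 ∨ e = -1) : MY N (-e) (-e) * MY N e 0 = 1 := by
  have := MYX (N := N) e hs
  exact mul_eq_one_comm.mp this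

theorem MP_MQ_MY (e : ℝ) (hs : e = 1 ∨ e = -1) :
    MP N e * MQ N e * MY N e 0 = MY N e 0 * MQ N e * MP N e := by
  ext ⟨a, b, c⟩ ⟨a', b', c'⟩
  have hL : (MP N e * MQ N e * MY N e 0) (a, b, c) (a', b', c')
      = ∑ x, ∑ y, Tw N e 0 a b x y * ∑ z, Tw N e 0 x c' a' z * Tw N e 0 y z b' c := by
    rw [Matrix.mul_apply, sum3]
    have h1 : ∀ x y z, (MP N e * MQ N e) (a, b, c) (x, y, z)
        = ∑ y', Tw N e 0 a b x y' * Tw N e 0 y' z y c := by
      intro x y z
      rw [Matrix.mul_apply, sum3]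
      simp only [MP, MQ]
      have h2 : ∀ x1 y1 z1, Tw N e 0 a b x1 y1 * dl c z1 * (Tw N e 0 y1 z y z1 * dl x1 x)
          = dl x1 x * (dl c z1 * (Tw N e 0 a b x1 y1 * Tw N e 0 y1 z y z1)) := fun _ _ _ => by ring
      simp only [h2, ← Finset.mul_sum, sum_dl', sum_dl]
    simp only [h1, MY]
    have h3 : ∀ x y z, (∑ y', Tw N e 0 a b x y' * Tw N e 0 y' z y c)
          * (Tw N e 0 x c' a' z * dl y b')
        = dl y b' * ((∑ y', Tw N e 0 a b x y' * Tw N e 0 y' z y c) * Tw N e 0 x c' a' z) :=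
      fun _ _ _ => by ring
    simp only [h3, ← Finset.mul_sum, sum_dl]
    refine Finset.sum_congr rfl fun x _ => ?_
    simp only [Finset.sum_mul, Finset.mul_sum]
    rw [Finset.sum_comm]
    refine Finset.sum_congr rfl fun y _ => Finset.sum_congr rfl fun z _ => by ring
  have hR : (MY N e 0 * MQ N e * MP N e) (a, b, c) (a', b', c')
      = ∑ y, ∑ z, Tw N e 0 b c' y z * ∑ x, Tw N e 0 a z x c * Tw N e 0 x y a' b' := by
    rw [Matrix.mul_apply, sum3]
    have h1 : ∀ x y z, (MY N e 0 * MQ N e) (a, b, c) (x, y, z)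
        = ∑ z', Tw N e 0 a z' x c * Tw N e 0 b z y z' := by
      intro x y z
      rw [Matrix.mul_apply, sum3]
      simp only [MY, MQ]
      have h2 : ∀ x1 y1 z1, Tw N e 0 a z1 x1 c * dl b y1 * (Tw N e 0 y1 z y z1 * dl x1 x)
          = dl x1 x * (dl b y1 * (Tw N e 0 a z1 x1 c * Tw N e 0 y1 z y z1)) := fun _ _ _ => by ring
      simp only [h2, ← Finset.mul_sum, sum_dl', sum_dl]
    simp only [h1, MP]
    have h3 : ∀ x y z, (∑ z', Tw N e 0 a z' x c * Tw N e 0 b z y z')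
          * (Tw N e 0 x y a' b' * dl z c')
        = dl z c' * ((∑ z', Tw N e 0 a z' x c * Tw N e 0 b z y z') * Tw N e 0 x y a' b') :=
      fun _ _ _ => by ring
    simp only [h3, sum_dl]
    rw [Finset.sum_comm]
    refine Finset.sum_congr rfl fun y _ => ?_
    simp only [Finset.sum_mul, Finset.mul_sum]
    rw [Finset.sum_comm]
    refine Finset.sum_congr rfl fun z _ => Finset.sum_congr rfl fun x _ => by ring
  rw [hL, hR]
  exact yb_ttt e hs a b c' a' b' c

theorem MX_MP_MQ (e : ℝ) (hs : e = 1 ∨ e = -1) :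
    MY N (-e) (-e) * MP N e * MQ N e = MQ N e * MP N e * MY N (-e) (-e) := by
  set X := MY N (-e) (-e)
  set Y := MY N e 0
  set P := MP N e
  set Q := MQ N e
  have h1 : P * Q * Y = Y * Q * P := MP_MQ_MY e hs
  have h2 : Y * X = 1 := MYX e hs
  have h3 : X * Y = 1 := MXY e hs
  calc X * P * Q = X * (P * Q * Y) * X := by
        simp only [mul_assoc]; rw [h2, mul_one]
    _ = X * (Y * Q * P) * X := by rw [h1]
    _ = Q * P * X := by
        simp only [← mul_assoc]; rw [h3, one_mul]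

/-- the cyclic R3 -/
theorem yb_cyc (e : ℝ) (hs : e = 1 ∨ e = -1) (a b c a' b' c' : Fin N) :
    ∑ x, ∑ y, ∑ z, Tw N (-e) (-e) a z x c' * Tw N e 0 x b a' y * Tw N e 0 y c b' z
      = ∑ x, ∑ y, ∑ z, Tw N e 0 a y x b' * Tw N (-e) (-e) x c a' z * Tw N e 0 b z y c' := by
  have h := congrFun (congrFun (MX_MP_MQ (N := N) e hs) (a, b, c')) (a', b', c)
  have hL : (MY N (-e) (-e) * MP N e * MQ N e) (a, b, c') (a', b', c)
      = ∑ x, ∑ y, ∑ z, Tw N (-e) (-e) a z x c' * Tw N e 0 x b a' y * Tw N e 0 y c b' z := by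
    rw [Matrix.mul_apply, sum3]
    have h1 : ∀ x y z, (MY N (-e) (-e) * MP N e) (a, b, c') (x, y, z)
        = ∑ x1, Tw N (-e) (-e) a z x1 c' * Tw N e 0 x1 b x y := by
      intro x y z
      rw [Matrix.mul_apply, sum3]
      simp only [MY, MP]
      have h2 : ∀ x1 y1 z1, Tw N (-e) (-e) a z1 x1 c' * dl b y1 * (Tw N e 0 x1 y1 x y * dl z1 z)
          = dl b y1 * (dl z1 z * (Tw N (-e) (-e) a z1 x1 c' * Tw N e 0 x1 y1 x y)) :=
        fun _ _ _ => by ring
      simp only [h2, ← Finset.mul_sum, sum_dl', sum_dl]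
    simp only [h1, MQ]
    have h3 : ∀ x y z, (∑ x1, Tw N (-e) (-e) a z x1 c' * Tw N e 0 x1 b x y)
          * (Tw N e 0 y c b' z * dl x a')
        = dl x a' * ((∑ x1, Tw N (-e) (-e) a z x1 c' * Tw N e 0 x1 b x y) * Tw N e 0 y c b' z) :=
      fun _ _ _ => by ring
    simp only [h3]
    have h4 : ∀ x : Fin N, ∑ y, ∑ z, dl x a'
          * ((∑ x1, Tw N (-e) (-e) a z x1 c' * Tw N e 0 x1 b x y) * Tw N e 0 y c b' z)
        = dl x a' * ∑ y, ∑ z,
          ((∑ x1, Tw N (-e) (-e) a z x1 c' * Tw N e 0 x1 b x y) * Tw N e 0 y c b' z) := by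
      intro x
      simp only [Finset.mul_sum]
    simp only [h4, sum_dl]
    symm
    rw [Finset.sum_comm]
    refine Finset.sum_congr rfl fun y _ => ?_
    rw [Finset.sum_comm]
    refine Finset.sum_congr rfl fun z _ => ?_
    rw [Finset.sum_mul]
  have hR : (MQ N e * MP N e * MY N (-e) (-e)) (a, b, c') (a', b', c)
      = ∑ x, ∑ y, ∑ z, Tw N e 0 a y x b' * Tw N (-e) (-e) x c a' z * Tw N e 0 b z y c' := by
    rw [Matrix.mul_apply, sum3]
    have h1 : ∀ x y z, (MQ N e * MP N e) (a, b, c') (x, y, z)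
        = ∑ y1, Tw N e 0 b z y1 c' * Tw N e 0 a y1 x y := by
      intro x y z
      rw [Matrix.mul_apply, sum3]
      simp only [MQ, MP]
      have h2 : ∀ x1 y1 z1, Tw N e 0 b z1 y1 c' * dl a x1 * (Tw N e 0 x1 y1 x y * dl z1 z)
          = dl z1 z * (dl a x1 * (Tw N e 0 b z1 y1 c' * Tw N e 0 x1 y1 x y)) :=
        fun _ _ _ => by ring
      simp only [h2, sum_dl]
      have h5 : ∀ x1 : Fin N, ∑ y1, dl a x1 * (Tw N e 0 b z y1 c' * Tw N e 0 x1 y1 x y)
          = dl a x1 * ∑ y1, (Tw N e 0 b z y1 c' * Tw N e 0 x1 y1 x y) := fun x1 => by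
        rw [Finset.mul_sum]
      simp only [h5, sum_dl']
    simp only [h1, MY]
    have h3 : ∀ x y z, (∑ y1, Tw N e 0 b z y1 c' * Tw N e 0 a y1 x y)
          * (Tw N (-e) (-e) x c a' z * dl y b')
        = dl y b' * ((∑ y1, Tw N e 0 b z y1 c' * Tw N e 0 a y1 x y) * Tw N (-e) (-e) x c a' z) :=
      fun _ _ _ => by ring
    simp only [h3]
    refine Finset.sum_congr rfl fun x _ => ?_
    simp only [← Finset.mul_sum, sum_dl]
    symm
    rw [Finset.sum_comm]
    refine Finset.sum_congr rfl fun z _ => ?_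
    rw [Finset.sum_mul]
    refine Finset.sum_congr rfl fun y _ => ?_
    ring
  rw [← hL, ← hR]
  exact h

end Pool.Agent.Lib.MP_ca0971_gt.OT
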