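import Pool.Agent.Lib.MP_ca0971_gt.OT.Net.Loc

/-!
# Project OT, part A: local identities, R1 (helper67)
-/

set_option autoImplicit false

namespace Pool.Agent.Lib.MP_ca0971_gt.OT

open Finset

variable {N : ℕ}

theorem three_half (e : ℝ) (hs : e = 1 ∨ e = -1) :
    (2 : ℝ) ^ (-e) * ((2 : ℝ) ^ (2 * e) - 1) = e * (3 / 2) := by
  rcases hs with rfl | rfl
  · rw [show (2 * 1 : ℝ) = ((2 : ℕ) : ℝ) by norm_num, Real.rpow_natCast,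
      Real.rpow_neg (by norm_num), Real.rpow_one]; norm_num
  · rw [show (2 * -1 : ℝ) = -((2 : ℕ) : ℝ) by norm_num, neg_neg, Real.rpow_one,
      Real.rpow_neg (by norm_num), Real.rpow_natCast]; norm_num

theorem loc_R1_over (e θ : ℝ) (hs : e = 1 ∨ e = -1) (a a' : Fin N) :
    ∑ x, (2 : ℝ) ^ (kap N x * θ) * Tw N e (θ + e) a x x a'
      = (2 : ℝ) ^ ((N : ℝ) * e) * ((2 : ℝ) ^ (kap N a * (θ + e)) * dl a' a) := by
  have h1 : ∀ x : Fin N, (2 : ℝ) ^ (kap N x * θ) * Tw N e (θ + e) a x x a'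
      = dl x a * (dl a' x * ((2 : ℝ) ^ (kap N x * θ) * UU e a x))
        + dl a' a * (2 : ℝ) ^ (kap N a * θ) * (if (a : ℕ) + 1 ≤ (x : ℕ) ∧ (x : ℕ) < N then
            (fun n : ℕ => (2 : ℝ) ^ (-e) * (2 : ℝ) ^ (2 * e * ((n : ℝ) - ((a : ℕ) : ℝ)))) ((x : ℕ) + 1)
            - (fun n : ℕ => (2 : ℝ) ^ (-e) * (2 : ℝ) ^ (2 * e * ((n : ℝ) - ((a : ℕ) : ℝ)))) (x : ℕ)
            else 0) := by
    intro x
    rw [Tw_eq, dl_self]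
    by_cases h : a < x
    · have h2 : (a : ℕ) + 1 ≤ (x : ℕ) ∧ (x : ℕ) < N := ⟨Fin.lt_def.mp h, x.isLt⟩
      rw [if_pos h2]
      unfold VV
      rw [if_pos h, ← three_half e hs]
      simp only
      have e1 : 2 * e * ((((x : ℕ) + 1 : ℕ) : ℝ) - ((a : ℕ) : ℝ))
          = 2 * e * (((x : ℕ) : ℝ) - ((a : ℕ) : ℝ)) + 2 * e := by push_cast; ring
      rw [e1, two_rpow_add]
      have e2 : (2 : ℝ) ^ (kap N x * θ)
            * (2 : ℝ) ^ (2 * (((x : ℕ) : ℝ) - ((a : ℕ) : ℝ)) * (θ + e))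
          = (2 : ℝ) ^ (kap N a * θ) * (2 : ℝ) ^ (2 * e * (((x : ℕ) : ℝ) - ((a : ℕ) : ℝ))) := by
        rw [← two_rpow_add, ← two_rpow_add]; congr 1; unfold kap; ring
      linear_combination (dl a' a * ((2 : ℝ) ^ (-e) * ((2 : ℝ) ^ (2 * e) - 1))) * e2
    · have h2 : ¬ ((a : ℕ) + 1 ≤ (x : ℕ) ∧ (x : ℕ) < N) := fun h' => h (Fin.lt_def.mpr h'.1)
      rw [if_neg h2]
      unfold VV
      rw [if_neg h]; ring
  simp only [h1, Finset.sum_add_distrib, sum_dl, ← Finset.mul_sum]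
  have ft := fin_tele (N := N)
    (fun n : ℕ => (2 : ℝ) ^ (-e) * (2 : ℝ) ^ (2 * e * ((n : ℝ) - ((a : ℕ) : ℝ)))) ((a : ℕ) + 1) N
    (by have := a.isLt; omega) le_rfl
  rw [ft, UU_self]
  have e1 : 2 * e * ((((a : ℕ) + 1 : ℕ) : ℝ) - ((a : ℕ) : ℝ)) = 2 * e := by push_cast; ring
  rw [e1]
  have e2 : (2 : ℝ) ^ (-e) * (2 : ℝ) ^ (2 * e) = (2 : ℝ) ^ e := by
    rw [← two_rpow_add]; congr 1; ring
  have e3 : (2 : ℝ) ^ ((N : ℝ) * e) * (2 : ℝ) ^ (kap N a * (θ + e))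
      = (2 : ℝ) ^ (kap N a * θ)
        * ((2 : ℝ) ^ (-e) * (2 : ℝ) ^ (2 * e * ((N : ℝ) - ((a : ℕ) : ℝ)))) := by
    rw [← two_rpow_add, ← two_rpow_add, ← two_rpow_add]; congr 1; unfold kap; ring
  linear_combination (-(dl a' a * (2 : ℝ) ^ (kap N a * θ))) * e2 - dl a' a * e3

theorem loc_R1_under (e θ : ℝ) (hs : e = 1 ∨ e = -1) (a a' : Fin N) :
    ∑ x, (2 : ℝ) ^ (kap N x * θ) * Tw N e (-θ + e) x a a' x
      = (2 : ℝ) ^ ((N : ℝ) * e) * ((2 : ℝ) ^ (kap N a * (θ - e)) * dl a' a) := by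
  have h1 : ∀ x : Fin N, (2 : ℝ) ^ (kap N x * θ) * Tw N e (-θ + e) x a a' x
      = dl x a * (dl a' x * ((2 : ℝ) ^ (kap N x * θ) * UU e x a))
        + dl a' a * (2 : ℝ) ^ (kap N a * θ) * (if 0 ≤ (x : ℕ) ∧ (x : ℕ) < (a : ℕ) then
            (fun n : ℕ => - (2 : ℝ) ^ e * (2 : ℝ) ^ (2 * e * (((a : ℕ) : ℝ) - (n : ℝ)))) ((x : ℕ) + 1)
            - (fun n : ℕ => - (2 : ℝ) ^ e * (2 : ℝ) ^ (2 * e * (((a : ℕ) : ℝ) - (n : ℝ)))) (x : ℕ)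
            else 0) := by
    intro x
    rw [Tw_eq, dl_self]
    by_cases h : x < a
    · have h2 : 0 ≤ (x : ℕ) ∧ (x : ℕ) < (a : ℕ) := ⟨Nat.zero_le _, Fin.lt_def.mp h⟩
      rw [if_pos h2]
      unfold VV
      rw [if_pos h, ← three_half e hs]
      simp only
      have e1 : 2 * e * (((a : ℕ) : ℝ) - (((x : ℕ) + 1 : ℕ) : ℝ))
          = 2 * e * (((a : ℕ) : ℝ) - ((x : ℕ) : ℝ)) + -(2 * e) := by push_cast; ring
      rw [e1, two_rpow_add]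
      have e2 : (2 : ℝ) ^ (kap N x * θ)
            * (2 : ℝ) ^ (2 * (((a : ℕ) : ℝ) - ((x : ℕ) : ℝ)) * (-θ + e))
          = (2 : ℝ) ^ (kap N a * θ) * (2 : ℝ) ^ (2 * e * (((a : ℕ) : ℝ) - ((x : ℕ) : ℝ))) := by
        rw [← two_rpow_add, ← two_rpow_add]; congr 1; unfold kap; ring
      have e4 : (2 : ℝ) ^ (-e) * (2 : ℝ) ^ (2 * e) = (2 : ℝ) ^ e := by
        rw [← two_rpow_add]; congr 1; ring
      have e5 : (2 : ℝ) ^ e * (2 : ℝ) ^ (-(2 * e)) = (2 : ℝ) ^ (-e) := by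
        rw [← two_rpow_add]; congr 1; ring
      linear_combination (dl a' a * ((2 : ℝ) ^ (-e) * ((2 : ℝ) ^ (2 * e) - 1))) * e2
        + (dl a' a * (2 : ℝ) ^ (kap N a * θ)
            * (2 : ℝ) ^ (2 * e * (((a : ℕ) : ℝ) - ((x : ℕ) : ℝ)))) * (e4 + e5)
    · have h2 : ¬ (0 ≤ (x : ℕ) ∧ (x : ℕ) < (a : ℕ)) := fun h' => h (Fin.lt_def.mpr h'.2)
      rw [if_neg h2]
      unfold VV
      rw [if_neg h]; ring
  simp only [h1, Finset.sum_add_distrib, sum_dl, ← Finset.mul_sum]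
  have ft := fin_tele (N := N)
    (fun n : ℕ => - (2 : ℝ) ^ e * (2 : ℝ) ^ (2 * e * (((a : ℕ) : ℝ) - (n : ℝ)))) 0 (a : ℕ)
    (Nat.zero_le _) a.isLt.le
  rw [ft, UU_self]
  have e1 : 2 * e * (((a : ℕ) : ℝ) - ((a : ℕ) : ℝ)) = 0 := by ring
  rw [e1, Real.rpow_zero]
  have e3 : (2 : ℝ) ^ ((N : ℝ) * e) * (2 : ℝ) ^ (kap N a * (θ - e))
      = (2 : ℝ) ^ (kap N a * θ)
        * ((2 : ℝ) ^ e * (2 : ℝ) ^ (2 * e * (((a : ℕ) : ℝ) - ((0 : ℕ) : ℝ)))) := by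
    rw [← two_rpow_add, ← two_rpow_add, ← two_rpow_add]; congr 1; unfold kap; push_cast; ring
  linear_combination - dl a' a * e3

end Pool.Agent.Lib.MP_ca0971_gt.OT
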