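import Pool.Agent.Lib.MP_ca0971_gt.OT.Net.Win
import Pool.Agent.Lib.MP_ca0971_gt.OT.Net.Loc2
import Pool.Agent.Lib.MP_ca0971_gt.OT.Net.LocR1

/-!
# Project OT, part A: slide, R2 and R1 for nets

`nx` is injective. `j2 = nx j1`, the internal cut point is `j2` (turning `g j2`).
-/

set_option autoImplicit false

namespace Pool.Agent.Lib.MP_ca0971_gt.OT

open Finset

variable {J : Type} [Fintype J] [DecidableEq J]

omit [Fintype J] [DecidableEq J] in
open Classical in
theorem ifE_of {N : ℕ} {Cw : Multiset (Cr J)} {w : J} (h : Emp Cw w) (u v : Fin N) :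
    (if Emp Cw w ∧ u ≠ v then (0 : ℝ) else 1) = dl u v := by
  unfold dl
  by_cases h2 : u = v
  · simp [h2]
  · simp [h, h2]

omit [Fintype J] [DecidableEq J] in
open Classical in
theorem ifE_not {N : ℕ} {Cw : Multiset (Cr J)} {w : J} (h : ¬ Emp Cw w) (u v : Fin N) :
    (if Emp Cw w ∧ u ≠ v then (0 : ℝ) else 1) = 1 := by
  simp [h]

/-- the over passage moves from `j1` to `j2 = nx j1` -/
theorem netM_slide_over (N : ℕ) (nx : J → J) (hnx : Function.Injective nx) (g : J → ℝ)
    (Cs : Multiset (Cr J)) (j1 j2 k : J) (h12 : nx j1 = j2) (hne : j1 ≠ j2) (hk1 : k ≠ j1)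
    (hk2 : k ≠ j2) (he1 : Emp Cs j1) (he2 : Emp Cs j2) (e b : ℝ) :
    netM N nx g ((⟨j1, k, e, b⟩ : Cr J) ::ₘ Cs)
      = netM N nx g ((⟨j2, k, e, b - g j2⟩ : Cr J) ::ₘ Cs) := by
  classical
  have hnx2 : nx j2 ≠ j2 := fun h => hne (hnx (h12.trans h.symm))
  have hnxk : nx k ≠ j2 := fun h => hk1 (hnx (h.trans h12.symm))
  have h := netM_win N nx g g [j2] {j1, j2} {(⟨j1, k, e, b⟩ : Cr J)}
    {(⟨j2, k, e, b - g j2⟩ : Cr J)} Cs 1 (by simp) (by simp)
    (by
      intro j hj
      have : nx j = nx j1 := by rw [h12]; exact List.mem_singleton.mp hj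
      simp [hnx this])
    (by
      intro w hw
      rcases Finset.mem_insert.mp hw with h | h
      · rw [h]; exact he1
      · rw [Finset.mem_singleton.mp h]; exact he2)
    (by
      intro j hj
      have h1 : j1 ≠ j := fun h => hj (by simp [h])
      have h2 : j2 ≠ j := fun h => hj (by simp [h])
      unfold Emp; simp [h1, h2])
    (fun _ _ => rfl)
    (by
      intro s
      have em1 : ¬ Emp ({(⟨j1, k, e, b⟩ : Cr J)} : Multiset (Cr J)) j1 := by
        unfold Emp; simp
      have em2 : Emp ({(⟨j1, k, e, b⟩ : Cr J)} : Multiset (Cr J)) j2 := by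
        unfold Emp; simp [hne, hk2]
      have em3 : Emp ({(⟨j2, k, e, b - g j2⟩ : Cr J)} : Multiset (Cr J)) j1 := by
        unfold Emp; simp [hne.symm, hk1]
      have em4 : ¬ Emp ({(⟨j2, k, e, b - g j2⟩ : Cr J)} : Multiset (Cr J)) j2 := by
        unfold Emp; simp
      simp only [avgL, locW, List.toFinset_cons, List.toFinset_nil, Finset.prod_insert
        (show j1 ∉ ({j2} : Finset J) by simp [hne]), Finset.prod_singleton, insert_empty_eq,
        Multiset.map_singleton, Multiset.prod_singleton, ifE_not em1, ifE_of em2, ifE_of em3,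
        ifE_not em4, h12, Function.update_self, Function.update_of_ne hne,
        Function.update_of_ne hnx2, Function.update_of_ne hk2, Function.update_of_ne hnxk, one_mul,
        mul_one]
      have s1 : ∑ x : Fin N, (2 : ℝ) ^ (kap N x * g j2) * dl (s (nx j2)) x
            * Tw N e b (s j1) (s k) x (s (nx k))
          = (2 : ℝ) ^ (kap N (s (nx j2)) * g j2)
            * Tw N e b (s j1) (s k) (s (nx j2)) (s (nx k)) := by
        rw [← sum_dl' (s (nx j2)) (fun x => (2 : ℝ) ^ (kap N x * g j2)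
          * Tw N e b (s j1) (s k) x (s (nx k)))]
        exact Finset.sum_congr rfl fun x _ => by ring
      have s2 : ∑ x : Fin N, (2 : ℝ) ^ (kap N x * g j2) * dl x (s j1)
            * Tw N e (b - g j2) x (s k) (s (nx j2)) (s (nx k))
          = (2 : ℝ) ^ (kap N (s j1) * g j2)
            * Tw N e (b - g j2) (s j1) (s k) (s (nx j2)) (s (nx k)) := by
        rw [← sum_dl (s j1) (fun x => (2 : ℝ) ^ (kap N x * g j2)
          * Tw N e (b - g j2) x (s k) (s (nx j2)) (s (nx k)))]
        exact Finset.sum_congr rfl fun x _ => by ring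
      rw [s1, s2]
      exact loc_slide_over e b (g j2) _ _ _ _)
  rw [one_mul] at h
  exact h

/-- the under passage moves from `j1` to `j2 = nx j1` -/
theorem netM_slide_under (N : ℕ) (nx : J → J) (hnx : Function.Injective nx) (g : J → ℝ)
    (Cs : Multiset (Cr J)) (j1 j2 k : J) (h12 : nx j1 = j2) (hne : j1 ≠ j2) (hk1 : k ≠ j1)
    (hk2 : k ≠ j2) (he1 : Emp Cs j1) (he2 : Emp Cs j2) (e b : ℝ) :
    netM N nx g ((⟨k, j1, e, b⟩ : Cr J) ::ₘ Cs)
      = netM N nx g ((⟨k, j2, e, b + g j2⟩ : Cr J) ::ₘ Cs) := by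
  classical
  have hnx2 : nx j2 ≠ j2 := fun h => hne (hnx (h12.trans h.symm))
  have hnxk : nx k ≠ j2 := fun h => hk1 (hnx (h.trans h12.symm))
  have h := netM_win N nx g g [j2] {j1, j2} {(⟨k, j1, e, b⟩ : Cr J)}
    {(⟨k, j2, e, b + g j2⟩ : Cr J)} Cs 1 (by simp) (by simp)
    (by
      intro j hj
      have : nx j = nx j1 := by rw [h12]; exact List.mem_singleton.mp hj
      simp [hnx this])
    (by
      intro w hw
      rcases Finset.mem_insert.mp hw with h | h
      · rw [h]; exact he1
      · rw [Finset.mem_singleton.mp h]; exact he2)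
    (by
      intro j hj
      have h1 : j1 ≠ j := fun h => hj (by simp [h])
      have h2 : j2 ≠ j := fun h => hj (by simp [h])
      unfold Emp; simp [h1, h2])
    (fun _ _ => rfl)
    (by
      intro s
      have em1 : ¬ Emp ({(⟨k, j1, e, b⟩ : Cr J)} : Multiset (Cr J)) j1 := by
        unfold Emp; simp
      have em2 : Emp ({(⟨k, j1, e, b⟩ : Cr J)} : Multiset (Cr J)) j2 := by
        unfold Emp; simp [hne, hk2]
      have em3 : Emp ({(⟨k, j2, e, b + g j2⟩ : Cr J)} : Multiset (Cr J)) j1 := by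
        unfold Emp; simp [hne.symm, hk1]
      have em4 : ¬ Emp ({(⟨k, j2, e, b + g j2⟩ : Cr J)} : Multiset (Cr J)) j2 := by
        unfold Emp; simp
      simp only [avgL, locW, List.toFinset_cons, List.toFinset_nil, Finset.prod_insert
        (show j1 ∉ ({j2} : Finset J) by simp [hne]), Finset.prod_singleton, insert_empty_eq,
        Multiset.map_singleton, Multiset.prod_singleton, ifE_not em1, ifE_of em2, ifE_of em3,
        ifE_not em4, h12, Function.update_self, Function.update_of_ne hne,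
        Function.update_of_ne hnx2, Function.update_of_ne hk2, Function.update_of_ne hnxk, one_mul,
        mul_one]
      have s1 : ∑ x : Fin N, (2 : ℝ) ^ (kap N x * g j2) * dl (s (nx j2)) x
            * Tw N e b (s k) (s j1) (s (nx k)) x
          = (2 : ℝ) ^ (kap N (s (nx j2)) * g j2)
            * Tw N e b (s k) (s j1) (s (nx k)) (s (nx j2)) := by
        rw [← sum_dl' (s (nx j2)) (fun x => (2 : ℝ) ^ (kap N x * g j2)
          * Tw N e b (s k) (s j1) (s (nx k)) x)]
        exact Finset.sum_congr rfl fun x _ => by ring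
      have s2 : ∑ x : Fin N, (2 : ℝ) ^ (kap N x * g j2) * dl x (s j1)
            * Tw N e (b + g j2) (s k) x (s (nx k)) (s (nx j2))
          = (2 : ℝ) ^ (kap N (s j1) * g j2)
            * Tw N e (b + g j2) (s k) (s j1) (s (nx k)) (s (nx j2)) := by
        rw [← sum_dl (s j1) (fun x => (2 : ℝ) ^ (kap N x * g j2)
          * Tw N e (b + g j2) (s k) x (s (nx k)) (s (nx j2)))]
        exact Finset.sum_congr rfl fun x _ => by ring
      rw [s1, s2]
      exact loc_slide_under e b (g j2) _ _ _ _)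
  rw [one_mul] at h
  exact h

/-- R2, general form -/
theorem netM_R2_gen (N : ℕ) (nx : J → J) (hnx : Function.Injective nx) (g : J → ℝ)
    (Cs : Multiset (Cr J)) (j1 j2 k1 k2 : J) (hj : nx j1 = j2) (hk : nx k1 = k2)
    (hnd : [j1, j2, k1, k2].Nodup) (he : ∀ x ∈ [j1, j2, k1, k2], Emp Cs x) (hg : g k2 = 0)
    (c1 c2 : Cr J)
    (h1 : ∀ x ∈ [j1, j2, k1, k2], ¬ Emp (c1 ::ₘ c2 ::ₘ (0 : Multiset (Cr J))) x)
    (h2 : ∀ j, j ∉ [j1, j2, k1, k2] → Emp (c1 ::ₘ c2 ::ₘ (0 : Multiset (Cr J))) j)
    (hl : ∀ s : J → Fin N, ∑ x, ∑ y, (2 : ℝ) ^ (kap N x * g j2)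
        * ((fun s : J → Fin N => Tw N c1.ep c1.b (s c1.ov) (s c1.un) (s (nx c1.ov)) (s (nx c1.un))
          * Tw N c2.ep c2.b (s c2.ov) (s c2.un) (s (nx c2.ov)) (s (nx c2.un)))
          (Function.update (Function.update s j2 x) k2 y))
      = (2 : ℝ) ^ (kap N (s j1) * g j2) * (dl (s (nx j2)) (s j1) * dl (s (nx k2)) (s k1))) :
    netM N nx g (c1 ::ₘ c2 ::ₘ Cs) = netM N nx g Cs := by
  classical
  simp only [List.nodup_cons, List.mem_cons, List.not_mem_nil, or_false, not_or,
    List.nodup_nil, and_true] at hnd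
  obtain ⟨⟨n12, n13, n14⟩, ⟨n23, n24⟩, n34, -⟩ := hnd
  have a1 : nx j2 ≠ j2 := fun h => n12 (hnx (hj.trans h.symm))
  have a2 : nx j2 ≠ k2 := fun h => n23 (hnx (h.trans hk.symm))
  have a3 : nx k2 ≠ k2 := fun h => n34 (hnx (hk.trans h.symm))
  have a4 : nx k2 ≠ j2 := fun h => n14 (hnx (hj.trans h.symm))
  have h := netM_win N nx g g [j2, k2] {j1, j2, k1, k2} (c1 ::ₘ c2 ::ₘ (0 : Multiset (Cr J)))
    0 Cs 1 (by simp) (by simp)
    (by
      intro j hj'
      rcases List.mem_cons.mp hj' with h | h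
      · have : nx j = nx j1 := by rw [hj]; exact h
        simp [hnx this]
      · have : nx j = nx k1 := by rw [hk]; exact List.mem_singleton.mp h
        simp [hnx this])
    (by
      intro w hw
      refine he w ?_
      simpa using hw)
    (by
      intro j hj'
      have h3 : j ∉ [j1, j2, k1, k2] := fun h => hj' (by simpa using h)
      exact ⟨fun _ => emp_zero, fun _ => h2 j h3⟩)
    (fun _ _ => rfl)
    (by
      intro s
      have z1 := h1 j1 (by simp)
      have z2 := h1 j2 (by simp)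
      have z3 := h1 k1 (by simp)
      have z4 := h1 k2 (by simp)
      have zz : ∀ w : J, Emp (0 : Multiset (Cr J)) w := fun w => emp_zero
      have hW : ∀ f : J → ℝ, ∏ w ∈ ({j1, j2, k1, k2} : Finset J), f w
          = f j1 * (f j2 * (f k1 * f k2)) := by
        intro f
        rw [Finset.prod_insert (by simp [n12, n13, n14]), Finset.prod_insert (by simp [n23, n24]),
          Finset.prod_insert (by simp [n34]), Finset.prod_singleton]
      have hPr : ∀ f : J → ℝ, ∏ w ∈ [j2, k2].toFinset, f w = f j2 * f k2 := by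
        intro f
        rw [List.toFinset_cons, List.toFinset_cons, List.toFinset_nil, Finset.prod_insert
          (by simp [n24]), insert_empty_eq, Finset.prod_singleton]
      simp only [avgL, locW, hW, hPr, ifE_not z1, ifE_not z2, ifE_not z3, ifE_not z4,
        ifE_of (zz _), Multiset.map_zero, Multiset.prod_zero, Multiset.map_cons,
        Multiset.prod_cons, mul_one, one_mul, hg, mul_zero, Real.rpow_zero, hj, hk,
        Function.update_self, Function.update_of_ne n12, Function.update_of_ne n14,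
        Function.update_of_ne n24, Function.update_of_ne (Ne.symm n23),
        Function.update_of_ne n34, Function.update_of_ne a1, Function.update_of_ne a2,
        Function.update_of_ne a3, Function.update_of_ne a4]
      have hl' := hl s
      simp only at hl'
      rw [hl']
      have h5 : ∀ x y : Fin N, (2 : ℝ) ^ (kap N x * g j2)
          * (dl x (s j1) * (dl (s (nx j2)) x * (dl y (s k1) * dl (s (nx k2)) y)))
          = dl x (s j1) * (dl y (s k1) * ((2 : ℝ) ^ (kap N x * g j2) * dl (s (nx j2)) x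
            * dl (s (nx k2)) y)) := fun x y => by ring
      simp only [h5, ← Finset.mul_sum, sum_dl]
      ring)
  rw [one_mul, zero_add] at h
  rw [← h]
  congr 1
  simp

/-- R2, the strand `j1, j2` (with turning `g j2`) is over, parallel to `k1, k2` -/
theorem netM_R2_over_par (N : ℕ) (nx : J → J) (hnx : Function.Injective nx) (g : J → ℝ)
    (Cs : Multiset (Cr J)) (j1 j2 k1 k2 : J) (hj : nx j1 = j2) (hk : nx k1 = k2)
    (hnd : [j1, j2, k1, k2].Nodup) (he : ∀ x ∈ [j1, j2, k1, k2], Emp Cs x) (hg : g k2 = 0)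
    (e b : ℝ) (hs : e = 1 ∨ e = -1) :
    netM N nx g ((⟨j1, k1, e, b⟩ : Cr J) ::ₘ (⟨j2, k2, -e, b - g j2⟩ : Cr J) ::ₘ Cs)
      = netM N nx g Cs := by
  classical
  have hnd' := hnd
  simp only [List.nodup_cons, List.mem_cons, List.not_mem_nil, or_false, not_or,
    List.nodup_nil, and_true] at hnd'
  obtain ⟨⟨n12, n13, n14⟩, ⟨n23, n24⟩, n34, -⟩ := hnd'
  have a1 : nx j2 ≠ j2 := fun h => n12 (hnx (hj.trans h.symm))
  have a2 : nx j2 ≠ k2 := fun h => n23 (hnx (h.trans hk.symm))
  have a3 : nx k2 ≠ k2 := fun h => n34 (hnx (hk.trans h.symm))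
  have a4 : nx k2 ≠ j2 := fun h => n14 (hnx (hj.trans h.symm))
  refine netM_R2_gen N nx hnx g Cs j1 j2 k1 k2 hj hk hnd he hg _ _ ?_ ?_ ?_
  · intro x hx
    simp only [List.mem_cons, List.not_mem_nil, or_false] at hx
    rcases hx with rfl | rfl | rfl | rfl <;> (unfold Emp; simp)
  · intro j hj'
    simp only [List.mem_cons, List.not_mem_nil, or_false, not_or] at hj'
    obtain ⟨b1, b2, b3, b4⟩ := hj'
    unfold Emp
    simp [Ne.symm b1, Ne.symm b2, Ne.symm b3, Ne.symm b4]
  · intro s
    simp only [hj, hk, Function.update_self, Function.update_of_ne n12, Function.update_of_ne n14,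
      Function.update_of_ne n24, Function.update_of_ne (Ne.symm n23),
      Function.update_of_ne n34, Function.update_of_ne a1, Function.update_of_ne a2,
      Function.update_of_ne a3, Function.update_of_ne a4]
    exact loc_R2_over_par e b (g j2) _ _ _ _

/-- R2, the strand `j1, j2` (with turning `g j2`) is over, antiparallel to `k1, k2` -/
theorem netM_R2_over_anti (N : ℕ) (nx : J → J) (hnx : Function.Injective nx) (g : J → ℝ)
    (Cs : Multiset (Cr J)) (j1 j2 k1 k2 : J) (hj : nx j1 = j2) (hk : nx k1 = k2)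
    (hnd : [j1, j2, k1, k2].Nodup) (he : ∀ x ∈ [j1, j2, k1, k2], Emp Cs x) (hg : g k2 = 0)
    (e b : ℝ) (hs : e = 1 ∨ e = -1) :
    netM N nx g ((⟨j1, k2, e, b⟩ : Cr J) ::ₘ (⟨j2, k1, -e, b - g j2 - e⟩ : Cr J) ::ₘ Cs)
      = netM N nx g Cs := by
  classical
  have hnd' := hnd
  simp only [List.nodup_cons, List.mem_cons, List.not_mem_nil, or_false, not_or,
    List.nodup_nil, and_true] at hnd'
  obtain ⟨⟨n12, n13, n14⟩, ⟨n23, n24⟩, n34, -⟩ := hnd'
  have a1 : nx j2 ≠ j2 := fun h => n12 (hnx (hj.trans h.symm))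
  have a2 : nx j2 ≠ k2 := fun h => n23 (hnx (h.trans hk.symm))
  have a3 : nx k2 ≠ k2 := fun h => n34 (hnx (hk.trans h.symm))
  have a4 : nx k2 ≠ j2 := fun h => n14 (hnx (hj.trans h.symm))
  refine netM_R2_gen N nx hnx g Cs j1 j2 k1 k2 hj hk hnd he hg _ _ ?_ ?_ ?_
  · intro x hx
    simp only [List.mem_cons, List.not_mem_nil, or_false] at hx
    rcases hx with rfl | rfl | rfl | rfl <;> (unfold Emp; simp)
  · intro j hj'
    simp only [List.mem_cons, List.not_mem_nil, or_false, not_or] at hj'
    obtain ⟨b1, b2, b3, b4⟩ := hj'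
    unfold Emp
    simp [Ne.symm b1, Ne.symm b2, Ne.symm b3, Ne.symm b4]
  · intro s
    simp only [hj, hk, Function.update_self, Function.update_of_ne n12, Function.update_of_ne n14,
      Function.update_of_ne n24, Function.update_of_ne (Ne.symm n23),
      Function.update_of_ne n34, Function.update_of_ne a1, Function.update_of_ne a2,
      Function.update_of_ne a3, Function.update_of_ne a4]
    exact loc_R2_over_anti e b (g j2) hs _ _ _ _

/-- R2, the strand `j1, j2` (with turning `g j2`) is under, parallel to `k1, k2` -/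
theorem netM_R2_under_par (N : ℕ) (nx : J → J) (hnx : Function.Injective nx) (g : J → ℝ)
    (Cs : Multiset (Cr J)) (j1 j2 k1 k2 : J) (hj : nx j1 = j2) (hk : nx k1 = k2)
    (hnd : [j1, j2, k1, k2].Nodup) (he : ∀ x ∈ [j1, j2, k1, k2], Emp Cs x) (hg : g k2 = 0)
    (e b : ℝ) (hs : e = 1 ∨ e = -1) :
    netM N nx g ((⟨k1, j1, e, b⟩ : Cr J) ::ₘ (⟨k2, j2, -e, b + g j2⟩ : Cr J) ::ₘ Cs)
      = netM N nx g Cs := by
  classical
  have hnd' := hnd
  simp only [List.nodup_cons, List.mem_cons, List.not_mem_nil, or_false, not_or,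
    List.nodup_nil, and_true] at hnd'
  obtain ⟨⟨n12, n13, n14⟩, ⟨n23, n24⟩, n34, -⟩ := hnd'
  have a1 : nx j2 ≠ j2 := fun h => n12 (hnx (hj.trans h.symm))
  have a2 : nx j2 ≠ k2 := fun h => n23 (hnx (h.trans hk.symm))
  have a3 : nx k2 ≠ k2 := fun h => n34 (hnx (hk.trans h.symm))
  have a4 : nx k2 ≠ j2 := fun h => n14 (hnx (hj.trans h.symm))
  refine netM_R2_gen N nx hnx g Cs j1 j2 k1 k2 hj hk hnd he hg _ _ ?_ ?_ ?_
  · intro x hx
    simp only [List.mem_cons, List.not_mem_nil, or_false] at hx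
    rcases hx with rfl | rfl | rfl | rfl <;> (unfold Emp; simp)
  · intro j hj'
    simp only [List.mem_cons, List.not_mem_nil, or_false, not_or] at hj'
    obtain ⟨b1, b2, b3, b4⟩ := hj'
    unfold Emp
    simp [Ne.symm b1, Ne.symm b2, Ne.symm b3, Ne.symm b4]
  · intro s
    simp only [hj, hk, Function.update_self, Function.update_of_ne n12, Function.update_of_ne n14,
      Function.update_of_ne n24, Function.update_of_ne (Ne.symm n23),
      Function.update_of_ne n34, Function.update_of_ne a1, Function.update_of_ne a2,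
      Function.update_of_ne a3, Function.update_of_ne a4]
    exact loc_R2_under_par e b (g j2) _ _ _ _

/-- R2, the strand `j1, j2` (with turning `g j2`) is under, antiparallel to `k1, k2` -/
theorem netM_R2_under_anti (N : ℕ) (nx : J → J) (hnx : Function.Injective nx) (g : J → ℝ)
    (Cs : Multiset (Cr J)) (j1 j2 k1 k2 : J) (hj : nx j1 = j2) (hk : nx k1 = k2)
    (hnd : [j1, j2, k1, k2].Nodup) (he : ∀ x ∈ [j1, j2, k1, k2], Emp Cs x) (hg : g k2 = 0)
    (e b : ℝ) (hs : e = 1 ∨ e = -1) :
    netM N nx g ((⟨k2, j1, e, b⟩ : Cr J) ::ₘ (⟨k1, j2, -e, b + g j2 - e⟩ : Cr J) ::ₘ Cs)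
      = netM N nx g Cs := by
  classical
  have hnd' := hnd
  simp only [List.nodup_cons, List.mem_cons, List.not_mem_nil, or_false, not_or,
    List.nodup_nil, and_true] at hnd'
  obtain ⟨⟨n12, n13, n14⟩, ⟨n23, n24⟩, n34, -⟩ := hnd'
  have a1 : nx j2 ≠ j2 := fun h => n12 (hnx (hj.trans h.symm))
  have a2 : nx j2 ≠ k2 := fun h => n23 (hnx (h.trans hk.symm))
  have a3 : nx k2 ≠ k2 := fun h => n34 (hnx (hk.trans h.symm))
  have a4 : nx k2 ≠ j2 := fun h => n14 (hnx (hj.trans h.symm))
  refine netM_R2_gen N nx hnx g Cs j1 j2 k1 k2 hj hk hnd he hg _ _ ?_ ?_ ?_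
  · intro x hx
    simp only [List.mem_cons, List.not_mem_nil, or_false] at hx
    rcases hx with rfl | rfl | rfl | rfl <;> (unfold Emp; simp)
  · intro j hj'
    simp only [List.mem_cons, List.not_mem_nil, or_false, not_or] at hj'
    obtain ⟨b1, b2, b3, b4⟩ := hj'
    unfold Emp
    simp [Ne.symm b1, Ne.symm b2, Ne.symm b3, Ne.symm b4]
  · intro s
    simp only [hj, hk, Function.update_self, Function.update_of_ne n12, Function.update_of_ne n14,
      Function.update_of_ne n24, Function.update_of_ne (Ne.symm n23),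
      Function.update_of_ne n34, Function.update_of_ne a1, Function.update_of_ne a2,
      Function.update_of_ne a3, Function.update_of_ne a4]
    exact loc_R2_under_anti e b (g j2) hs _ _ _ _

/-- R1, first over -/
theorem netM_R1_over (N : ℕ) (nx : J → J) (hnx : Function.Injective nx) (g : J → ℝ)
    (Cs : Multiset (Cr J)) (j1 j2 : J) (h12 : nx j1 = j2) (hne : j1 ≠ j2) (he1 : Emp Cs j1)
    (he2 : Emp Cs j2) (e b : ℝ) (hs : e = 1 ∨ e = -1) (hb : b = g j2 + e) :
    netM N nx g ((⟨j1, j2, e, b⟩ : Cr J) ::ₘ Cs)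
      = (2 : ℝ) ^ ((N : ℝ) * e) * netM N nx (Function.update g j2 (g j2 + e)) Cs := by
  classical
  have hnx2 : nx j2 ≠ j2 := fun h => hne (hnx (h12.trans h.symm))
  subst hb
  have h := netM_win N nx g (Function.update g j2 (g j2 + e)) [j2] {j1, j2}
    {(⟨j1, j2, e, g j2 + e⟩ : Cr J)} 0 Cs ((2 : ℝ) ^ ((N : ℝ) * e)) (by simp) (by simp)
    (by
      intro j hj
      have : nx j = nx j1 := by rw [h12]; exact List.mem_singleton.mp hj
      simp [hnx this])
    (by
      intro w hw
      rcases Finset.mem_insert.mp hw with h | h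
      · rw [h]; exact he1
      · rw [Finset.mem_singleton.mp h]; exact he2)
    (by
      intro j hj
      have h1 : j1 ≠ j := fun h => hj (by simp [h])
      have h2 : j2 ≠ j := fun h => hj (by simp [h])
      unfold Emp; simp [h1, h2])
    (by
      intro j hj
      exact Function.update_of_ne (fun h => hj (by simp [h])) _ _)
    (by
      intro s
      have em1 : ¬ Emp ({(⟨j1, j2, e, g j2 + e⟩ : Cr J)} : Multiset (Cr J)) j1 := by
        unfold Emp; simp
      have em2 : ¬ Emp ({(⟨j1, j2, e, g j2 + e⟩ : Cr J)} : Multiset (Cr J)) j2 := by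
        unfold Emp; simp
      have zz : ∀ w : J, Emp (0 : Multiset (Cr J)) w := fun w => emp_zero
      simp only [avgL, locW, List.toFinset_cons, List.toFinset_nil, Finset.prod_insert
        (show j1 ∉ ({j2} : Finset J) by simp [hne]), Finset.prod_singleton, insert_empty_eq,
        Multiset.map_singleton, Multiset.prod_singleton, ifE_not em1, ifE_not em2, ifE_of (zz _),
        Multiset.map_zero, Multiset.prod_zero, h12, Function.update_self,
        Function.update_of_ne hne, Function.update_of_ne hnx2, one_mul, mul_one]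
      rw [loc_R1_over e (g j2) hs]
      congr 1
      rw [← sum_dl (s j1) (fun x => (2 : ℝ) ^ (kap N x * (g j2 + e)) * dl (s (nx j2)) x)]
      exact Finset.sum_congr rfl fun x _ => by ring)
  rw [zero_add] at h
  exact h

/-- R1, first under -/
theorem netM_R1_under (N : ℕ) (nx : J → J) (hnx : Function.Injective nx) (g : J → ℝ)
    (Cs : Multiset (Cr J)) (j1 j2 : J) (h12 : nx j1 = j2) (hne : j1 ≠ j2) (he1 : Emp Cs j1)
    (he2 : Emp Cs j2) (e b : ℝ) (hs : e = 1 ∨ e = -1) (hb : b = - g j2 + e) :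
    netM N nx g ((⟨j2, j1, e, b⟩ : Cr J) ::ₘ Cs)
      = (2 : ℝ) ^ ((N : ℝ) * e) * netM N nx (Function.update g j2 (g j2 - e)) Cs := by
  classical
  have hnx2 : nx j2 ≠ j2 := fun h => hne (hnx (h12.trans h.symm))
  subst hb
  have h := netM_win N nx g (Function.update g j2 (g j2 - e)) [j2] {j1, j2}
    {(⟨j2, j1, e, - g j2 + e⟩ : Cr J)} 0 Cs ((2 : ℝ) ^ ((N : ℝ) * e)) (by simp) (by simp)
    (by
      intro j hj
      have : nx j = nx j1 := by rw [h12]; exact List.mem_singleton.mp hj
      simp [hnx this])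
    (by
      intro w hw
      rcases Finset.mem_insert.mp hw with h | h
      · rw [h]; exact he1
      · rw [Finset.mem_singleton.mp h]; exact he2)
    (by
      intro j hj
      have h1 : j1 ≠ j := fun h => hj (by simp [h])
      have h2 : j2 ≠ j := fun h => hj (by simp [h])
      unfold Emp; simp [h1, h2])
    (by
      intro j hj
      exact Function.update_of_ne (fun h => hj (by simp [h])) _ _)
    (by
      intro s
      have em1 : ¬ Emp ({(⟨j2, j1, e, - g j2 + e⟩ : Cr J)} : Multiset (Cr J)) j1 := by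
        unfold Emp; simp
      have em2 : ¬ Emp ({(⟨j2, j1, e, - g j2 + e⟩ : Cr J)} : Multiset (Cr J)) j2 := by
        unfold Emp; simp
      have zz : ∀ w : J, Emp (0 : Multiset (Cr J)) w := fun w => emp_zero
      simp only [avgL, locW, List.toFinset_cons, List.toFinset_nil, Finset.prod_insert
        (show j1 ∉ ({j2} : Finset J) by simp [hne]), Finset.prod_singleton, insert_empty_eq,
        Multiset.map_singleton, Multiset.prod_singleton, ifE_not em1, ifE_not em2, ifE_of (zz _),
        Multiset.map_zero, Multiset.prod_zero, h12, Function.update_self,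
        Function.update_of_ne hne, Function.update_of_ne hnx2, one_mul, mul_one]
      rw [loc_R1_under e (g j2) hs]
      congr 1
      rw [← sum_dl (s j1) (fun x => (2 : ℝ) ^ (kap N x * (g j2 - e)) * dl (s (nx j2)) x)]
      exact Finset.sum_congr rfl fun x _ => by ring)
  rw [zero_add] at h
  exact h

/-- the turning moves along an empty piece -/
theorem netM_turn (N : ℕ) (nx : J → J) (g g' : J → ℝ) (Cs : Multiset (Cr J)) (j1 j2 : J)
    (h12 : nx j1 = j2) (hne : j1 ≠ j2) (he1 : Emp Cs j1) (hg : ∀ j, j ≠ j1 → j ≠ j2 → g' j = g j)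
    (hsum : g' j1 + g' j2 = g j1 + g j2) : netM N nx g' Cs = netM N nx g Cs := by
  classical
  unfold netM
  refine Finset.sum_congr rfl fun s _ => ?_
  unfold netW
  by_cases h : s j2 = s j1
  · congr 2
    have h1 : ∀ f : J → ℝ, (∏ j, f j) = (∏ j ∈ (univ.erase j1).erase j2, f j) * (f j2 * f j1) := by
      intro f
      rw [← Finset.prod_erase_mul univ f (mem_univ j1),
        ← Finset.prod_erase_mul (univ.erase j1) f (Finset.mem_erase.mpr ⟨hne.symm, mem_univ j2⟩)]
      ring
    rw [h1, h1]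
    congr 1
    · refine Finset.prod_congr rfl fun j hj => ?_
      rw [Finset.mem_erase, Finset.mem_erase] at hj
      rw [hg j hj.2.1 hj.1]
    · rw [h, ← two_rpow_add, ← two_rpow_add]
      congr 1
      linear_combination (kap N (s j1)) * hsum
  · have h2 : (∏ j, if Emp Cs j ∧ s (nx j) ≠ s j then (0 : ℝ) else 1) = 0 := by
      refine Finset.prod_eq_zero (mem_univ j1) ?_
      rw [if_pos ⟨he1, by rw [h12]; exact h⟩]
    rw [h2]; ring

end Pool.Agent.Lib.MP_ca0971_gt.OT
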