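import Pool.Agent.Lib.MP_ca0971_gt.OT.Defs

/-!
# Project OT, part A: nets with a multiset of crossing records (helper67)

`netM N nx g Cs` is the state sum `netZ` where the crossings are a multiset `Cs` of records
`⟨ov, un, ep, b⟩` (over piece, under piece, sign, angle from over to under). The piece `j` goes from
the cut point `j` to the cut point `nx j`.
-/

set_option autoImplicit false

namespace Pool.Agent.Lib.MP_ca0971_gt.OT

open Finset

/-- a crossing: over piece, under piece, sign, angle -/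
structure Cr (J : Type) where
  ov : J
  un : J
  ep : ℝ
  b : ℝ

/-- the piece `j` is empty -/
def Emp {J : Type} (Cs : Multiset (Cr J)) (j : J) : Prop := ∀ c ∈ Cs, c.ov ≠ j ∧ c.un ≠ j

open Classical in
/-- the summand of the state `s` -/
noncomputable def netW {J : Type} [Fintype J] (N : ℕ) (nx : J → J) (g : J → ℝ)
    (Cs : Multiset (Cr J)) (s : J → Fin N) : ℝ :=
  (∏ j, (2 : ℝ) ^ (kap N (s j) * g j)) *
    (∏ j, if Emp Cs j ∧ s (nx j) ≠ s j then (0 : ℝ) else 1) *
    (Cs.map fun c => Tw N c.ep c.b (s c.ov) (s c.un) (s (nx c.ov)) (s (nx c.un))).prod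

/-- the state sum -/
noncomputable def netM {J : Type} [Fintype J] [DecidableEq J] (N : ℕ) (nx : J → J) (g : J → ℝ)
    (Cs : Multiset (Cr J)) : ℝ := ∑ s : J → Fin N, netW N nx g Cs s

open Classical in
theorem netZ_eq {J X : Type} [Fintype J] [DecidableEq J] (N : ℕ) (nx : J → J) (g : J → ℝ)
    (C : Finset X) (ov un : X → J) (ep b : X → ℝ) :
    netZ N nx g C ov un ep b
      = netM N nx g (C.val.map fun x => (⟨ov x, un x, ep x, b x⟩ : Cr J)) := by
  unfold netZ netM netW
  refine Finset.sum_congr rfl fun s _ => ?_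
  rw [Multiset.map_map]
  have h : ∀ j : J, (if (∀ x ∈ C, ov x ≠ j ∧ un x ≠ j) ∧ s (nx j) ≠ s j then (0 : ℝ) else 1)
      = if Emp (C.val.map fun x => (⟨ov x, un x, ep x, b x⟩ : Cr J)) j ∧ s (nx j) ≠ s j
          then (0 : ℝ) else 1 := by
    intro j
    refine if_congr ?_ rfl rfl
    simp [Emp]
  simp only [h]
  rfl

/-- the record of the crossing `x` of a diagram, for the pieces `k` -/
def Dia.rcd {I : Type} (D : Dia I) (M : ℕ) (k : I → I → ℕ) (x : I × I) : Cr (I × Fin (M + 1)) :=
  ⟨(x.1, Fin.ofNat (M + 1) (k x.1 x.2)), (x.2, Fin.ofNat (M + 1) (k x.2 x.1)), D.ep x.1 x.2,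
    D.b x.1 x.2⟩

/-- the turnings on the grid -/
def Dia.gg {I : Type} (D : Dia I) (σ : Equiv.Perm I) (M : ℕ) (j : I × Fin (M + 1)) : ℝ :=
  if j.2 = 0 then D.th (σ.symm j.1) else 0

theorem Dia.ZM_netM {I : Type} [Fintype I] [DecidableEq I] (D : Dia I) (σ : Equiv.Perm I) (N M : ℕ)
    (k : I → I → ℕ) :
    D.ZM σ N M k = netM N (gnx σ M) (D.gg σ M) (D.C.val.map (D.rcd M k)) := by
  unfold Dia.ZM
  rw [netZ_eq]
  rfl

theorem gnx_injective {I : Type} (σ : Equiv.Perm I) (M : ℕ) : Function.Injective (gnx σ M) := by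
  rintro ⟨i, a⟩ ⟨j, b⟩ h
  unfold gnx at h
  split_ifs at h with h1 h2 h2
  · have e1 := congrArg Prod.fst h
    have e2 := congrArg (fun x => (Prod.snd x).val) h
    simp only at e1 e2
    subst e1
    congr 1
    exact Fin.ext (by omega)
  · have e2 := congrArg (fun x => (Prod.snd x).val) h
    simp at e2
  · have e2 := congrArg (fun x => (Prod.snd x).val) h
    simp at e2
  · have e1 := congrArg Prod.fst h
    simp only at e1
    have e3 := σ.injective e1
    subst e3
    congr 1
    have := a.isLt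
    have := b.isLt
    simp only at h1 h2
    exact Fin.ext (by omega)

end Pool.Agent.Lib.MP_ca0971_gt.OT
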