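import Pool.Agent.Lib.MP_ca0971_gt.OT.Net.NetM

/-!
# Project OT, part A: the window lemma (helper67)

A move changes the crossings only on the pieces of `Wp`, and sums over the labels of the internal
cut points `ps`.
-/

set_option autoImplicit false

namespace Pool.Agent.Lib.MP_ca0971_gt.OT

open Finset

variable {J : Type} [Fintype J] [DecidableEq J] {L : Type} [Fintype L]

/-- sum over the labels of the cut points in the list -/
noncomputable def avgL : List J → ((J → L) → ℝ) → (J → L) → ℝ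
  | [], F => F
  | p :: ps, F => fun s => ∑ x : L, avgL ps F (Function.update s p x)

theorem sum_update (p : J) (F : (J → L) → ℝ) :
    ∑ s : J → L, ∑ x : L, F (Function.update s p x) = (Fintype.card L : ℝ) * ∑ s, F s := by
  classical
  have h1 : ∑ s : J → L, ∑ x : L, F (Function.update s p x)
      = ∑ z : (J → L) × L, F (Function.update z.1 p z.2) := by
    rw [Fintype.sum_prod_type]
  have h2 : (Fintype.card L : ℝ) * ∑ s, F s = ∑ z : (J → L) × L, F z.1 := by
    rw [Fintype.sum_prod_type]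
    simp only [sum_const, card_univ, nsmul_eq_mul]
    rw [Finset.mul_sum]
  rw [h1, h2]
  -- the involution (s, x) to (update s p x, s p)
  refine Finset.sum_nbij' (fun z => (Function.update z.1 p z.2, z.1 p))
    (fun z => (Function.update z.1 p z.2, z.1 p)) ?_ ?_ ?_ ?_ ?_
  · intro _ _; exact mem_univ _
  · intro _ _; exact mem_univ _
  · intro z _; simp
  · intro z _; simp
  · intro z _; simp

theorem sum_avgL (ps : List J) (F : (J → L) → ℝ) :
    ∑ s, avgL ps F s = (Fintype.card L : ℝ) ^ ps.length * ∑ s, F s := by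
  induction ps with
  | nil => simp [avgL]
  | cons p ps ih =>
    simp only [avgL]
    rw [sum_update p (avgL ps F), ih, List.length_cons, pow_succ]; ring

omit [Fintype J] in
theorem avgL_mul (ps : List J) (H F : (J → L) → ℝ)
    (hH : ∀ p ∈ ps, ∀ s x, H (Function.update s p x) = H s) (s : J → L) :
    avgL ps (fun s => H s * F s) s = H s * avgL ps F s := by
  induction ps generalizing s with
  | nil => rfl
  | cons p ps ih =>
    simp only [avgL]
    rw [Finset.mul_sum]
    refine Finset.sum_congr rfl fun x _ => ?_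
    rw [ih (fun q hq => hH q (List.mem_cons_of_mem _ hq)), hH p List.mem_cons_self]

omit [Fintype J] [DecidableEq J] in
theorem emp_add {Cs Ds : Multiset (Cr J)} {j : J} : Emp (Cs + Ds) j ↔ Emp Cs j ∧ Emp Ds j := by
  unfold Emp
  constructor
  · intro h
    exact ⟨fun c hc => h c (Multiset.mem_add.mpr (Or.inl hc)),
      fun c hc => h c (Multiset.mem_add.mpr (Or.inr hc))⟩
  · rintro ⟨h1, h2⟩ c hc
    rcases Multiset.mem_add.mp hc with h | h
    · exact h1 c h
    · exact h2 c h

omit [Fintype J] [DecidableEq J] in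
theorem emp_cons {Cs : Multiset (Cr J)} {c : Cr J} {j : J} :
    Emp (c ::ₘ Cs) j ↔ (c.ov ≠ j ∧ c.un ≠ j) ∧ Emp Cs j := by
  unfold Emp; simp

omit [Fintype J] [DecidableEq J] in
theorem emp_zero {j : J} : Emp (0 : Multiset (Cr J)) j := by
  unfold Emp; simp

open Classical in
/-- the local weight of a window -/
noncomputable def locW (N : ℕ) (nx : J → J) (g : J → ℝ) (P Wp : Finset J) (Cw : Multiset (Cr J))
    (s : J → Fin N) : ℝ :=
  (∏ p ∈ P, (2 : ℝ) ^ (kap N (s p) * g p)) *
    (∏ w ∈ Wp, if Emp Cw w ∧ s (nx w) ≠ s w then (0 : ℝ) else 1) *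
    (Cw.map fun c => Tw N c.ep c.b (s c.ov) (s c.un) (s (nx c.ov)) (s (nx c.un))).prod

/-- the window lemma -/
theorem netM_win (N : ℕ) (nx : J → J) (g g' : J → ℝ) (ps : List J) (Wp : Finset J)
    (Cw Cw' C0 : Multiset (Cr J)) (lam : ℝ) (hps : ps ≠ [])
    (hP : ∀ p ∈ ps, p ∈ Wp) (hN : ∀ j, nx j ∈ ps → j ∈ Wp)
    (h0 : ∀ w ∈ Wp, Emp C0 w) (hE : ∀ j, j ∉ Wp → (Emp Cw j ↔ Emp Cw' j))
    (hg : ∀ j, j ∉ ps → g' j = g j)
    (hl : ∀ s, avgL ps (locW N nx g ps.toFinset Wp Cw) s
      = lam * avgL ps (locW N nx g' ps.toFinset Wp Cw') s) :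
    netM N nx g (Cw + C0) = lam * netM N nx g' (Cw' + C0) := by
  classical
  set P := ps.toFinset with hPdef
  -- the common factor
  let H : (J → Fin N) → ℝ := fun s =>
    (∏ j ∈ univ \ P, (2 : ℝ) ^ (kap N (s j) * g j)) *
    (∏ j ∈ univ \ Wp, if Emp (Cw + C0) j ∧ s (nx j) ≠ s j then (0 : ℝ) else 1) *
    (C0.map fun c => Tw N c.ep c.b (s c.ov) (s c.un) (s (nx c.ov)) (s (nx c.un))).prod
  have key : ∀ (g1 : J → ℝ) (C1 : Multiset (Cr J)), (∀ j, j ∉ ps → g1 j = g j) →
      (∀ j, j ∉ Wp → (Emp C1 j ↔ Emp Cw j)) →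
      ∀ s, netW N nx g1 (C1 + C0) s = H s * locW N nx g1 P Wp C1 s := by
    intro g1 C1 hg1 hE1 s
    unfold netW locW
    have e1 : (∏ j, (2 : ℝ) ^ (kap N (s j) * g1 j))
        = (∏ j ∈ univ \ P, (2 : ℝ) ^ (kap N (s j) * g j))
          * ∏ p ∈ P, (2 : ℝ) ^ (kap N (s p) * g1 p) := by
      rw [← Finset.prod_sdiff (Finset.subset_univ P)]
      congr 1
      refine Finset.prod_congr rfl fun j hj => ?_
      rw [hg1 j]
      intro h
      exact (Finset.mem_sdiff.mp hj).2 (by rw [hPdef]; exact List.mem_toFinset.mpr h)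
    have e2 : (∏ j, if Emp (C1 + C0) j ∧ s (nx j) ≠ s j then (0 : ℝ) else 1)
        = (∏ j ∈ univ \ Wp, if Emp (Cw + C0) j ∧ s (nx j) ≠ s j then (0 : ℝ) else 1)
          * ∏ w ∈ Wp, if Emp C1 w ∧ s (nx w) ≠ s w then (0 : ℝ) else 1 := by
      rw [← Finset.prod_sdiff (Finset.subset_univ Wp)]
      congr 1
      · refine Finset.prod_congr rfl fun j hj => ?_
        refine if_congr ?_ rfl rfl
        rw [emp_add, emp_add, hE1 j (Finset.mem_sdiff.mp hj).2]
      · refine Finset.prod_congr rfl fun j hj => ?_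
        refine if_congr ?_ rfl rfl
        rw [emp_add]
        have := h0 j hj
        tauto
    rw [e1, e2, Multiset.map_add, Multiset.prod_add]
    ring
  have hH : ∀ p ∈ ps, ∀ (s : J → Fin N) (x : Fin N), H (Function.update s p x) = H s := by
    intro p hp s x
    have hup : ∀ j, j ≠ p → Function.update s p x j = s j := fun j hj =>
      Function.update_of_ne hj x s
    have hW : ∀ j, j ∉ Wp → j ≠ p ∧ nx j ≠ p := by
      intro j hj
      refine ⟨?_, ?_⟩
      · rintro rfl; exact hj (hP _ hp)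
      · intro h; exact hj (hN j (h ▸ hp))
    simp only [H]
    congr 1
    · congr 1
      · refine Finset.prod_congr rfl fun j hj => ?_
        rw [hup j]
        rintro rfl
        exact (Finset.mem_sdiff.mp hj).2 (by rw [hPdef]; exact List.mem_toFinset.mpr hp)
      · refine Finset.prod_congr rfl fun j hj => ?_
        have h1 := hW j (Finset.mem_sdiff.mp hj).2
        rw [hup j h1.1, hup _ h1.2]
    · congr 1
      refine Multiset.map_congr rfl fun c hc => ?_
      have h1 : c.ov ∉ Wp := fun h => (h0 _ h c hc).1 rfl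
      have h2 : c.un ∉ Wp := fun h => (h0 _ h c hc).2 rfl
      rw [hup _ (hW _ h1).1, hup _ (hW _ h1).2, hup _ (hW _ h2).1, hup _ (hW _ h2).2]
  have hsum : ∀ (g1 : J → ℝ) (C1 : Multiset (Cr J)), (∀ j, j ∉ ps → g1 j = g j) →
      (∀ j, j ∉ Wp → (Emp C1 j ↔ Emp Cw j)) →
      (N : ℝ) ^ ps.length * netM N nx g1 (C1 + C0)
        = ∑ s, H s * avgL ps (locW N nx g1 P Wp C1) s := by
    intro g1 C1 hg1 hE1
    unfold netM
    have h3 := sum_avgL (L := Fin N) ps (fun s => netW N nx g1 (C1 + C0) s)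
    rw [Fintype.card_fin] at h3
    rw [← h3]
    refine Finset.sum_congr rfl fun s _ => ?_
    have h4 : (fun s => netW N nx g1 (C1 + C0) s) = fun s => H s * locW N nx g1 P Wp C1 s :=
      funext fun s => key g1 C1 hg1 hE1 s
    rw [h4, avgL_mul ps H _ hH]
  have r1 := hsum g Cw (fun _ _ => rfl) (fun _ _ => Iff.rfl)
  have r2 := hsum g' Cw' hg (fun j hj => (hE j hj).symm)
  have r3 : (N : ℝ) ^ ps.length * netM N nx g (Cw + C0)
      = (N : ℝ) ^ ps.length * (lam * netM N nx g' (Cw' + C0)) := by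
    rw [r1]
    have : (N : ℝ) ^ ps.length * (lam * netM N nx g' (Cw' + C0))
        = lam * ((N : ℝ) ^ ps.length * netM N nx g' (Cw' + C0)) := by ring
    rw [this, r2, Finset.mul_sum]
    refine Finset.sum_congr rfl fun s _ => ?_
    rw [hl s]; ring
  rcases Nat.eq_zero_or_pos N with hN0 | hN0
  · obtain ⟨p, hp⟩ := List.exists_mem_of_ne_nil ps hps
    subst hN0
    have : IsEmpty (J → Fin 0) := ⟨fun s => (s p).elim0⟩
    unfold netM
    simp
  · have hne : (N : ℝ) ^ ps.length ≠ 0 := pow_ne_zero _ (by exact_mod_cast hN0.ne')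
    exact mul_left_cancel₀ hne r3

end Pool.Agent.Lib.MP_ca0971_gt.OT
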