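import Pool.Agent.Lib.MP_ca0971_gt.OT.Net.WordA

/-! # Project OT, part A: Dia.ZM_eq -/

set_option autoImplicit false

namespace Pool.Agent.Lib.MP_ca0971_gt.OT

open Finset

variable {I : Type} [Fintype I] [DecidableEq I]

/-- the state is constant along the empty pieces -/
def Dia.Eff (D : Dia I) (σ : Equiv.Perm I) (N M : ℕ) (k : I → I → ℕ) (s : I × Fin (M + 1) → Fin N) :
    Prop :=
  ∀ i : I, ∀ a : Fin (M + 1), (∀ l, D.Pas i l → Fin.ofNat (M + 1) (k i l) ≠ a) →
    s (gnx σ M (i, a)) = s (i, a)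

/-- the weight of an effective state -/
noncomputable def Dia.VV (D : Dia I) (σ : Equiv.Perm I) (N M : ℕ) (k : I → I → ℕ)
    (s : I × Fin (M + 1) → Fin N) : ℝ :=
  (∏ i, (2 : ℝ) ^ (kap N (s (i, 0)) * D.th (σ.symm i))) *
    ∏ x ∈ D.C, Tw N (D.ep x.1 x.2) (D.b x.1 x.2) (s (x.1, Fin.ofNat (M + 1) (k x.1 x.2)))
      (s (x.2, Fin.ofNat (M + 1) (k x.2 x.1)))
      (s (gnx σ M (x.1, Fin.ofNat (M + 1) (k x.1 x.2))))
      (s (gnx σ M (x.2, Fin.ofNat (M + 1) (k x.2 x.1))))

omit [Fintype I] in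
theorem Dia.empty_iff (D : Dia I) (M : ℕ) (k : I → I → ℕ) (j : I × Fin (M + 1)) :
    (∀ x ∈ D.C, ((x.1, Fin.ofNat (M + 1) (k x.1 x.2)) : I × Fin (M + 1)) ≠ j ∧
      ((x.2, Fin.ofNat (M + 1) (k x.2 x.1)) : I × Fin (M + 1)) ≠ j) ↔
    ∀ l, D.Pas j.1 l → Fin.ofNat (M + 1) (k j.1 l) ≠ j.2 := by
  obtain ⟨i, a⟩ := j
  constructor
  · intro h l hl e
    rcases hl with hl | hl
    · exact (h _ hl).1 (Prod.ext rfl e)
    · exact (h _ hl).2 (Prod.ext rfl e)
  · intro h x hx
    constructor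
    · intro e
      have e1 := congrArg Prod.fst e
      have e2 := congrArg Prod.snd e
      simp only at e1 e2
      subst e1
      exact h x.2 (Or.inl hx) e2
    · intro e
      have e1 := congrArg Prod.fst e
      have e2 := congrArg Prod.snd e
      simp only at e1 e2
      subst e1
      exact h x.1 (Or.inr hx) e2

open Classical in
theorem Dia.ZM_eff (D : Dia I) (σ : Equiv.Perm I) (N M : ℕ) (k : I → I → ℕ) :
    D.ZM σ N M k = ∑ s ∈ univ.filter (fun s => D.Eff σ N M k s), D.VV σ N M k s := by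
  unfold Dia.ZM netZ
  rw [Finset.sum_filter]
  refine Finset.sum_congr rfl fun s _ => ?_
  have h1 : (∏ j : I × Fin (M + 1), (2 : ℝ) ^ (kap N (s j) *
      (if j.2 = 0 then D.th (σ.symm j.1) else 0))) =
      ∏ i, (2 : ℝ) ^ (kap N (s (i, 0)) * D.th (σ.symm i)) := by
    rw [Fintype.prod_prod_type]
    refine Finset.prod_congr rfl fun i _ => ?_
    rw [Fin.prod_univ_succ]
    simp [Fin.succ_ne_zero]
  have h3 : ∀ (A B P : ℝ), P = (if D.Eff σ N M k s then 1 else 0) →
      A * P * B = if D.Eff σ N M k s then A * B else 0 := by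
    intro A B P hP
    rw [hP]
    split_ifs
    · rw [mul_one]
    · rw [mul_zero, zero_mul]
  rw [h1]
  unfold Dia.VV
  refine h3 _ _ _ ?_
  by_cases he : D.Eff σ N M k s
  · rw [if_pos he]
    refine Finset.prod_eq_one fun j _ => ?_
    rw [if_neg]
    rintro ⟨ha, hb⟩
    exact hb (he j.1 j.2 ((D.empty_iff M k j).1 ha))
  · rw [if_neg he]
    unfold Dia.Eff at he
    push Not at he
    obtain ⟨i, a, ha, hb⟩ := he
    refine Finset.prod_eq_zero (mem_univ (i, a)) ?_
    rw [if_pos]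
    exact ⟨(D.empty_iff M k (i, a)).2 ha, hb⟩

theorem ofNat_val {K r : ℕ} (h : r ≤ K) : (Fin.ofNat (K + 1) r).val = r :=
  Nat.mod_eq_of_lt (Nat.lt_succ_of_le h)

theorem gnx_lt (σ : Equiv.Perm I) {K r : ℕ} (h : r < K) (i : I) :
    gnx σ K (i, Fin.ofNat (K + 1) r) = (i, Fin.ofNat (K + 1) (r + 1)) := by
  unfold gnx
  have e := ofNat_val (K := K) (r := r) h.le
  rw [dif_pos (by rw [e]; omega)]
  refine Prod.ext rfl (Fin.ext ?_)
  rw [ofNat_val (by omega : r + 1 ≤ K)]
  simp only
  rw [e]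

theorem gnx_top (σ : Equiv.Perm I) (K : ℕ) (i : I) :
    gnx σ K (i, Fin.ofNat (K + 1) K) = (σ i, Fin.ofNat (K + 1) 0) := by
  unfold gnx
  have e := ofNat_val (K := K) (r := K) le_rfl
  rw [dif_neg (by rw [e]; omega)]
  rfl

/-- the state on the grid `(M, k)` of a state on the standard grid -/
noncomputable def Dia.toS (D : Dia I) {N K M : ℕ} (k : I → I → ℕ) (t : I × Fin (K + 1) → Fin N)
    (j : I × Fin (M + 1)) : Fin N :=
  t (j.1, Fin.ofNat (K + 1) (D.nn k j.1 j.2.val))

open Classical in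
/-- the inverse map -/
noncomputable def Dia.toT (D : Dia I) (σ : Equiv.Perm I) {N K M : ℕ} (k : I → I → ℕ)
    (s : I × Fin (M + 1) → Fin N) (j : I × Fin (K + 1)) : Fin N :=
  if h : ∃ l, D.Pas j.1 l ∧ D.rk j.1 l = j.2.val then
    s (j.1, Fin.ofNat (M + 1) (k j.1 (Classical.choose h))) else s (σ j.1, 0)

omit [DecidableEq I] in
theorem Dia.toT_pas (D : Dia I) (hD : D.Ok) (σ : Equiv.Perm I) {N K M : ℕ} (k : I → I → ℕ)
    (s : I × Fin (M + 1) → Fin N) {i l : I} (hl : D.Pas i l) (hK : D.rk i l ≤ K) :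
    D.toT σ k s (i, Fin.ofNat (K + 1) (D.rk i l)) = s (i, Fin.ofNat (M + 1) (k i l)) := by
  classical
  have e := ofNat_val (K := K) (r := D.rk i l) hK
  have h : ∃ l', D.Pas i l' ∧ D.rk i l' = (Fin.ofNat (K + 1) (D.rk i l)).val := ⟨l, hl, e.symm⟩
  unfold Dia.toT
  simp only
  rw [dif_pos h]
  have h2 := Classical.choose_spec h
  have h3 : Classical.choose h = l := by
    have h2' : D.rk i (Classical.choose h) = D.rk i l := h2.2.trans e
    rcases lt_trichotomy (D.pos i (Classical.choose h)) (D.pos i l) with h1 | h1 | h1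
    · exact absurd h2' (Dia.rk_strict h2.1 h1).ne
    · exact hD.inj i _ l h2.1 hl h1
    · exact absurd h2' (Dia.rk_strict hl h1).ne'
  rw [h3]

omit [DecidableEq I] in
theorem Dia.toT_ge (D : Dia I) (σ : Equiv.Perm I) {N K M : ℕ} (k : I → I → ℕ)
    (s : I × Fin (M + 1) → Fin N) {i : I} {r : ℕ} (hr : D.cnt i ≤ r) (hK : r ≤ K) :
    D.toT σ k s (i, Fin.ofNat (K + 1) r) = s (σ i, 0) := by
  classical
  unfold Dia.toT
  rw [dif_neg]
  rintro ⟨l, hl, h⟩
  simp only at hl h
  rw [ofNat_val hK] at h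
  have := Dia.rk_lt hl
  omega

/-- effective states of the standard grid are constant after the last passage -/
theorem Dia.eff_ge {D : Dia I} {σ : Equiv.Perm I} {N K : ℕ} (hcK : ∀ i, D.cnt i ≤ K)
    {t : I × Fin (K + 1) → Fin N} (ht : D.Eff σ N K D.rk t) {i : I} {r : ℕ} (hr : D.cnt i ≤ r)
    (hK : r ≤ K) : t (i, Fin.ofNat (K + 1) r) = t (σ i, Fin.ofNat (K + 1) 0) := by
  have hemp : ∀ r, D.cnt i ≤ r → r ≤ K → ∀ l, D.Pas i l →
      Fin.ofNat (K + 1) (D.rk i l) ≠ Fin.ofNat (K + 1) r := by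
    intro r hr hK l hl e
    have h1 := Dia.rk_lt hl
    have h2 := congrArg Fin.val e
    rw [ofNat_val (by have := hcK i; omega), ofNat_val hK] at h2
    omega
  obtain ⟨d, hd⟩ : ∃ d, r + d = K := ⟨K - r, by omega⟩
  induction d generalizing r with
  | zero =>
    have hrK : r = K := by omega
    subst hrK
    have := ht i (Fin.ofNat (r + 1) r) (hemp r hr le_rfl)
    rw [gnx_top] at this
    exact this.symm
  | succ d ih =>
    have h1 := ht i (Fin.ofNat (K + 1) r) (hemp r hr hK)
    rw [gnx_lt σ (by omega)] at h1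
    rw [← h1]
    exact ih (by omega) (by omega) (by omega)

/-- `toS` of `toT` on effective states -/
theorem Dia.toS_toT {D : Dia I} (hD : D.Ok) {σ : Equiv.Perm I} {N K M : ℕ} (hcK : ∀ i, D.cnt i ≤ K)
    {k : I → I → ℕ} (hk : D.Val M k) {s : I × Fin (M + 1) → Fin N} (hs : D.Eff σ N M k s)
    {i : I} {a : ℕ} (ha : a ≤ M) :
    D.toT σ (K := K) k s (i, Fin.ofNat (K + 1) (D.nn k i a)) = s (i, Fin.ofNat (M + 1) a) := by
  by_cases hp : ∃ l, D.Pas i l ∧ k i l = a
  · obtain ⟨l, hl, rfl⟩ := hp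
    rw [Dia.nn_at hD hk hl]
    exact D.toT_pas hD σ k s hl (by have := Dia.rk_lt hl; have := hcK i; omega)
  · push Not at hp
    obtain ⟨d, hd⟩ : ∃ d, a + d = M := ⟨M - a, by omega⟩
    induction d generalizing a with
    | zero =>
      have haM : a = M := by omega
      subst haM
      have h1 : D.nn k i a = D.cnt i := by
        rw [← Dia.nn_empty hp]
        exact Dia.nn_top hk i
      rw [h1, D.toT_ge σ k s le_rfl (hcK i)]
      have h2 := hs i (Fin.ofNat (a + 1) a) (by
        intro l hl e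
        have := congrArg Fin.val e
        rw [ofNat_val (hk.1 i l hl), ofNat_val le_rfl] at this
        exact hp l hl this)
      rw [gnx_top] at h2
      exact h2
    | succ d ih =>
      have h2 := hs i (Fin.ofNat (M + 1) a) (by
        intro l hl e
        have := congrArg Fin.val e
        rw [ofNat_val (hk.1 i l hl), ofNat_val ha] at this
        exact hp l hl this)
      rw [gnx_lt σ (by omega)] at h2
      rw [← h2, ← Dia.nn_empty hp]
      by_cases hq : ∃ l, D.Pas i l ∧ k i l = a + 1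
      · obtain ⟨l, hl, e⟩ := hq
        rw [← e, Dia.nn_at hD hk hl]
        exact D.toT_pas hD σ k s hl (by have := Dia.rk_lt hl; have := hcK i; omega)
      · push Not at hq
        exact ih (by omega) hq (by omega)

/-- the colour of `toS t` after a piece -/
theorem Dia.toS_gnx {D : Dia I} {σ : Equiv.Perm I} {N K M : ℕ} (hcK : ∀ i, D.cnt i ≤ K)
    {k : I → I → ℕ} (hk : D.Val M k) {t : I × Fin (K + 1) → Fin N} (ht : D.Eff σ N K D.rk t)
    {i : I} {a : ℕ} (ha : a ≤ M) :
    D.toS k t (gnx σ M (i, Fin.ofNat (M + 1) a)) = t (i, Fin.ofNat (K + 1) (D.nn k i (a + 1))) := by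
  rcases Nat.lt_or_ge a M with h | h
  · rw [gnx_lt σ h]
    unfold Dia.toS
    simp only
    rw [ofNat_val (by omega)]
  · have haM : a = M := by omega
    subst haM
    rw [gnx_top, Dia.nn_top hk i, Dia.eff_ge hcK ht le_rfl (hcK i)]
    unfold Dia.toS
    simp only
    rw [ofNat_val (Nat.zero_le _), Dia.nn_zero]

/-- Every valid choice of pieces gives the state sum. -/
theorem Dia.ZM_eq (σ : Equiv.Perm I) (N M : ℕ) (D : Dia I) (hD : D.Ok) (k : I → I → ℕ)
    (hk : D.Val M k) : D.ZM σ N M k = D.Z σ N := by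
  classical
  unfold Dia.Z
  rw [D.ZM_eff, D.ZM_eff]
  symm
  have hcK : ∀ i, D.cnt i ≤ Fintype.card I := D.cnt_le
  generalize Fintype.card I = K at hcK
  have hrK : ∀ i l, D.Pas i l → D.rk i l < K := fun i l hl =>
    lt_of_lt_of_le (Dia.rk_lt hl) (hcK i)
  have hnK : ∀ i a, D.nn k i a ≤ K := fun i a => (D.nn_le k i a).trans (hcK i)
  have hfin : ∀ {L : ℕ} (a : Fin (L + 1)), Fin.ofNat (L + 1) a.val = a := by
    intro L a
    exact Fin.ext (ofNat_val (by omega))
  refine Finset.sum_nbij' (fun t => D.toS k t) (fun s => D.toT σ k s) ?_ ?_ ?_ ?_ ?_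
  · intro t ht
    simp only [mem_filter, mem_univ, true_and] at ht ⊢
    intro i a ha
    have hp : ∀ l, D.Pas i l → k i l ≠ a.val := by
      intro l hl e
      refine ha l hl (Fin.ext ?_)
      rw [ofNat_val (hk.1 i l hl)]
      exact e
    have h1 := Dia.toS_gnx hcK hk ht (i := i) (a := a.val) (by omega)
    rw [hfin a] at h1
    rw [h1, Dia.nn_empty hp]
    rfl
  · intro s hs
    simp only [mem_filter, mem_univ, true_and] at hs ⊢
    intro i a ha
    have hca : D.cnt i ≤ a.val := by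
      by_contra hc
      push Not at hc
      obtain ⟨l, hl, e⟩ := Dia.rk_surj hD hc
      refine ha l hl (Fin.ext ?_)
      rw [ofNat_val (hrK i l hl).le]
      exact e
    have h1 : D.toT σ k s (i, a) = s (σ i, 0) := by
      have := D.toT_ge σ (K := K) k s hca (by omega)
      rwa [hfin a] at this
    rw [h1]
    rcases Nat.lt_or_ge a.val K with h | h
    · have e := gnx_lt σ h i
      rw [hfin a] at e
      rw [e]
      exact D.toT_ge σ k s (by omega) (by omega)
    · have haK : a.val = K := by omega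
      have e := gnx_top σ K i
      have e2 : Fin.ofNat (K + 1) K = a := Fin.ext (by rw [ofNat_val le_rfl]; exact haK.symm)
      rw [e2] at e
      rw [e]
      have h3 := Dia.toS_toT hD hcK hk hs (i := σ i) (a := 0) (Nat.zero_le _)
      rw [Dia.nn_zero] at h3
      exact h3
  · intro t ht
    simp only [mem_filter, mem_univ, true_and] at ht
    funext j
    obtain ⟨i, a⟩ := j
    by_cases hc : a.val < D.cnt i
    · obtain ⟨l, hl, e⟩ := Dia.rk_surj hD hc
      have ea : a = Fin.ofNat (K + 1) (D.rk i l) := by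
        refine Fin.ext ?_
        rw [ofNat_val (hrK i l hl).le]
        exact e.symm
      rw [ea, D.toT_pas hD σ k _ hl (hrK i l hl).le]
      unfold Dia.toS
      simp only
      rw [ofNat_val (hk.1 i l hl), Dia.nn_at hD hk hl]
    · have h1 : D.toT σ k (D.toS k t : I × Fin (M + 1) → Fin N) (i, a) = (D.toS k t : I × Fin (M + 1) → Fin N) (σ i, 0) := by
        have := D.toT_ge σ (K := K) k (D.toS k t : I × Fin (M + 1) → Fin N)
          (i := i) (r := a.val) (by omega) (by omega)
        rwa [hfin a] at this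
      rw [h1]
      have h2 := Dia.eff_ge hcK ht (i := i) (r := a.val) (by omega) (by omega)
      rw [hfin a] at h2
      rw [h2]
      unfold Dia.toS
      simp only [Fin.val_zero]
      rw [Dia.nn_zero]
  · intro s hs
    simp only [mem_filter, mem_univ, true_and] at hs
    funext j
    obtain ⟨i, a⟩ := j
    have h3 := Dia.toS_toT (K := K) hD hcK hk hs (i := i) (a := a.val) (by omega)
    rw [hfin a] at h3
    exact h3
  · intro t ht
    simp only [mem_filter, mem_univ, true_and] at ht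
    unfold Dia.VV
    have hin : ∀ i l, D.Pas i l → (D.toS k t : I × Fin (M + 1) → Fin N)
        (i, Fin.ofNat (M + 1) (k i l)) = t (i, Fin.ofNat (K + 1) (D.rk i l)) := by
      intro i l hl
      unfold Dia.toS
      simp only
      rw [ofNat_val (hk.1 i l hl), Dia.nn_at hD hk hl]
    have hout : ∀ i l, D.Pas i l → (D.toS k t : I × Fin (M + 1) → Fin N)
        (gnx σ M (i, Fin.ofNat (M + 1) (k i l))) =
          t (gnx σ K (i, Fin.ofNat (K + 1) (D.rk i l))) := by
      intro i l hl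
      rw [Dia.toS_gnx hcK hk ht (hk.1 i l hl), Dia.nn_succ hD hk hl, gnx_lt σ (hrK i l hl)]
    have h0 : ∀ i, (D.toS k t : I × Fin (M + 1) → Fin N) (i, 0) = t (i, 0) := by
      intro i
      unfold Dia.toS
      simp only [Fin.val_zero]
      rw [Dia.nn_zero]
      rfl
    congr 1
    · refine Finset.prod_congr rfl fun i _ => ?_
      rw [h0]
    · refine Finset.prod_congr rfl fun x hx => ?_
      have p1 : D.Pas x.1 x.2 := Or.inl hx
      have p2 : D.Pas x.2 x.1 := Or.inr hx
      rw [hin _ _ p1, hin _ _ p2, hout _ _ p1, hout _ _ p2]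

end Pool.Agent.Lib.MP_ca0971_gt.OT
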