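import Pool.Agent.Lib.MP_ca0971_gt.OT.Net.NetM

/-! # Project OT, part A: counting the passages of an edge -/

set_option autoImplicit false

namespace Pool.Agent.Lib.MP_ca0971_gt.OT

open Finset

variable {I : Type} [Fintype I]

open Classical in
/-- number of passages of the edge `i` before the piece `a` -/
noncomputable def Dia.nn (D : Dia I) (k : I → I → ℕ) (i : I) (a : ℕ) : ℕ :=
  (univ.filter fun l => D.Pas i l ∧ k i l < a).card

open Classical in
/-- number of passages of the edge `i` -/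
noncomputable def Dia.cnt (D : Dia I) (i : I) : ℕ := (univ.filter fun l => D.Pas i l).card

theorem Dia.cnt_le (D : Dia I) (i : I) : D.cnt i ≤ Fintype.card I := by
  classical
  exact Finset.card_le_univ _

theorem Dia.nn_le (D : Dia I) (k : I → I → ℕ) (i : I) (a : ℕ) : D.nn k i a ≤ D.cnt i := by
  classical
  refine Finset.card_le_card fun l hl => ?_
  simp only [mem_filter, mem_univ, true_and] at hl ⊢
  exact hl.1

theorem Dia.nn_zero (D : Dia I) (k : I → I → ℕ) (i : I) : D.nn k i 0 = 0 := by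
  classical
  unfold Dia.nn
  rw [Finset.card_eq_zero]
  ext l
  simp

theorem Dia.nn_top {D : Dia I} {k : I → I → ℕ} {M : ℕ} (hk : D.Val M k) (i : I) :
    D.nn k i (M + 1) = D.cnt i := by
  classical
  unfold Dia.nn Dia.cnt
  congr 1
  ext l
  simp only [mem_filter, mem_univ, true_and]
  exact ⟨fun h => h.1, fun h => ⟨h, Nat.lt_succ_of_le (hk.1 i l h)⟩⟩

theorem Dia.nn_empty {D : Dia I} {k : I → I → ℕ} {i : I} {a : ℕ}
    (h : ∀ l, D.Pas i l → k i l ≠ a) : D.nn k i (a + 1) = D.nn k i a := by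
  classical
  unfold Dia.nn
  congr 1
  ext l
  simp only [mem_filter, mem_univ, true_and]
  constructor
  · rintro ⟨h1, h2⟩
    have := h l h1
    exact ⟨h1, by omega⟩
  · rintro ⟨h1, h2⟩
    exact ⟨h1, by omega⟩

omit [Fintype I] in
theorem Dia.k_lt_iff {D : Dia I} (hD : D.Ok) {k : I → I → ℕ} {M : ℕ} (hk : D.Val M k) {i l l' : I}
    (hl : D.Pas i l) (hl' : D.Pas i l') : k i l' < k i l ↔ D.pos i l' < D.pos i l := by
  constructor
  · intro h
    rcases lt_trichotomy (D.pos i l') (D.pos i l) with h1 | h1 | h1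
    · exact h1
    · have := hD.inj i l' l hl' hl h1
      subst this
      exact absurd h (lt_irrefl _)
    · exact absurd (hk.2 i l l' hl hl' h1) h.asymm
  · exact hk.2 i l' l hl' hl

omit [Fintype I] in
theorem Dia.k_inj {D : Dia I} (hD : D.Ok) {k : I → I → ℕ} {M : ℕ} (hk : D.Val M k) {i l l' : I}
    (hl : D.Pas i l) (hl' : D.Pas i l') (h : k i l' = k i l) : l' = l := by
  rcases lt_trichotomy (D.pos i l') (D.pos i l) with h1 | h1 | h1
  · exact absurd (hk.2 i l' l hl' hl h1) (by omega)
  · exact hD.inj i l' l hl' hl h1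
  · exact absurd (hk.2 i l l' hl hl' h1) (by omega)

theorem Dia.nn_at {D : Dia I} (hD : D.Ok) {k : I → I → ℕ} {M : ℕ} (hk : D.Val M k) {i l : I}
    (hl : D.Pas i l) : D.nn k i (k i l) = D.rk i l := by
  classical
  unfold Dia.nn Dia.rk
  congr 1
  ext l'
  simp only [mem_filter, mem_univ, true_and]
  constructor
  · rintro ⟨h1, h2⟩
    exact ⟨h1, (Dia.k_lt_iff hD hk hl h1).1 h2⟩
  · rintro ⟨h1, h2⟩
    exact ⟨h1, (Dia.k_lt_iff hD hk hl h1).2 h2⟩

theorem Dia.nn_succ {D : Dia I} (hD : D.Ok) {k : I → I → ℕ} {M : ℕ} (hk : D.Val M k) {i l : I}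
    (hl : D.Pas i l) : D.nn k i (k i l + 1) = D.rk i l + 1 := by
  classical
  rw [← Dia.nn_at hD hk hl]
  unfold Dia.nn
  have e : (univ.filter fun l' => D.Pas i l' ∧ k i l' < k i l + 1)
      = insert l (univ.filter fun l' => D.Pas i l' ∧ k i l' < k i l) := by
    ext l'
    simp only [mem_filter, mem_univ, true_and, mem_insert]
    constructor
    · rintro ⟨h1, h2⟩
      rcases Nat.lt_succ_iff_lt_or_eq.1 h2 with h3 | h3
      · exact Or.inr ⟨h1, h3⟩
      · exact Or.inl (Dia.k_inj hD hk hl h1 h3)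
    · rintro (rfl | ⟨h1, h2⟩)
      · exact ⟨hl, Nat.lt_succ_self _⟩
      · exact ⟨h1, by omega⟩
  have e2 : (univ.filter fun l' => D.Pas i l' ∧ k i l' < k i l + 1).card
      = (univ.filter fun l' => D.Pas i l' ∧ k i l' < k i l).card + 1 := by
    rw [e, Finset.card_insert_of_notMem]
    simp
  convert e2

theorem Dia.rk_lt {D : Dia I} {i l : I} (hl : D.Pas i l) : D.rk i l < D.cnt i := by
  classical
  unfold Dia.rk Dia.cnt
  refine Finset.card_lt_card ⟨fun l' h => ?_, fun h => ?_⟩
  · simp only [mem_filter, mem_univ, true_and] at h ⊢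
    exact h.1
  · have : l ∈ univ.filter fun l' => D.Pas i l' := by simpa using hl
    have h2 := h this
    simp at h2

theorem Dia.rk_strict {D : Dia I} {i l l' : I} (hl : D.Pas i l) (h : D.pos i l < D.pos i l') :
    D.rk i l < D.rk i l' := by
  classical
  unfold Dia.rk
  refine Finset.card_lt_card ⟨fun l'' h'' => ?_, fun hs => ?_⟩
  · simp only [mem_filter, mem_univ, true_and] at h'' ⊢
    exact ⟨h''.1, h''.2.trans h⟩
  · have h1 : l ∈ univ.filter fun k => D.Pas i k ∧ D.pos i k < D.pos i l' := by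
      simpa using ⟨hl, h⟩
    have h2 := hs h1
    simp at h2

theorem Dia.rk_surj {D : Dia I} (hD : D.Ok) {i : I} {r : ℕ} (h : r < D.cnt i) :
    ∃ l, D.Pas i l ∧ D.rk i l = r := by
  classical
  have e : (univ.filter fun l => D.Pas i l).image (D.rk i) = range (D.cnt i) := by
    refine Finset.eq_of_subset_of_card_le ?_ ?_
    · intro x hx
      rw [mem_image] at hx
      obtain ⟨l, hl, rfl⟩ := hx
      simp only [mem_filter, mem_univ, true_and] at hl
      exact mem_range.2 (Dia.rk_lt hl)
    · rw [card_range, Finset.card_image_of_injOn]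
      · unfold Dia.cnt
        exact le_of_eq (by congr)
      · intro l hl l' hl' hh
        simp only [coe_filter, mem_univ, true_and, Set.mem_ofPred_eq] at hl hl'
        rcases lt_trichotomy (D.pos i l) (D.pos i l') with h1 | h1 | h1
        · exact absurd hh (Dia.rk_strict hl h1).ne
        · exact hD.inj i l l' hl hl' h1
        · exact absurd hh (Dia.rk_strict hl' h1).ne'
  have h2 : r ∈ (univ.filter fun l => D.Pas i l).image (D.rk i) := by
    rw [e]; exact mem_range.2 h
  rw [mem_image] at h2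
  obtain ⟨l, hl, hr⟩ := h2
  simp only [mem_filter, mem_univ, true_and] at hl
  exact ⟨l, hl, hr⟩

end Pool.Agent.Lib.MP_ca0971_gt.OT
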